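import Pool.Agent.W5h65.GS.Cum

/-!
# Counting algebraic numbers among constants and cumulants
-/

set_option autoImplicit false

open Set

namespace Pool.Agent.W5h65.GS

open Pool.Agent.R352.E (cc clF Mt subset_clF clF_mono clF_le card_le mem_clF')

/-- counting over a field with given generators -/
lemma count_base {ι κ β : Type} [Fintype ι] [Fintype κ] [Fintype β] {x : ι → ℝ} (hx : AlgebraicIndependent ℚ x)
    {y : κ → ℝ} {b : β → ℝ} (S : Finset κ) (hS : ∀ k ∈ S, y k ∈ clF (range b))
    (h : ∀ i, x i ∈ clF (range b ∪ range y)) : Fintype.card ι + S.card ≤ Fintype.card β + Fintype.card κ := by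
  classical
  have h1 : clF (range b ∪ range y) ≤ clF (range b ∪ y '' (Sᶜ : Finset κ)) := by
    refine clF_le ?_
    rintro z (hz | ⟨k, rfl⟩)
    · exact subset_clF _ (Or.inl hz)
    · by_cases hk : k ∈ S
      · exact clF_mono subset_union_left (hS k hk)
      · refine subset_clF _ (Or.inr ⟨k, ?_, rfl⟩)
        simpa using hk
  have h2 := card_le hx (fun i => h1 (h i))
  have h3 : (range b ∪ y '' (Sᶜ : Finset κ) : Set ℝ).encard ≤ ((Fintype.card β + (Sᶜ : Finset κ).card : ℕ) : ℕ∞) := by
    refine (encard_union_le _ _).trans ?_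
    have e : (((Sᶜ : Finset κ) : Set κ)).encard = ((Sᶜ : Finset κ).card : ℕ∞) := encard_coe_eq_coe_finsetCard _
    have e2 : (range b).encard ≤ (Fintype.card β : ℕ∞) := by
      rw [← image_univ, ← ENat.card_eq_coe_fintype_card, ← encard_univ]
      exact encard_image_le _ _
    rw [Nat.cast_add, ← e]
    exact add_le_add e2 (encard_image_le _ _)
  have h4 : (Fintype.card ι : ℕ∞) ≤ ((Fintype.card β + (Sᶜ : Finset κ).card : ℕ) : ℕ∞) :=
    h2.trans ((Matroid.eRk_le_encard _ _).trans h3)
  have h5 : Fintype.card ι ≤ Fintype.card β + (Sᶜ : Finset κ).card := by exact_mod_cast h4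
  rw [Finset.card_compl] at h5
  have h6 := Finset.card_le_univ S
  omega

/-- the index type -/
abbrev I0 : Type := Option (ℚ × (ℕ ⊕ ℕ))

/-- the algebraically independent numbers -/
noncomputable def nm : I0 → ℝ
  | none => Real.exp 1
  | some (r, p) => num r p

/-- the cumulants themselves -/
noncomputable def cm : I0 → ℝ
  | none => Real.exp 1
  | some (r, Sum.inl j) => cum (gS (√(r : ℝ))) j
  | some (r, Sum.inr j) => cum (gC (√(r : ℝ))) (j + 1)

/-- the order -/
def ord : I0 → ℕ
  | none => 0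
  | some (_, Sum.inl j) => j
  | some (_, Sum.inr j) => j + 1

/-- the positive indices -/
def vld : I0 → Prop
  | none => True
  | some (r, _) => 0 < r

lemma nm_cm (i : I0) (h : ord i ≠ 0) : nm i = cm i - cc (ord i - 1) / 2 ^ ord i := by
  rcases i with _ | ⟨r, j | j⟩
  · exact absurd rfl h
  · cases j with
    | zero => exact absurd rfl h
    | succ j => simp [nm, num, cm, ord, rk]
  · simp [nm, num, cm, ord, rk]

/-- the embedding of a finite index type -/
def emI (S : Finset ℚ) (L : ℕ) : Sg' S L → I0 := Option.map (Prod.map Subtype.val (Sum.map Fin.val Fin.val))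

lemma emI_inj (S : Finset ℚ) (L : ℕ) : Function.Injective (emI S L) :=
  Option.map_injective (Function.Injective.prodMap Subtype.val_injective
    (Function.Injective.sumMap Fin.val_injective Fin.val_injective))

lemma emI_surj {S : Finset ℚ} {L : ℕ} {i : I0} (h : ∀ r p, i = some (r, p) → r ∈ S) (hL : ord i ≤ L) :
    ∃ o, emI S L o = i := by
  rcases i with _ | ⟨r, j | j⟩
  · exact ⟨none, rfl⟩
  · exact ⟨some (⟨r, h r _ rfl⟩, Sum.inl ⟨j, by simp only [ord] at hL; omega⟩), rfl⟩
  · exact ⟨some (⟨r, h r _ rfl⟩, Sum.inr ⟨j, by simp only [ord] at hL; omega⟩), rfl⟩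

lemma nm_alg (S : Finset ℚ) (hS : ∀ r ∈ S, 0 < r) (L : ℕ) : AlgebraicIndependent ℚ (fun o => nm (emI S L o)) := by
  have h := cum_alg_fin (ι := S) (fun r => (r : ℚ)) Subtype.val_injective (fun r => hS r r.2) L
  convert h using 1
  funext o
  rcases o with _ | ⟨i, j | j⟩ <;> rfl

/-- **Algebraic independence** of `e`, `f_0` and the cumulants without the gamma factor -/
theorem nm_alg_all : AlgebraicIndependent ℚ (fun i : {i : I0 // vld i} => nm i.1) := by
  classical
  refine algebraicIndependent_of_finite_type fun t ht => ?_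
  let S : Finset ℚ := ht.toFinset.biUnion fun o => (o.1).elim ∅ (fun p => {p.1})
  have hS : ∀ o ∈ t, ∀ r p, o.1 = some (r, p) → r ∈ S := by
    intro o ho r p h
    refine Finset.mem_biUnion.2 ⟨o, ht.mem_toFinset.2 ho, ?_⟩
    rw [h]; simp
  have hpos : ∀ r ∈ S, 0 < r := by
    intro r hr
    obtain ⟨o, ho, hor⟩ := Finset.mem_biUnion.1 hr
    obtain ⟨o, hv⟩ := o
    rcases o with _ | ⟨r', p⟩
    · simp at hor
    · simp at hor
      rw [hor]; exact hv
  let L : ℕ := ht.toFinset.sup fun o => ord o.1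
  have hL : ∀ o ∈ t, ord o.1 ≤ L := fun o ho => Finset.le_sup (f := fun o : {i : I0 // vld i} => ord o.1) (ht.mem_toFinset.2 ho)
  have hex : ∀ o : t, ∃ o', emI S L o' = o.1.1 := fun o => emI_surj (hS o.1 o.2) (hL o.1 o.2)
  choose f hf using hex
  have hfi : Function.Injective f := by
    intro o o' h
    apply Subtype.ext
    apply Subtype.ext
    rw [← hf, ← hf, h]
  have h := (nm_alg S hpos L).comp f hfi
  convert h using 1
  funext o
  simp only [Function.comp_apply]
  rw [hf]

/-- the counting theorem -/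
theorem count_cum {m : ℕ} (con : Fin m → ℝ) (N : Set ℕ) (hN : 0 ∉ N)
    (hcon : ∀ T : Set ℝ, (∀ i, con i ∈ clF T) → ∀ n ∈ N, cc (n - 1) ∈ clF T) (t : Finset (Fin m ⊕ I0))
    (ht : ∀ k ∈ t, Sum.elim con cm k ∈ clF (nm '' {i | vld i ∧ ord i ∉ N}))
    (hv : ∀ i, Sum.inr i ∈ t → vld i ∧ ord i ∈ N) : t.card ≤ m := by
  classical
  -- finite subsets
  have hfin : ∀ k : t, ∃ F : Finset I0, (∀ i ∈ F, vld i ∧ ord i ∉ N) ∧ Sum.elim con cm k.1 ∈ clF (nm '' (F : Set I0)) := by
    intro k
    obtain ⟨A, hA, hAf, -, hk⟩ := Mt.exists_mem_finite_closure_of_mem_closure (mem_clF'.1 (ht k.1 k.2))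
    obtain ⟨F, hF, hFf, hFA⟩ := (exists_subset_image_finite_and (p := fun A => Sum.elim con cm k.1 ∈ Mt.closure A)).1
      ⟨A, hA, hAf, hk⟩
    refine ⟨hFf.toFinset, fun i hi => hF (hFf.mem_toFinset.1 hi), ?_⟩
    rw [hFf.coe_toFinset]
    exact mem_clF'.2 hFA
  choose F hF1 hF2 using hfin
  -- all indices
  let G : Finset I0 := (Finset.univ.biUnion F) ∪ t.biUnion fun k => Sum.elim (fun _ => ∅) (fun i => {i}) k
  have hG1 : ∀ k : t, ∀ i ∈ F k, i ∈ G := fun k i hi =>
    Finset.mem_union_left _ (Finset.mem_biUnion.2 ⟨k, Finset.mem_univ _, hi⟩)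
  have hG2 : ∀ i, Sum.inr i ∈ t → i ∈ G := fun i hi =>
    Finset.mem_union_right _ (Finset.mem_biUnion.2 ⟨_, hi, by simp⟩)
  have hGv : ∀ i ∈ G, vld i := by
    intro i hi
    rcases Finset.mem_union.1 hi with h | h
    · obtain ⟨k, _, hk⟩ := Finset.mem_biUnion.1 h
      exact (hF1 k i hk).1
    · obtain ⟨k, hk, hki⟩ := Finset.mem_biUnion.1 h
      rcases k with k | k
      · simp at hki
      · simp at hki
        subst hki
        exact (hv i hk).1
  let S : Finset ℚ := G.biUnion fun o => o.elim ∅ (fun p => {p.1})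
  have hS : ∀ o ∈ G, ∀ r p, o = some (r, p) → r ∈ S := by
    intro o ho r p h
    refine Finset.mem_biUnion.2 ⟨o, ho, ?_⟩
    rw [h]; simp
  have hpos : ∀ r ∈ S, 0 < r := by
    intro r hr
    obtain ⟨o, ho, hor⟩ := Finset.mem_biUnion.1 hr
    have hvo := hGv o ho
    rcases o with _ | ⟨r', p⟩
    · simp at hor
    · simp at hor
      rw [hor]; exact hvo
  let L : ℕ := G.sup ord
  have hL : ∀ o ∈ G, ord o ≤ L := fun o ho => Finset.le_sup ho
  have hAI := nm_alg S hpos L
  -- the base and the names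
  let β : Type := {o : Sg' S L // ord (emI S L o) ∉ N}
  let b : β → ℝ := fun o => nm (emI S L o.1)
  let κ : Type := Fin m ⊕ {o : Sg' S L // ord (emI S L o) ∈ N}
  let y : κ → ℝ := Sum.elim con (fun o => cm (emI S L o.1))
  let e : κ → Fin m ⊕ I0 := Sum.map id (fun o => emI S L o.1)
  have he : Function.Injective e :=
    Function.Injective.sumMap Function.injective_id ((emI_inj S L).comp Subtype.val_injective)
  have hy : ∀ k, y k = Sum.elim con cm (e k) := by
    intro k
    rcases k with k | k <;> rfl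
  let t' : Finset κ := t.preimage e he.injOn
  have ht'card : t'.card = t.card := by
    rw [Finset.card_preimage, Finset.filter_true_of_mem]
    intro k hk
    rcases k with k | k
    · exact ⟨Sum.inl k, rfl⟩
    · obtain ⟨o, ho⟩ := emI_surj (hS k (hG2 k hk)) (hL k (hG2 k hk))
      exact ⟨Sum.inr ⟨o, by rw [ho]; exact (hv k hk).2⟩, by simp only [e, Sum.map_inr, ho]⟩
  have key := count_base hAI (y := y) (b := b) t' (fun k hk => ?_) (fun o => ?_)
  · have h1 : Fintype.card β + Fintype.card {o : Sg' S L // ord (emI S L o) ∈ N} = Fintype.card (Sg' S L) := by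
      rw [add_comm]
      have := Fintype.card_subtype_compl (fun o : Sg' S L => ord (emI S L o) ∈ N)
      have h2 := Fintype.card_subtype_le (fun o : Sg' S L => ord (emI S L o) ∈ N)
      show Fintype.card {o : Sg' S L // ord (emI S L o) ∈ N} + Fintype.card {o : Sg' S L // ord (emI S L o) ∉ N} = _
      omega
    have h2 : Fintype.card κ = m + Fintype.card {o : Sg' S L // ord (emI S L o) ∈ N} := by
      show Fintype.card (Fin m ⊕ {o : Sg' S L // ord (emI S L o) ∈ N}) = _
      rw [Fintype.card_sum, Fintype.card_fin]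
    rw [ht'card] at key
    omega
  · have hk' := Finset.mem_preimage.1 hk
    rw [hy]
    refine clF_mono ?_ (hF2 ⟨e k, hk'⟩)
    rintro _ ⟨i, hi, rfl⟩
    have hiG := hG1 _ i hi
    obtain ⟨o, ho⟩ := emI_surj (hS i hiG) (hL i hiG)
    exact ⟨⟨o, by rw [ho]; exact (hF1 _ i hi).2⟩, by simp only [b, ho]⟩
  · by_cases ho : ord (emI S L o) ∈ N
    · have h0 : ord (emI S L o) ≠ 0 := fun h => hN (h ▸ ho)
      rw [nm_cm _ h0]
      refine (clF _).sub_mem (subset_clF _ (Or.inr ⟨Sum.inr ⟨o, ho⟩, rfl⟩)) ((clF _).div_mem ?_ ((clF _).pow_mem ?_ _))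
      · exact hcon _ (fun i => subset_clF _ (Or.inr ⟨Sum.inl i, rfl⟩)) _ ho
      · exact_mod_cast natCast_mem (clF _) 2
    · exact subset_clF _ (Or.inl ⟨⟨o, ho⟩, rfl⟩)

end Pool.Agent.W5h65.GS
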