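import Pool.Agent.W5h65.GS.Count

/-!
# Counting with ratios of cumulants; the limit at `r → 0`
-/

set_option autoImplicit false

open Set Filter Topology

namespace Pool.Agent.W5h65.GS

open Pool.Agent.R352.E (cc zt clF Mt subset_clF clF_mono clF_le card_le mem_clF' of_pow zt_even)

/-- rank in a contraction -/
theorem core {ι : Type*} {x : ι → ℝ} (hx : AlgebraicIndependent ℚ x) (B : Set ι) (W : Finset ι) (hWB : ∀ i ∈ W, i ∉ B)
    (P : Set ℝ) (h : ∀ i ∈ W, x i ∈ clF (x '' B ∪ P)) : (W.card : ℕ∞) ≤ P.encard := by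
  classical
  have hfin : ∀ i : W, ∃ F : Finset ι, (∀ j ∈ F, j ∈ B) ∧ x i ∈ clF (x '' (F : Set ι) ∪ P) := by
    intro i
    obtain ⟨A, hA, hAf, -, hk⟩ := Mt.exists_mem_finite_closure_of_mem_closure (mem_clF'.1 (h i.1 i.2))
    obtain ⟨F, hF, hFf, hFA⟩ := (exists_subset_image_finite_and (p := fun A' => A ∩ x '' B = A')).1
      ⟨A ∩ x '' B, inter_subset_right, hAf.inter_of_left _, rfl⟩
    refine ⟨hFf.toFinset, fun j hj => hF (hFf.mem_toFinset.1 hj), ?_⟩
    refine clF_mono ?_ (mem_clF'.2 hk)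
    intro z hz
    rcases hA hz with hz1 | hz1
    · left
      rw [hFf.coe_toFinset, ← hFA]
      exact ⟨hz, hz1⟩
    · exact Or.inr hz1
  choose F hF1 hF2 using hfin
  let B0 : Finset ι := Finset.univ.biUnion F
  have hB0 : ∀ j ∈ B0, j ∈ B := by
    intro j hj
    obtain ⟨i, _, hi⟩ := Finset.mem_biUnion.1 hj
    exact hF1 i j hi
  have hdis : Disjoint B0 W := by
    rw [Finset.disjoint_left]
    intro j hj hjW
    exact hWB j hjW (hB0 j hj)
  have hV : AlgebraicIndependent ℚ (fun i : (B0 ∪ W : Finset ι) => x i) := hx.comp _ Subtype.val_injective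
  have h1 := card_le hV (T := x '' (B0 : Set ι) ∪ P) (fun i => by
    rcases Finset.mem_union.1 i.2 with hi | hi
    · exact subset_clF _ (Or.inl ⟨i.1, hi, rfl⟩)
    · refine clF_mono ?_ (hF2 ⟨i.1, hi⟩)
      refine union_subset_union_left _ (image_mono ?_)
      intro j hj
      exact Finset.mem_coe.2 (Finset.mem_biUnion.2 ⟨_, Finset.mem_univ _, Finset.mem_coe.1 hj⟩))
  have h2 : (x '' (B0 : Set ι) ∪ P).encard ≤ (B0.card : ℕ∞) + P.encard := by
    refine (encard_union_le _ _).trans ?_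
    rw [← encard_coe_eq_coe_finsetCard]
    exact add_le_add (encard_image_le _ _) le_rfl
  have h3 : ((B0.card : ℕ∞) + (W.card : ℕ∞)) ≤ (B0.card : ℕ∞) + P.encard := by
    have h4 := h1.trans ((Matroid.eRk_le_encard _ _).trans h2)
    rw [Fintype.card_coe, Finset.card_union_of_disjoint hdis] at h4
    exact_mod_cast h4
  exact (ENat.add_le_add_iff_left (ENat.natCast_ne_top _)).1 h3

/-- same family, half the order -/
def half : I0 → I0
  | none => none
  | some (r, Sum.inl j) => some (r, Sum.inl (j / 2))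
  | some (r, Sum.inr j) => some (r, Sum.inr ((j + 1) / 2 - 1))

lemma ord_half {i : I0} {n : ℕ} (hn : 0 < n) (h : ord i = 2 * n) : ord (half i) = n := by
  rcases i with _ | ⟨r, j | j⟩
  · simp only [ord] at h; omega
  · simp only [ord, half] at h ⊢; omega
  · simp only [ord, half] at h ⊢; omega

lemma vld_half {i : I0} (h : vld i) : vld (half i) := by
  rcases i with _ | ⟨r, j | j⟩ <;> exact h

/-- the normalising factor -/
noncomputable def qf (n : ℕ) : ℝ := ((n - 1).factorial : ℝ) ^ 2 / (2 * n - 1).factorial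

lemma qf_ne (n : ℕ) : qf n ≠ 0 := by
  unfold qf
  positivity

/-- the ratio `ζ(2n) / ζ(n)²` -/
noncomputable def tt (n : ℕ) : ℝ := zt (2 * n) / zt n ^ 2

open Classical in
/-- the coordinates: a ratio of cumulants for the orders `2n`, `n ∈ O` -/
noncomputable def yy (O : Set ℕ) (i : I0) : ℝ :=
  if (∃ n ∈ O, ord i = 2 * n) ∧ cm (half i) ≠ 0 then qf (ord i / 2) * (cm i / cm (half i) ^ 2) else cm i

lemma zt_pos {n : ℕ} (hn : 2 ≤ n) : 0 < zt n := by
  have h2 : Summable (fun k : ℕ => 1 / ((k : ℝ) + 1) ^ n) := by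
    have := (summable_nat_add_iff 1).2 (Real.summable_one_div_nat_pow.2 (show 1 < n by omega))
    refine this.congr fun k => ?_
    push_cast
    rfl
  exact h2.tsum_pos (fun k => by positivity) 0 (by norm_num)

lemma zt_two : zt 2 = Real.pi ^ 2 / 6 := by
  have h := hasSum_zeta_two
  have h2 := (hasSum_nat_add_iff' 1).2 h
  simp only [Finset.sum_range_one, Nat.cast_zero] at h2
  rw [zt]
  have h3 : HasSum (fun n : ℕ => 1 / ((n : ℝ) + 1) ^ 2) (Real.pi ^ 2 / 6) := by
    refine hasSum_cg (fun k => ?_) (by simpa using h2)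
    push_cast
    simp
  exact h3.tsum_eq

lemma cc_mem {T : Set ℝ} {m : ℕ} (hm : 2 ≤ m) (h : zt m ∈ clF T) : cc (m - 1) ∈ clF T := by
  obtain ⟨i, rfl⟩ : ∃ i, m = i + 2 := ⟨m - 2, by omega⟩
  have e1 : i + 2 - 1 = i + 1 := by omega
  rw [e1, cc]
  refine (clF T).mul_mem ((clF T).mul_mem ?_ (natCast_mem (clF T) _)) h
  exact (clF T).pow_mem ((clF T).neg_mem (clF T).one_mem) _

theorem count_ratio (O E : Set ℕ) (hO : ∀ n ∈ O, Odd n ∧ 3 ≤ n) (hE : ∀ m ∈ E, Even m ∧ 2 ≤ m)
    (K : Subfield ℝ) (hK : K = clF (nm '' {i | vld i ∧ ord i ∉ O ∪ E}))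
    (s : Finset (Option I0)) (hs : ∀ k ∈ s, Option.elim k (zt 2) (yy O) ∈ K)
    (hv : ∀ i, some i ∈ s → vld i ∧ ord i ∈ O ∪ E) :
    (s.card : ℕ∞) ≤ 1 + {n | n ∈ O ∧ tt n ∉ K}.encard := by
  classical
  set D : Set ℕ := {n | n ∈ O ∧ tt n ∉ K} with hD
  let s' : Finset I0 := Finset.eraseNone s
  have hs' : ∀ i, i ∈ s' ↔ some i ∈ s := fun i => Finset.mem_eraseNone
  let W2 : Finset I0 := (s'.filter (fun i => ∃ n ∈ O, ord i = 2 * n)).image half
  let W : Finset I0 := s' ∪ W2
  have hW2 : ∀ i ∈ W2, vld i ∧ ord i ∈ O := by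
    intro i hi
    obtain ⟨j, hj, rfl⟩ := Finset.mem_image.1 hi
    obtain ⟨hj1, n, hn, hjn⟩ := Finset.mem_filter.1 hj
    refine ⟨vld_half (hv j ((hs' j).1 hj1)).1, ?_⟩
    rw [ord_half (by have := (hO n hn).2; omega) hjn]
    exact hn
  have hWv : ∀ i ∈ W, vld i ∧ ord i ∈ O ∪ E := by
    intro i hi
    rcases Finset.mem_union.1 hi with h | h
    · exact hv i ((hs' i).1 h)
    · exact ⟨(hW2 i h).1, Or.inl (hW2 i h).2⟩
  let C : Set ℝ := if none ∈ s then ∅ else {zt 2}
  let P : Set ℝ := (tt '' D ∪ C) ∪ yy O '' (W \ s' : Finset I0)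
  let T : Set ℝ := nm '' {i | vld i ∧ ord i ∉ O ∪ E} ∪ P
  have hKT : K ≤ clF T := by rw [hK]; exact clF_mono subset_union_left
  have hPT : P ⊆ clF T := fun z hz => subset_clF _ (Or.inr hz)
  have hz2 : zt 2 ∈ clF T := by
    by_cases h : none ∈ s
    · exact hKT (hs none h)
    · refine hPT (Or.inl (Or.inr ?_))
      simp only [C, if_neg h, mem_singleton_iff]
  have hpi : Real.pi ∈ clF T := by
    refine of_pow (n := 2) (by norm_num) ?_
    have e : Real.pi ^ 2 = zt 2 * 6 := by rw [zt_two]; ring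
    rw [e]
    refine (clF T).mul_mem hz2 ?_
    exact_mod_cast natCast_mem (clF T) 6
  have ht : ∀ n ∈ O, tt n ∈ clF T := by
    intro n hn
    by_cases h : tt n ∈ K
    · exact hKT h
    · exact hPT (Or.inl (Or.inl ⟨n, ⟨hn, h⟩, rfl⟩))
  have hzt : ∀ m ∈ O ∪ E, 2 ≤ m ∧ zt m ∈ clF T := by
    rintro m (hm | hm)
    · obtain ⟨-, h3⟩ := hO m hm
      refine ⟨by omega, of_pow (n := 2) (by norm_num) ?_⟩
      have e : zt m ^ 2 = zt (2 * m) / tt m := by
        have h1 := (zt_pos (n := m) (by omega)).ne'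
        have h2 := (zt_pos (n := 2 * m) (by omega)).ne'
        rw [tt]
        field_simp
      rw [e]
      exact (clF T).div_mem (zt_even hpi m (by omega)) (ht m hm)
    · obtain ⟨⟨k, hk⟩, h2⟩ := hE m hm
      refine ⟨h2, ?_⟩
      rw [hk, ← two_mul]
      exact zt_even hpi k (by omega)
  have hcc : ∀ m ∈ O ∪ E, cc (m - 1) ∈ clF T := fun m hm => cc_mem (hzt m hm).1 (hzt m hm).2
  have hy : ∀ i ∈ W, yy O i ∈ clF T := by
    intro i hi
    by_cases h : i ∈ s'
    · exact hKT (hs (some i) ((hs' i).1 h))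
    · exact hPT (Or.inr ⟨i, Finset.mem_coe.2 (Finset.mem_sdiff.2 ⟨hi, h⟩), rfl⟩)
  -- coordinates of order in O are cumulants
  have hyO : ∀ i, ord i ∈ O → yy O i = cm i := by
    intro i hi
    rw [yy, if_neg]
    rintro ⟨⟨n, hn, h⟩, -⟩
    have h1 := (hO _ hi).1
    rw [h] at h1
    exact (Nat.not_odd_iff_even.2 (even_two_mul n)) h1
  have hcm : ∀ i ∈ W, cm i ∈ clF T := by
    intro i hi
    have h1 := hy i hi
    by_cases hc : (∃ n ∈ O, ord i = 2 * n) ∧ cm (half i) ≠ 0
    · rw [yy, if_pos hc] at h1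
      obtain ⟨⟨n, hn, hin⟩, hc0⟩ := hc
      have hn3 := (hO n hn).2
      have hh : ord (half i) = n := ord_half (by omega) hin
      have hiW : half i ∈ W := by
        rcases Finset.mem_union.1 hi with h | h
        · exact Finset.mem_union_right _ (Finset.mem_image.2 ⟨i, Finset.mem_filter.2 ⟨h, n, hn, hin⟩, rfl⟩)
        · exfalso
          have h5 := (hO _ (hW2 i h).2).1
          rw [hin] at h5
          exact (Nat.not_odd_iff_even.2 (even_two_mul n)) h5
      have h2 : cm (half i) ∈ clF T := by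
        rw [← hyO _ (by rw [hh]; exact hn)]
        exact hy _ hiW
      have h3 : ord i / 2 = n := by omega
      rw [h3] at h1
      have e : cm i = qf n * (cm i / cm (half i) ^ 2) / qf n * cm (half i) ^ 2 := by
        have := qf_ne n
        field_simp
      rw [e]
      refine (clF T).mul_mem ((clF T).div_mem h1 ?_) ((clF T).pow_mem h2 _)
      rw [qf]
      exact (clF T).div_mem ((clF T).pow_mem (natCast_mem (clF T) _) _) (natCast_mem (clF T) _)
    · rw [yy, if_neg hc] at h1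
      exact h1
  have hnm : ∀ i ∈ W, nm i ∈ clF T := by
    intro i hi
    have hio := (hWv i hi).2
    have h0 : ord i ≠ 0 := by
      have := (hzt _ hio).1
      omega
    rw [nm_cm _ h0]
    refine (clF T).sub_mem (hcm i hi) ((clF T).div_mem (hcc _ hio) ((clF T).pow_mem ?_ _))
    exact_mod_cast natCast_mem (clF T) 2
  -- the rank inequality
  have hkey := core nm_alg_all {i | ord i.1 ∉ O ∪ E} (W.subtype vld) (fun i hi => by
      have := (hWv i.1 (Finset.mem_subtype.1 hi)).2
      simp only [mem_setOf_eq, not_not]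
      exact this) P (fun i hi => by
      have e : (fun i : {i : I0 // vld i} => nm i.1) '' {i | ord i.1 ∉ O ∪ E} = nm '' {i | vld i ∧ ord i ∉ O ∪ E} := by
        ext z
        constructor
        · rintro ⟨i, hi, rfl⟩
          exact ⟨i.1, ⟨i.2, hi⟩, rfl⟩
        · rintro ⟨i, ⟨hi1, hi2⟩, rfl⟩
          exact ⟨⟨i, hi1⟩, hi2, rfl⟩
      rw [e]
      exact hnm i.1 (Finset.mem_subtype.1 hi))
  have hWcard : (W.subtype vld).card = W.card := by
    rw [Finset.card_subtype, Finset.filter_true_of_mem]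
    exact fun i hi => (hWv i hi).1
  rw [hWcard] at hkey
  have hP : P.encard ≤ D.encard + C.encard + ((W \ s').card : ℕ∞) := by
    refine (encard_union_le _ _).trans (add_le_add ((encard_union_le _ _).trans (add_le_add (encard_image_le _ _) le_rfl)) ?_)
    rw [← encard_coe_eq_coe_finsetCard]
    exact encard_image_le _ _
  have hWs : W.card = (W \ s').card + s'.card :=
    (Finset.card_sdiff_add_card_eq_card (Finset.subset_union_left)).symm
  have h5 : (s'.card : ℕ∞) ≤ D.encard + C.encard := by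
    have h6 := hkey.trans hP
    rw [hWs, add_comm (D.encard + C.encard)] at h6
    push_cast at h6
    exact (ENat.add_le_add_iff_left (ENat.natCast_ne_top _)).1 h6
  by_cases h : none ∈ s
  · have hC : C.encard = 0 := by simp only [C, if_pos h, encard_empty]
    rw [hC, add_zero] at h5
    have h7 : s.card = s'.card + 1 := by
      have := Finset.card_eraseNone_eq_card_erase s
      rw [show s'.card = (s.erase none).card from this, Finset.card_erase_add_one h]
    rw [h7]
    push_cast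
    rw [add_comm]
    exact add_le_add le_rfl h5
  · have hC : C.encard = 1 := by simp only [C, if_neg h, encard_singleton]
    rw [hC] at h5
    have h7 : s.card = s'.card := by
      have := Finset.card_eraseNone_eq_card_erase s
      rw [show s'.card = (s.erase none).card from this, Finset.erase_eq_of_notMem h]
    rw [h7, add_comm]
    exact h5

/-! ## The limit at `r → 0` -/

lemma tail_bound {a : ℕ → ℝ} {C y S : ℝ} (hC : 0 ≤ C) (h : HasSum (fun k => a k * y ^ k) S)
    (hb : ∀ k, |a k| ≤ C ^ k / k.factorial) : |S - a 0| ≤ Real.exp (C * |y|) - 1 := by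
  have h1 := (hasSum_nat_add_iff' 1).2 h
  have h2 : HasSum (fun k : ℕ => (C * |y|) ^ k / k.factorial) (Real.exp (C * |y|)) := by
    have := NormedSpace.expSeries_div_hasSum_exp (C * |y|)
    rwa [← Real.exp_eq_exp_ℝ] at this
  have h3 := (hasSum_nat_add_iff' 1).2 h2
  simp only [Finset.sum_range_one, pow_zero, mul_one, Nat.factorial_zero, Nat.cast_one, div_one] at h1 h3
  refine HasSum.norm_le_of_bounded h1 h3 fun k => ?_
  rw [norm_mul, norm_pow, Real.norm_eq_abs, Real.norm_eq_abs, mul_pow, mul_div_right_comm]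
  exact mul_le_mul_of_nonneg_right (hb _) (by positivity)

lemma exp_tendsto (C : ℝ) : Tendsto (fun r : ℚ => Real.exp (C * |(-(r : ℝ))|) - 1) (𝓝[>] 0) (𝓝 0) := by
  have h : Continuous (fun r : ℚ => Real.exp (C * |(-(r : ℝ))|) - 1) := by
    have : Continuous (fun r : ℚ => (r : ℝ)) := Rat.continuous_coe_real
    fun_prop
  have h2 := h.tendsto 0
  simp only [Rat.cast_zero, neg_zero, abs_zero, mul_zero, Real.exp_zero, sub_self] at h2
  exact h2.mono_left nhdsWithin_le_nhds

lemma Bv_tendsto (j : ℕ) : Tendsto (fun r : ℚ => Bv j (-(r : ℝ))) (𝓝[>] 0) (𝓝 ((bb j 0 : ℚ) : ℝ)) := by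
  rw [tendsto_iff_norm_sub_tendsto_zero]
  refine squeeze_zero (fun r => norm_nonneg _) (fun r => ?_) (exp_tendsto 2)
  exact tail_bound (a := fun k => ((bb j k : ℚ) : ℝ)) (by norm_num) (bb_hasSum j _) (bb_bound j)

lemma Sv_tendsto (j : ℕ) : Tendsto (fun r : ℚ => Pv j (-(r : ℝ)) + (-(r : ℝ)) / 2 * Bv j (-(r : ℝ))) (𝓝[>] 0)
    (𝓝 ((bb j 0 : ℚ) : ℝ)) := by
  rw [tendsto_iff_norm_sub_tendsto_zero]
  refine squeeze_zero (fun r => norm_nonneg _) (fun r => ?_) (exp_tendsto 6)
  have h := tail_bound (a := fun k => (2 * (k : ℝ) + 1) * ((bb j k : ℚ) : ℝ)) (C := 6) (y := -(r : ℝ)) (by norm_num)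
    (hasSum_cg (fun k => by ring) (odd_hasSum j (-(r : ℝ)))) (fun k => ?_)
  · simpa using h
  · have h1 : (2 * (k : ℝ) + 1) ≤ 3 ^ k := by
      have := one_add_mul_le_pow (a := (2 : ℝ)) (by norm_num) k
      norm_num at this
      linarith
    rw [abs_mul, abs_of_nonneg (by positivity : (0 : ℝ) ≤ 2 * k + 1)]
    calc (2 * (k : ℝ) + 1) * |((bb j k : ℚ) : ℝ)| ≤ 3 ^ k * (2 ^ k / k.factorial) :=
          mul_le_mul h1 (bb_bound j k) (by positivity) (by positivity)
      _ = 6 ^ k / k.factorial := by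
          have : (6 : ℝ) ^ k = 3 ^ k * 2 ^ k := by rw [← mul_pow]; norm_num
          rw [this]; ring

open PowerSeries Finset.HasAntidiagonal in
lemma coeff_tendsto {α : Type*} {l : Filter α} {Q K : α → PowerSeries ℝ}
    (h : ∀ᶠ a in l, PowerSeries.derivative ℝ (Q a) = Q a * K a)
    (h0 : Tendsto (fun a => PowerSeries.coeff 0 (Q a)) l (𝓝 1))
    (hQ : ∀ n, Tendsto (fun a => PowerSeries.coeff (n + 1) (Q a)) l (𝓝 0)) (n : ℕ) :
    Tendsto (fun a => PowerSeries.coeff n (K a)) l (𝓝 0) := by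
  induction n using Nat.strong_induction_on with
  | _ n ih =>
    have h1 : Tendsto (fun a => (PowerSeries.coeff (n + 1) (Q a) * ((n : ℝ) + 1) -
        ∑ p ∈ (antidiagonal n).erase (0, n), PowerSeries.coeff p.1 (Q a) * PowerSeries.coeff p.2 (K a)) /
          PowerSeries.coeff 0 (Q a)) l (𝓝 ((0 * ((n : ℝ) + 1) - ∑ p ∈ (antidiagonal n).erase (0, n), (0 : ℝ)) / 1)) := by
      refine (((hQ n).mul_const _).sub (tendsto_finsetSum _ fun p hp => ?_)).div h0 one_ne_zero
      obtain ⟨hp1, hp2⟩ := Finset.mem_erase.1 hp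
      have hp3 := Finset.HasAntidiagonal.mem_antidiagonal.1 hp2
      have hp4 : p.1 ≠ 0 := by
        intro hp0
        apply hp1
        ext
        · exact hp0
        · simp only; omega
      obtain ⟨m, hm⟩ := Nat.exists_eq_succ_of_ne_zero hp4
      have := (hQ m).mul (ih p.2 (by omega))
      rw [hm]
      simpa using this
    simp only [zero_mul, Finset.sum_const_zero, sub_zero, zero_div] at h1
    refine h1.congr' ?_
    filter_upwards [h, h0.eventually_ne one_ne_zero] with a ha ha0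
    have h2 := congrArg (PowerSeries.coeff n) ha
    rw [PowerSeries.coeff_derivative, PowerSeries.coeff_mul, ← Finset.add_sum_erase _ _
      (show (0, n) ∈ antidiagonal n from Finset.HasAntidiagonal.mem_antidiagonal.2 (by simp))] at h2
    rw [h2]
    field_simp
    ring

lemma ev_pos : ∀ᶠ r : ℚ in 𝓝[>] 0, 0 < r := by
  filter_upwards [self_mem_nhdsWithin] with r hr using hr

lemma bb_succ_zero (j : ℕ) : bb (j + 1) 0 = 0 := by rw [bb_zero]; simp
lemma bb_zero_zero : bb 0 0 = 1 := by rw [bb_zero]; simp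

theorem rkS_tendsto (n : ℕ) : Tendsto (fun r : ℚ => rk (gS (√(r : ℝ))) n) (𝓝[>] 0) (𝓝 0) := by
  have h := coeff_tendsto (l := 𝓝[>] (0 : ℚ)) (Q := fun r => PBv (√(r : ℝ)))
    (K := fun r => PK (gS (√(r : ℝ))) - PH) ?_ ?_ ?_ n
  · simp only [coeff_rk] at h
    have h2 := h.mul_const (n.factorial : ℝ)
    rw [zero_mul] at h2
    refine h2.congr fun r => ?_
    have : (n.factorial : ℝ) ≠ 0 := by positivity
    field_simp
  · filter_upwards [ev_pos] with r hr
    exact cancel (div_ne_zero (sqrt_pos' hr).ne' (by norm_num)) (PM_gS (Real.sqrt_nonneg _)) (dPM (gS_nice _) (S0_ne hr))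
  · have h2 := Bv_tendsto 0
    rw [bb_zero_zero, Rat.cast_one] at h2
    refine h2.congr' ?_
    filter_upwards [ev_pos] with r hr
    rw [PBv, PowerSeries.coeff_mk, sq_sqrt' hr]
  · intro j
    have h2 := Bv_tendsto (j + 1)
    rw [bb_succ_zero, Rat.cast_zero] at h2
    refine h2.congr' ?_
    filter_upwards [ev_pos] with r hr
    rw [PBv, PowerSeries.coeff_mk, sq_sqrt' hr]

theorem rkC_tendsto (n : ℕ) : Tendsto (fun r : ℚ => rk (gC (√(r : ℝ))) n) (𝓝[>] 0) (𝓝 0) := by
  have h := coeff_tendsto (l := 𝓝[>] (0 : ℚ)) (Q := fun r => PSv (√(r : ℝ)))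
    (K := fun r => PK (gC (√(r : ℝ))) - PH) ?_ ?_ ?_ n
  · simp only [coeff_rk] at h
    have h2 := h.mul_const (n.factorial : ℝ)
    rw [zero_mul] at h2
    refine h2.congr fun r => ?_
    have : (n.factorial : ℝ) ≠ 0 := by positivity
    field_simp
  · filter_upwards [ev_pos] with r hr
    exact cancel (by norm_num) (PM_gC (Real.sqrt_nonneg _)) (dPM (gC_nice _) (C0_ne hr))
  · have h2 := Sv_tendsto 0
    rw [bb_zero_zero, Rat.cast_one] at h2
    refine h2.congr' ?_
    filter_upwards [ev_pos] with r hr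
    rw [PSv, PowerSeries.coeff_mk, sq_sqrt' hr]
    ring
  · intro j
    have h2 := Sv_tendsto (j + 1)
    rw [bb_succ_zero, Rat.cast_zero] at h2
    refine h2.congr' ?_
    filter_upwards [ev_pos] with r hr
    rw [PSv, PowerSeries.coeff_mk, sq_sqrt' hr]
    ring

end Pool.Agent.W5h65.GS
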