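import Pool.Agent.R352.E.Val

/-!
# Algebraic independence of values of E-functions satisfying a linear system
-/

set_option autoImplicit false
set_option linter.unusedSectionVars false
set_option linter.unusedSimpArgs false

open PowerSeries

namespace Pool.Agent.W5h65.GS

open Pool.Agent.Y113 hiding mon
open Pool.Agent.R352.E

section

variable {σ : Type} [Fintype σ]

/-- a family of E-functions with an inhomogeneous linear differential system with singularity at `0` only -/
structure LSys (q : ℕ) (f : σ → ℚ⟦X⟧) : Prop where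
  hq : 1 ≤ q
  hE : ∀ i, EF (f i)
  der : ∀ i, ∃ (c : Polynomial ℤ) (b : σ → Polynomial ℤ),
    (TQ q : ℚ⟦X⟧) * d⁄dX ℚ (f i) = ps c + ∑ j, ps (b j) * f j

variable {q : ℕ} {f : σ → ℚ⟦X⟧}

lemma aeval_D (P : MvPolynomial σ ℚ) : (TQ q : ℚ⟦X⟧) * d⁄dX ℚ (MvPolynomial.aeval f P) =
    ∑ i, MvPolynomial.aeval f (MvPolynomial.pderiv i P) * ((TQ q : ℚ⟦X⟧) * d⁄dX ℚ (f i)) := by
  classical
  induction P using MvPolynomial.induction_on with
  | C a =>
    rw [MvPolynomial.aeval_C]
    simp
  | add P Q hP hQ =>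
    simp only [map_add, mul_add, add_mul, Finset.sum_add_distrib, hP, hQ]
  | mul_X P i hP =>
    simp only [map_mul, MvPolynomial.aeval_X, Derivation.leibniz, smul_eq_mul, map_add, MvPolynomial.pderiv_X,
      add_mul, Finset.sum_add_distrib]
    have h1 : ∑ j, MvPolynomial.aeval f P * MvPolynomial.aeval f (Pi.single (M := fun _ => MvPolynomial σ ℚ) j 1 i) *
        ((TQ q : ℚ⟦X⟧) * d⁄dX ℚ (f j)) = MvPolynomial.aeval f P * ((TQ q : ℚ⟦X⟧) * d⁄dX ℚ (f i)) := by
      rw [Finset.sum_eq_single i]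
      · simp
      · intro j _ hj
        rw [Pi.single_eq_of_ne hj.symm]; simp
      · intro h; exact absurd (Finset.mem_univ _) h
    rw [h1]
    have h2 : ∑ j, f i * MvPolynomial.aeval f (MvPolynomial.pderiv j P) * ((TQ q : ℚ⟦X⟧) * d⁄dX ℚ (f j)) =
        f i * ((TQ q : ℚ⟦X⟧) * d⁄dX ℚ (MvPolynomial.aeval f P)) := by
      rw [hP, Finset.mul_sum]
      exact Finset.sum_congr rfl fun j _ => by ring
    rw [h2]
    ring

/-- monomials of degree at most `d` -/
abbrev DI (σ : Type) [Fintype σ] (d : ℕ) : Type := {s : σ →₀ ℕ // ∑ i, s i ≤ d}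

instance (d : ℕ) : Finite (DI σ d) := by
  classical
  have h1 : {s : σ →₀ ℕ | ∑ i, s i ≤ d}.Finite := by
    apply (Set.finite_Iic (Finsupp.equivFunOnFinite.symm (fun _ => d) : σ →₀ ℕ)).subset
    intro s hs i
    rw [Finsupp.equivFunOnFinite_symm_apply_apply]
    have h2 : s i ≤ ∑ v, s v := Finset.single_le_sum (f := fun v => s v) (fun _ _ => Nat.zero_le _) (Finset.mem_univ i)
    exact h2.trans hs
  exact h1.to_subtype

lemma mon_eq' (s : σ →₀ ℕ) : mon f s = ∏ i, f i ^ s i := by
  rw [mon, MvPolynomial.aeval_monomial, map_one, one_mul, Finsupp.prod_fintype]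
  intro i; rw [pow_zero]

lemma mon_add' (s s' : σ →₀ ℕ) : mon f (s + s') = mon f s * mon f s' := by
  rw [mon, mon, mon, ← map_mul, MvPolynomial.monomial_mul, one_mul]

lemma mon_single' (i : σ) (n : ℕ) : mon f (Finsupp.single i n) = f i ^ n := by
  rw [mon, MvPolynomial.aeval_monomial, map_one, one_mul, Finsupp.prod_single_index]
  rw [pow_zero]

lemma EF_mon' (R : LSys q f) (s : σ →₀ ℕ) : EF (mon f s) := by
  rw [mon_eq']
  exact EF.prod _ _ fun i _ => (R.hE i).pow _

/-- the derivative of a monomial -/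
lemma deriv_mon' (s : σ →₀ ℕ) : (TQ q : ℚ⟦X⟧) * d⁄dX ℚ (mon f s) =
    ∑ i, (if s i = 0 then 0 else ps (Polynomial.C (s i : ℤ)) *
      (mon f (s - Finsupp.single i 1) * ((TQ q : ℚ⟦X⟧) * d⁄dX ℚ (f i)))) := by
  rw [mon, aeval_D]
  refine Finset.sum_congr rfl fun i _ => ?_
  rw [MvPolynomial.pderiv_monomial]
  split_ifs with h0
  · rw [h0]; simp
  · have h2 : MvPolynomial.monomial (s - Finsupp.single i 1) ((1 : ℚ) * (s i : ℚ)) =
        MvPolynomial.C (s i : ℚ) * MvPolynomial.monomial (s - Finsupp.single i 1) (1 : ℚ) := by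
      rw [MvPolynomial.C_mul_monomial, one_mul, mul_one]
    rw [h2, map_mul, MvPolynomial.aeval_C, ps_C, mon, map_natCast]
    push_cast
    ring

/-- the monomials of bounded degree form a differential system -/
theorem deriv_Sp' (R : LSys q f) {d : ℕ} [Fintype (DI σ d)] (s : DI σ d) :
    Sp (fun s : DI σ d => mon f s.1) ((TQ q : ℚ⟦X⟧) * d⁄dX ℚ (mon f s.1)) := by
  classical
  obtain ⟨s, hs⟩ := s
  simp only
  rw [deriv_mon']
  have hmem : ∀ s' : σ →₀ ℕ, ∑ i, s' i ≤ d → Sp (fun s : DI σ d => mon f s.1) (mon f s') := fun s' h1 =>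
    Sp.mem (y := fun s : DI σ d => mon f s.1) (⟨s', h1⟩ : DI σ d)
  refine Sp.sum _ _ fun i _ => ?_
  split_ifs with h0
  · exact Sp.zero
  apply Sp.mul
  have hsum : ∑ v, (s - Finsupp.single i 1 : σ →₀ ℕ) v + 1 = ∑ v, s v := by
    rw [← Finset.add_sum_erase _ _ (Finset.mem_univ i), ← Finset.add_sum_erase _ (fun v => s v) (Finset.mem_univ i)]
    have h1 : ∑ x ∈ Finset.univ.erase i, (s - Finsupp.single i 1 : σ →₀ ℕ) x = ∑ x ∈ Finset.univ.erase i, s x := by
      refine Finset.sum_congr rfl fun x hx => ?_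
      rw [Finsupp.tsub_apply, Finsupp.single_apply, if_neg (Finset.mem_erase.1 hx).1.symm, Nat.sub_zero]
    rw [h1, Finsupp.tsub_apply, Finsupp.single_eq_same]
    have h0' : s i ≠ 0 := h0
    omega
  obtain ⟨c, b, hcb⟩ := R.der i
  rw [hcb, mul_add, Finset.mul_sum]
  refine Sp.add ?_ (Sp.sum _ _ fun j _ => ?_)
  · rw [mul_comm]
    exact (hmem _ (by omega)).mul _
  · have e1 : mon f (s - Finsupp.single i 1) * (ps (b j) * f j) =
        ps (b j) * mon f (Finsupp.single j 1 + (s - Finsupp.single i 1)) := by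
      rw [mon_add', mon_single', pow_one]; ring
    rw [e1]
    refine (hmem _ ?_).mul _
    have h2 : ∑ v, (Finsupp.single j 1 + (s - Finsupp.single i 1) : σ →₀ ℕ) v =
        1 + ∑ v, (s - Finsupp.single i 1 : σ →₀ ℕ) v := by
      simp only [Finsupp.add_apply, Finset.sum_add_distrib]
      congr 1
      rw [Finset.sum_eq_single j]
      · simp
      · intro x _ hx; rw [Finsupp.single_apply, if_neg hx.symm]
      · intro h; exact absurd (Finset.mem_univ _) h
    rw [h2]
    omega

/-- linear independence over `ℚ` of the values at `1` of the monomials -/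
theorem val_LI' (R : LSys q f) (hLI : LinearIndependent (Polynomial ℚ) (fun s : σ →₀ ℕ => mon f s)) {d : ℕ}
    [Fintype (DI σ d)] : LinearIndependent ℚ (fun s : DI σ d => ev 1 (mon f s.1)) := by
  classical
  let e : Fin (Fintype.card (DI σ d)) ≃ DI σ d := (Fintype.equivFin _).symm
  set y : Fin (Fintype.card (DI σ d)) → ℚ⟦X⟧ := fun i => mon f (e i).1 with hy
  obtain ⟨C, hC, h1, h2⟩ := EF.common (y := y) (fun i => EF_mon' R (e i).1)
  have hSys : ESys q C y :=
    { one_le := hC
      hq := R.hq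
      size := h1
      den := h2
      der := by
        have h3 := fun i => deriv_Sp' R (e i)
        choose B hB using h3
        refine ⟨fun i j => B i (e j), fun i => ?_⟩
        rw [hy, hB i, ← Equiv.sum_comp e] }
  have h0 : e (e.symm ⟨0, by simp⟩) = (⟨0, by simp⟩ : DI σ d) := e.apply_symm_apply _
  have h3 := E_lin hSys (e.symm ⟨0, by simp⟩) (by
    rw [hy]
    simp only [h0]
    rw [mon_eq']; simp) (hLI.comp (fun i => (e i).1) (Subtype.val_injective.comp e.injective))
  have h4 := h3.comp e.symm e.symm.injective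
  convert h4 using 1
  funext s
  simp only [Function.comp_apply, hy, Equiv.apply_symm_apply]

lemma ev_mon' (R : LSys q f) (s : σ →₀ ℕ) : ev 1 (mon f s) = ∏ i, ev 1 (f i) ^ s i := by
  rw [mon_eq', Cv.ev_prod one_pos _ _ (fun i _ => (R.hE i).cv.pow one_pos _)]
  exact Finset.prod_congr rfl fun i _ => (R.hE i).cv.ev_pow one_pos _

/-- **Siegel–Shidlovskii**: algebraic independence of the values at `1` -/
theorem val_alg' (R : LSys q f) (hLI : LinearIndependent (Polynomial ℚ) (fun s : σ →₀ ℕ => mon f s)) :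
    AlgebraicIndependent ℚ (fun i : σ => ev 1 (f i)) := by
  classical
  rw [algebraicIndependent_iff]
  intro p hval
  set d : ℕ := ∑ s ∈ p.support, ∑ i, s i with hd
  let _ : Fintype (DI σ d) := Fintype.ofFinite _
  have hmem : ∀ s ∈ p.support, ∑ i, s i ≤ d := by
    intro s hs
    rw [hd]
    exact Finset.single_le_sum (f := fun s : σ →₀ ℕ => ∑ i, s i) (fun _ _ => Nat.zero_le _) hs
  have hLI := Fintype.linearIndependent_iff.1 (val_LI' R hLI (d := d))
    (fun s => MvPolynomial.coeff s.1 p) (by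
      have h1 : ∑ s : DI σ d, MvPolynomial.coeff s.1 p • ev 1 (mon f s.1) =
          ∑ s ∈ (Finset.univ : Finset (DI σ d)).map ⟨Subtype.val, Subtype.val_injective⟩,
            MvPolynomial.coeff s p • ev 1 (mon f s) := by
        rw [Finset.sum_map]; rfl
      rw [h1, ← hval]
      have h2 : p.support ⊆ (Finset.univ : Finset (DI σ d)).map ⟨Subtype.val, Subtype.val_injective⟩ := by
        intro s hs
        rw [Finset.mem_map]
        exact ⟨⟨s, hmem s hs⟩, Finset.mem_univ _, rfl⟩
      rw [← Finset.sum_subset h2 (fun s _ hs => by rw [MvPolynomial.notMem_support_iff.1 hs, zero_smul])]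
      conv_rhs => rw [MvPolynomial.as_sum p, map_sum]
      refine Finset.sum_congr rfl fun s _ => ?_
      rw [MvPolynomial.aeval_monomial, ev_mon' R, Finsupp.prod_fintype _ _ (fun i => pow_zero _), Algebra.smul_def])
  ext s
  rw [MvPolynomial.coeff_zero]
  by_cases hs : s ∈ p.support
  · exact hLI ⟨s, hmem s hs⟩
  · exact MvPolynomial.notMem_support_iff.1 hs

end

end Pool.Agent.W5h65.GS
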