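import Pool.Agent.W5h65.GS.Ind
import Pool.Agent.W5h65.GS.Val
import Pool.Agent.R352.E.Cnt

/-!
# Algebraic independence of the values of the series `B_j` and `p_j`
-/

set_option autoImplicit false
set_option linter.unusedSectionVars false

open PowerSeries

namespace Pool.Agent.W5h65.GS

open Pool.Agent.Y113 hiding mon EE
open Pool.Agent.R352.E

section

variable {ι : Type} [Fintype ι] [DecidableEq ι] (q : ℕ) (m : ι → ℕ) (L : ℕ)

/-- the finite index type -/
abbrev Sg' (ι : Type) (L : ℕ) : Type := Option (ι × (Fin (L + 1) ⊕ Fin L))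

/-- the embedding in the infinite index type -/
def emb : Sg' ι L → Option (Va ι) := Option.map (Prod.map id (Sum.map Fin.val Fin.val))

lemma emb_inj : Function.Injective (emb (ι := ι) L) :=
  Option.map_injective (Function.Injective.prodMap Function.injective_id
    (Function.Injective.sumMap Fin.val_injective Fin.val_injective))

/-- the finite family -/
noncomputable def fs : Sg' ι L → ℚ⟦X⟧ := ff q m ∘ emb L

lemma mon_fs (s : Sg' ι L →₀ ℕ) : mon (fs q m L) s = mon (ff q m) (s.mapDomain (emb L)) := by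
  rw [mon, mon, ← MvPolynomial.rename_monomial, MvPolynomial.aeval_rename]
  rfl

theorem fs_LI (hq : 1 ≤ q) (hinj : Function.Injective m) (hpos : ∀ i, 1 ≤ m i) :
    LinearIndependent (Polynomial ℚ) (fun s : Sg' ι L →₀ ℕ => mon (fs q m L) s) := by
  have h := (mon_indep q m hq hinj hpos).comp (Finsupp.mapDomain (emb L)) (Finsupp.mapDomain_injective (emb_inj L))
  convert h using 1
  funext s
  exact mon_fs q m L s

lemma sum_single' {σ : Type} [Fintype σ] [DecidableEq σ] (f : σ → ℚ⟦X⟧) (i : σ) (P : Polynomial ℤ) :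
    ∑ j, ps (if j = i then P else 0) * f j = ps P * f i := by
  rw [Finset.sum_eq_single i]
  · simp
  · intro j _ hj
    rw [if_neg hj, ps_zero, zero_mul]
  · intro h; exact absurd (Finset.mem_univ _) h

lemma fs_sys (h : ℕ) (hh : 1 ≤ h) : LSys (2 * h) (fs (2 * h) m L) where
  hq := by omega
  hE := by
    rintro (_ | ⟨i, j | j⟩)
    · exact EF_wS _ (by omega)
    · exact EF_BS (m i) (2 * h) j (by omega)
    · exact EF_PS (m i) (2 * h) j (by omega)
  der := by
    classical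
    have hh0 : ((2 * h : ℕ) : ℚ) ≠ 0 := by exact_mod_cast (by omega : 2 * h ≠ 0)
    have hc : ∀ i, C ((2 * h : ℕ) : ℚ) * C (-(4 * m i / ((2 * h : ℕ) : ℚ)) / 4 : ℚ) = -(C (m i : ℚ) : ℚ⟦X⟧) := by
      intro i
      rw [← map_mul, ← map_neg]
      congr 1
      field_simp
    have h2 : (C ((2 * h : ℕ) : ℚ) : ℚ⟦X⟧) * C (1 / 2) = C (h : ℚ) := by
      rw [← map_mul]; congr 1; push_cast; ring
    have hTQ : (TQ (2 * h) : ℚ⟦X⟧) = C ((2 * h : ℕ) : ℚ) * X := by
      rw [TQ_eq]
      have h3 : (C 2 : ℚ⟦X⟧) = 2 := map_ofNat C 2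
      push_cast
      rw [map_mul, h3, map_natCast]
    rintro (_ | ⟨i, j | j⟩)
    · refine ⟨0, fun s => if s = none then -Polynomial.X else 0, ?_⟩
      rw [sum_single', ps_zero, zero_add]
      show (TQ (2 * h) : ℚ⟦X⟧) * d⁄dX ℚ (wS (2 * h)) = ps (-Polynomial.X) * wS (2 * h)
      rw [deriv_wS (by omega)]
      have : ps (-Polynomial.X) = -X := by
        have h1 : (-Polynomial.X : Polynomial ℤ) = Polynomial.C (-1) * Polynomial.X := by simp
        rw [h1, ps_mul, ps_C, ps_X]; simp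
      rw [this]; ring
    · -- `B_j`
      have key : (TQ (2 * h) : ℚ⟦X⟧) * d⁄dX ℚ (BS (-(4 * m i / ((2 * h : ℕ) : ℚ))) j) =
          ps (-(Polynomial.C (m i : ℤ) * Polynomial.X) - Polynomial.C (h : ℤ)) * BS (-(4 * m i / ((2 * h : ℕ) : ℚ))) j +
            ps (Polynomial.C (h : ℤ)) * PS (-(4 * m i / ((2 * h : ℕ) : ℚ))) j := by
        have e1 : ps (-(Polynomial.C (m i : ℤ) * Polynomial.X) - Polynomial.C (h : ℤ)) = -(C (m i : ℚ) * X) - C (h : ℚ) := by
          have h1 : (-(Polynomial.C (m i : ℤ) * Polynomial.X) - Polynomial.C (h : ℤ) : Polynomial ℤ) =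
            Polynomial.C (-(m i : ℤ)) * Polynomial.X + Polynomial.C (-(h : ℤ)) := by
              simp only [Polynomial.C_neg]; ring
          rw [h1, ps_add, ps_mul, ps_C, ps_C, ps_X]
          simp
          ring
        have e2 : ps (Polynomial.C (h : ℤ)) = C (h : ℚ) := by rw [ps_C]; simp
        rw [e1, e2, hTQ, mul_assoc, deriv_BS]
        linear_combination (X * BS (-(4 * m i / ((2 * h : ℕ) : ℚ))) j) * hc i +
          (PS (-(4 * m i / ((2 * h : ℕ) : ℚ))) j - BS (-(4 * m i / ((2 * h : ℕ) : ℚ))) j) * h2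
      rcases j with ⟨j, hj⟩
      cases j with
      | zero =>
        refine ⟨Polynomial.C (h : ℤ), fun s => if s = some (i, Sum.inl ⟨0, hj⟩) then
          (-(Polynomial.C (m i : ℤ) * Polynomial.X) - Polynomial.C (h : ℤ)) else 0, ?_⟩
        rw [sum_single']
        show (TQ (2 * h) : ℚ⟦X⟧) * d⁄dX ℚ (BS (-(4 * m i / ((2 * h : ℕ) : ℚ))) 0) = _
        rw [key]
        show _ = _ + _ * BS (-(4 * m i / ((2 * h : ℕ) : ℚ))) 0
        simp only [PS, mul_one]
        ring
      | succ j =>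
        refine ⟨0, fun s => (if s = some (i, Sum.inl ⟨j + 1, hj⟩) then
          (-(Polynomial.C (m i : ℤ) * Polynomial.X) - Polynomial.C (h : ℤ)) else 0) +
          (if s = some (i, Sum.inr ⟨j, by omega⟩) then Polynomial.C (h : ℤ) else 0), ?_⟩
        simp only [ps_add, add_mul, Finset.sum_add_distrib]
        rw [sum_single', sum_single', ps_zero, zero_add]
        exact key
    · -- `p_{j+1}`
      refine ⟨0, fun s => if s = some (i, Sum.inl ⟨j, by omega⟩) then -(Polynomial.C (m i : ℤ) * Polynomial.X) else 0, ?_⟩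
      rw [sum_single', ps_zero, zero_add]
      show (TQ (2 * h) : ℚ⟦X⟧) * d⁄dX ℚ (PS (-(4 * m i / ((2 * h : ℕ) : ℚ))) (j + 1)) =
        _ * BS (-(4 * m i / ((2 * h : ℕ) : ℚ))) j
      have e1 : ps (-(Polynomial.C (m i : ℤ) * Polynomial.X)) = -(C (m i : ℚ) * X) := by
        have h1 : (-(Polynomial.C (m i : ℤ) * Polynomial.X) : Polynomial ℤ) =
          Polynomial.C (-(m i : ℤ)) * Polynomial.X := by simp
        rw [h1, ps_mul, ps_C, ps_X]
        simp
      rw [e1, hTQ, deriv_PS]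
      linear_combination (X * BS (-(4 * m i / ((2 * h : ℕ) : ℚ))) j) * hc i

/-- the function `B_j` -/
noncomputable def Bv (j : ℕ) (y : ℝ) : ℝ := ∑' k : ℕ, ((bb j k : ℚ) : ℝ) * y ^ k

/-- the coefficients of `p_j` -/
def pc : ℕ → ℕ → ℚ
  | 0, 0 => 1
  | 0, (_ + 1) => 0
  | (_ + 1), 0 => 0
  | (j + 1), (k + 1) => bb j k / (4 * ((k : ℚ) + 1))

/-- the function `p_j` -/
noncomputable def Pv (j : ℕ) (y : ℝ) : ℝ := ∑' k : ℕ, ((pc j k : ℚ) : ℝ) * y ^ k

lemma ev_BS (c : ℚ) (j : ℕ) : ev 1 (BS c j) = Bv j c := by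
  rw [ev, Bv]
  refine tsum_congr fun k => ?_
  rw [coeff_BS]
  push_cast
  simp

lemma ev_PS (c : ℚ) (j : ℕ) : ev 1 (PS c (j + 1)) = Pv (j + 1) c := by
  rw [ev, Pv]
  refine tsum_congr fun k => ?_
  cases k with
  | zero => rw [coeff_PS_zero]; simp [pc]
  | succ k =>
    rw [coeff_PS_succ, pc]
    push_cast
    simp

/-- algebraic independence, integral form -/
theorem BP_alg (h : ℕ) (hh : 1 ≤ h) (hinj : Function.Injective m) (hpos : ∀ i, 1 ≤ m i) :
    AlgebraicIndependent ℚ (fun o : Sg' ι L => o.elim (Real.exp (-1 / (2 * h : ℕ)))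
      (fun p => Sum.elim (fun j : Fin (L + 1) => Bv j (-(4 * m p.1 / ((2 * h : ℕ) : ℚ)) : ℚ))
        (fun j : Fin L => Pv (j + 1) (-(4 * m p.1 / ((2 * h : ℕ) : ℚ)) : ℚ)) p.2)) := by
  have h1 := val_alg' (fs_sys m L h hh) (fs_LI (2 * h) m L (by omega) hinj hpos)
  convert h1 using 1
  funext o
  rcases o with _ | ⟨i, j | j⟩
  · show Real.exp (-1 / (2 * h : ℕ)) = ev 1 (wS (2 * h))
    rw [ev_wS]
  · show Bv j _ = ev 1 (BS _ j)
    rw [ev_BS]
    rfl
  · show Pv (j + 1) _ = ev 1 (PS _ (j + 1))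
    rw [ev_PS]
    rfl

/-- **Algebraic independence** of `e` and the values of `B_j` and `p_j` -/
theorem BP_alg_Q (r : ι → ℚ) (hinj : Function.Injective r) (hpos : ∀ i, 0 < r i) :
    AlgebraicIndependent ℚ (fun o : Sg' ι L => o.elim (Real.exp 1)
      (fun p => Sum.elim (fun j : Fin (L + 1) => Bv j (-(r p.1 : ℝ))) (fun j : Fin L => Pv (j + 1) (-(r p.1 : ℝ))) p.2)) := by
  set N : ℕ := ∏ i, (r i).den with hqd
  have hN : 1 ≤ N := Nat.one_le_iff_ne_zero.2 (Finset.prod_ne_zero_iff.2 fun i _ => (r i).den_ne_zero)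
  have hm : ∀ i, ∃ m : ℕ, 1 ≤ m ∧ (m : ℚ) / N = r i := by
    intro i
    obtain ⟨c, hc⟩ := Finset.dvd_prod_of_mem (fun i => (r i).den) (Finset.mem_univ i)
    have hc' : N = (r i).den * c := hc
    have hnum : 0 < (r i).num := Rat.num_pos.2 (hpos i)
    have hc0 : c ≠ 0 := by
      rintro rfl
      rw [mul_zero] at hc'
      omega
    refine ⟨(r i).num.toNat * c, ?_, ?_⟩
    · have h1 : 1 ≤ (r i).num.toNat := by omega
      exact Nat.one_le_iff_ne_zero.2 (Nat.mul_ne_zero (by omega) hc0)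
    · have h2 : (((r i).num.toNat : ℕ) : ℚ) = ((r i).num : ℚ) := by
        have : (((r i).num.toNat : ℕ) : ℤ) = (r i).num := Int.toNat_of_nonneg hnum.le
        exact_mod_cast this
      have h3 : (r i : ℚ) = ((r i).num : ℚ) / ((r i).den : ℚ) := (Rat.num_div_den (r i)).symm
      rw [hc']
      conv_rhs => rw [h3]
      push_cast
      rw [h2]
      have : ((r i).den : ℚ) ≠ 0 := by exact_mod_cast (r i).den_ne_zero
      have : (c : ℚ) ≠ 0 := by exact_mod_cast hc0
      field_simp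
  choose mm hmm using hm
  have hinj' : Function.Injective mm := by
    intro i j hij
    apply hinj
    rw [← (hmm i).2, ← (hmm j).2, hij]
  have h := BP_alg mm L (2 * N) (by omega) hinj' (fun i => (hmm i).1)
  have hNq : (N : ℚ) ≠ 0 := by exact_mod_cast (by omega : N ≠ 0)
  have harg : ∀ i, ((-(4 * mm i / ((2 * (2 * N) : ℕ) : ℚ)) : ℚ) : ℝ) = -(r i : ℝ) := by
    intro i
    have h1 : (-(4 * mm i / ((2 * (2 * N) : ℕ) : ℚ)) : ℚ) = -(r i) := by
      rw [← (hmm i).2]
      push_cast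
      field_simp
      ring
    rw [h1]; push_cast; rfl
  simp only [harg] at h
  refine indep_of_span h (fun o => ?_) le_rfl
  rcases o with _ | p
  · simp only [Option.elim]
    refine of_pow (n := 2 * (2 * N)) (by omega) ?_
    rw [← Real.exp_nat_mul]
    have h1 : ((2 * (2 * N) : ℕ) : ℝ) * (-1 / (2 * (2 * N) : ℕ)) = -1 := by
      have : ((2 * (2 * N) : ℕ) : ℝ) ≠ 0 := by exact_mod_cast (by omega : 2 * (2 * N) ≠ 0)
      field_simp
    rw [h1, Real.exp_neg]
    refine (clF _).inv_mem (subset_clF _ ⟨none, rfl⟩)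
  · exact subset_clF _ ⟨some p, rfl⟩

end

end Pool.Agent.W5h65.GS
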