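import Pool.Agent.W5h65.GS.Der

/-!
# The cumulants in terms of the functions `B_j` and `p_j`
-/

set_option autoImplicit false

open PowerSeries Finset.HasAntidiagonal

namespace Pool.Agent.W5h65.GS

open Pool.Agent.R352.E (mo mo0 mo_rec cc clF of_pow subset_clF rat_mem PA PC dPA indep_of_span)

/-- generating series of moments and cumulants -/
noncomputable def PM (g : ℝ → ℝ) : ℝ⟦X⟧ := PowerSeries.mk fun n => FI g n 0 / n.factorial
noncomputable def PK (g : ℝ → ℝ) : ℝ⟦X⟧ := PowerSeries.mk fun n => cum g (n + 1) / n.factorial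

lemma dPM {g : ℝ → ℝ} (hg : Nice g) (h0 : FI g 0 0 ≠ 0) : PowerSeries.derivative ℝ (PM g) = PM g * PK g := by
  ext n
  rw [PowerSeries.coeff_derivative, PowerSeries.coeff_mul]
  simp only [PM, PK, PowerSeries.coeff_mk]
  rw [cum_rec hg h0 n, Finset.Nat.sum_antidiagonal_eq_sum_range_succ
    (fun i j => FI g i 0 / i.factorial * (cum g (j + 1) / j.factorial)),
    ← Finset.sum_range_reflect, Finset.sum_div, Finset.sum_mul]
  refine Finset.sum_congr rfl fun i hi => ?_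
  have hi' : i ≤ n := by have := Finset.mem_range.1 hi; omega
  have e1 : n + 1 - 1 - i = n - i := by omega
  have e2 : n - (n - i) = i := by omega
  rw [e1, e2, Nat.factorial_succ, Nat.choose_symm hi']
  have h3 : (n.choose i : ℝ) * i.factorial * (n - i).factorial = n.factorial := by
    exact_mod_cast Nat.choose_mul_factorial_mul_factorial hi'
  have h4 : (n.factorial : ℝ) ≠ 0 := by positivity
  have h5 : (i.factorial : ℝ) ≠ 0 := by positivity
  have h6 : ((n - i).factorial : ℝ) ≠ 0 := by positivity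
  have h7 : ((n : ℝ) + 1) ≠ 0 := by positivity
  push_cast
  field_simp
  linear_combination (FI g i 0 * cum g (n - i + 1)) * h3

/-- the cumulants of the gamma factor -/
noncomputable def PH : ℝ⟦X⟧ := PowerSeries.mk fun n => cc n / (2 ^ (n + 1) * n.factorial)

lemma dPGm : PowerSeries.derivative ℝ PGm = PGm * PH := by
  ext n
  have h := congrArg (coeff n) dPA
  rw [PowerSeries.coeff_derivative, PowerSeries.coeff_mul] at h
  rw [PowerSeries.coeff_derivative, PowerSeries.coeff_mul]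
  simp only [PA, PC, PGm, PH, PowerSeries.coeff_mk, dd] at h ⊢
  have e1 : mo (n + 1) / (2 ^ (n + 1) * ((n + 1).factorial : ℝ)) * ((n : ℝ) + 1) =
      1 / 2 ^ (n + 1) * (mo (n + 1) / ((n + 1).factorial : ℝ) * ((n : ℝ) + 1)) := by
    field_simp
  rw [e1, h, Finset.mul_sum]
  refine Finset.sum_congr rfl fun p hp => ?_
  have hp' : p.1 + p.2 = n := Finset.HasAntidiagonal.mem_antidiagonal.1 hp
  have e2 : (2 : ℝ) ^ (n + 1) = 2 ^ p.1 * 2 ^ (p.2 + 1) := by rw [← pow_add]; congr 1; omega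
  rw [e2]
  have h5 : (p.1.factorial : ℝ) ≠ 0 := by positivity
  have h6 : (p.2.factorial : ℝ) ≠ 0 := by positivity
  field_simp

/-- the series of the `B_j` -/
noncomputable def PBv (x : ℝ) : ℝ⟦X⟧ := PowerSeries.mk fun j => Bv j (-x ^ 2)
/-- the series of the `p_j - (x² / 2) B_j` -/
noncomputable def PSv (x : ℝ) : ℝ⟦X⟧ := PowerSeries.mk fun j => Pv j (-x ^ 2) - x ^ 2 / 2 * Bv j (-x ^ 2)

lemma PM_gS {x : ℝ} (hx : 0 ≤ x) : PM (gS x) = C (x / 2) * (PGm * PBv x) := by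
  ext l
  rw [PM, coeff_mk, FI_gS, fS_eq l hx, coeff_C_mul, coeff_mul]
  simp only [PGm, PBv, coeff_mk]
  have h4 : (l.factorial : ℝ) ≠ 0 := by positivity
  field_simp

lemma PM_gC {x : ℝ} (hx : 0 ≤ x) : PM (gC x) = C (1 / 2) * (PGm * PSv x) := by
  ext l
  rw [PM, coeff_mk, FI_gC, fC_eq l hx, coeff_C_mul, coeff_mul]
  simp only [PGm, PSv, coeff_mk]
  have h4 : (l.factorial : ℝ) ≠ 0 := by positivity
  field_simp

lemma dd_zero : dd 0 = 1 := by rw [dd, mo0]; simp

lemma FI_gS_zero {x : ℝ} (hx : 0 ≤ x) : FI (gS x) 0 0 = x / 2 * Bv 0 (-x ^ 2) := by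
  rw [FI_gS, fS_eq 0 hx]
  simp [dd_zero]

lemma FI_gC_zero {x : ℝ} (hx : 0 ≤ x) : FI (gC x) 0 0 = 1 / 2 * (Pv 0 (-x ^ 2) - x ^ 2 / 2 * Bv 0 (-x ^ 2)) := by
  rw [FI_gC, fC_eq 0 hx]
  simp [dd_zero]

lemma PGm_ne : PGm ≠ 0 := by
  intro h
  have := congrArg (coeff 0) h
  rw [PGm, coeff_mk, dd_zero, map_zero] at this
  exact one_ne_zero this

/-- subtracting the cumulants of the gamma factor -/
lemma cancel {P Q K : ℝ⟦X⟧} {a : ℝ} (ha : a ≠ 0) (hP : P = C a * (PGm * Q)) (hK : PowerSeries.derivative ℝ P = P * K) :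
    PowerSeries.derivative ℝ Q = Q * (K - PH) := by
  rw [hP, Derivation.leibniz, PowerSeries.derivative_C, smul_zero, add_zero, Derivation.leibniz, dPGm] at hK
  simp only [smul_eq_mul] at hK
  have hC : (C a : ℝ⟦X⟧) ≠ 0 := by
    intro h
    have := congrArg (coeff 0) h
    rw [coeff_zero_C, map_zero] at this
    exact ha this
  apply mul_left_cancel₀ (mul_ne_zero hC PGm_ne)
  linear_combination hK

/-- the cumulants without the gamma factor -/
noncomputable def rk (g : ℝ → ℝ) (n : ℕ) : ℝ := cum g (n + 1) - cc n / 2 ^ (n + 1)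

lemma coeff_rk (g : ℝ → ℝ) (n : ℕ) : coeff n (PK g - PH) = rk g n / n.factorial := by
  rw [map_sub, PK, PH, coeff_mk, coeff_mk, rk]
  have h4 : (n.factorial : ℝ) ≠ 0 := by positivity
  field_simp

/-- the coefficients of a series from those of its logarithmic derivative -/
lemma coeff_mem {T : Set ℝ} {Q K : ℝ⟦X⟧} (h : PowerSeries.derivative ℝ Q = Q * K) (h0 : coeff 0 Q ∈ clF T) (L : ℕ)
    (hK : ∀ n < L, coeff n K ∈ clF T) : ∀ n ≤ L, coeff n Q ∈ clF T := by
  intro n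
  induction n using Nat.strong_induction_on with
  | _ n ih =>
    intro hn
    cases n with
    | zero => exact h0
    | succ n =>
      have h1 := congrArg (coeff n) h
      rw [PowerSeries.coeff_derivative, PowerSeries.coeff_mul] at h1
      have h2 : coeff (n + 1) Q = (∑ p ∈ antidiagonal n, coeff p.1 Q * coeff p.2 K) / ((n : ℝ) + 1) := by
        rw [eq_div_iff (by positivity), h1]
      rw [h2]
      refine (clF T).div_mem ((clF T).sum_mem fun p hp => ?_) ?_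
      · have hp' := Finset.HasAntidiagonal.mem_antidiagonal.1 hp
        exact (clF T).mul_mem (ih p.1 (by omega) (by omega)) (hK p.2 (by omega))
      · exact_mod_cast natCast_mem (clF T) (n + 1)

lemma Bv_transc {r : ℚ} (hr : 0 < r) : Transcendental ℚ (Bv 0 (-(r : ℝ))) := by
  have h := BP_alg_Q (ι := Unit) 0 (fun _ => r) (Function.injective_of_subsingleton _) (fun _ => hr)
  have h2 := h.transcendental (some ((), Sum.inl 0))
  simpa using h2

lemma Bv_ne {r : ℚ} (hr : 0 < r) : Bv 0 (-(r : ℝ)) ≠ 0 := by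
  intro h
  exact Bv_transc hr (by rw [h]; exact isAlgebraic_zero)

lemma Pv_zero (y : ℝ) : Pv 0 y = 1 := by
  rw [Pv, tsum_eq_single 0]
  · simp [pc]
  · intro k hk
    obtain ⟨k, rfl⟩ := Nat.exists_eq_succ_of_ne_zero hk
    simp [pc]

lemma Sv_ne {r : ℚ} (hr : 0 < r) : Pv 0 (-(r : ℝ)) - (r : ℝ) / 2 * Bv 0 (-(r : ℝ)) ≠ 0 := by
  intro h
  apply Bv_transc hr
  rw [Pv_zero] at h
  have hr' : (r : ℝ) ≠ 0 := by exact_mod_cast hr.ne'
  have h2 : Bv 0 (-(r : ℝ)) = ((2 / r : ℚ) : ℝ) := by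
    push_cast
    field_simp
    linarith
  rw [h2]
  exact isAlgebraic_algebraMap _

section

variable {T : Set ℝ} {r : ℚ} (hr : 0 < r)
include hr

lemma sq_sqrt' : (√(r : ℝ)) ^ 2 = r := Real.sq_sqrt (by exact_mod_cast hr.le)

lemma sqrt_mem : √(r : ℝ) ∈ clF T := of_pow (n := 2) (by norm_num) (by rw [sq_sqrt' hr]; exact rat_mem T r)

lemma sqrt_pos' : 0 < √(r : ℝ) := Real.sqrt_pos.2 (by exact_mod_cast hr)

lemma S0_ne : FI (gS (√(r : ℝ))) 0 0 ≠ 0 := by
  rw [FI_gS_zero (Real.sqrt_nonneg _), sq_sqrt' hr]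
  exact mul_ne_zero (div_ne_zero (sqrt_pos' hr).ne' (by norm_num)) (Bv_ne hr)

lemma C0_ne : FI (gC (√(r : ℝ))) 0 0 ≠ 0 := by
  rw [FI_gC_zero (Real.sqrt_nonneg _), sq_sqrt' hr]
  exact mul_ne_zero (by norm_num) (Sv_ne hr)

/-- the closure of the cumulants contains the values of `B_j` and `p_j` -/
theorem BP_mem (L : ℕ) (h0 : FI (gS (√(r : ℝ))) 0 0 ∈ clF T) (hS : ∀ n < L, rk (gS (√(r : ℝ))) n ∈ clF T)
    (hC : ∀ n < L, rk (gC (√(r : ℝ))) n ∈ clF T) (j : ℕ) (hj : j ≤ L) :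
    Bv j (-(r : ℝ)) ∈ clF T ∧ Pv j (-(r : ℝ)) ∈ clF T := by
  have hx := Real.sqrt_nonneg (r : ℝ)
  have hxp := sqrt_pos' hr
  have e := sq_sqrt' hr
  have h1 : PowerSeries.derivative ℝ (PBv (√(r : ℝ))) = PBv (√(r : ℝ)) * (PK (gS (√(r : ℝ))) - PH) :=
    cancel (div_ne_zero hxp.ne' (by norm_num)) (PM_gS hx) (dPM (gS_nice _) (S0_ne hr))
  have h2 : PowerSeries.derivative ℝ (PSv (√(r : ℝ))) = PSv (√(r : ℝ)) * (PK (gC (√(r : ℝ))) - PH) :=
    cancel (by norm_num) (PM_gC hx) (dPM (gC_nice _) (C0_ne hr))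
  have hB0 : Bv 0 (-(r : ℝ)) ∈ clF T := by
    have h3 := FI_gS_zero hx
    rw [e] at h3
    have h4 : Bv 0 (-(r : ℝ)) = FI (gS (√(r : ℝ))) 0 0 / (√(r : ℝ) / 2) := by
      rw [h3]; field_simp
    rw [h4]
    refine (clF T).div_mem h0 ((clF T).div_mem (sqrt_mem hr) ?_)
    exact_mod_cast natCast_mem (clF T) 2
  have hr2 : (r : ℝ) / 2 ∈ clF T := by
    have := rat_mem T (r / 2)
    push_cast at this
    exact this
  have hB : ∀ n ≤ L, Bv n (-(r : ℝ)) ∈ clF T := by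
    intro n hn
    have := coeff_mem h1 (T := T) (by rw [PBv, coeff_mk, e]; exact hB0) L (fun n hn => by
      rw [coeff_rk]; exact (clF T).div_mem (hS n hn) (natCast_mem (clF T) _)) n hn
    rw [PBv, coeff_mk, e] at this
    exact this
  have hSv : ∀ n ≤ L, Pv n (-(r : ℝ)) - (r : ℝ) / 2 * Bv n (-(r : ℝ)) ∈ clF T := by
    intro n hn
    have := coeff_mem h2 (T := T) (by
      rw [PSv, coeff_mk, e, Pv_zero]
      exact (clF T).sub_mem (clF T).one_mem ((clF T).mul_mem hr2 hB0)) L (fun n hn => by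
      rw [coeff_rk]; exact (clF T).div_mem (hC n hn) (natCast_mem (clF T) _)) n hn
    rw [PSv, coeff_mk, e] at this
    exact this
  refine ⟨hB j hj, ?_⟩
  have h5 : Pv j (-(r : ℝ)) = (Pv j (-(r : ℝ)) - (r : ℝ) / 2 * Bv j (-(r : ℝ))) + (r : ℝ) / 2 * Bv j (-(r : ℝ)) := by ring
  rw [h5]
  exact (clF T).add_mem (hSv j hj) ((clF T).mul_mem hr2 (hB j hj))

end

/-- the numbers: `e`, `f_0`, and the cumulants without the gamma factor; `(r, inl 0)` is `f_0`,
`(r, inl (j+1))` and `(r, inr j)` are of order `j + 1` -/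
noncomputable def num (r : ℚ) : ℕ ⊕ ℕ → ℝ
  | Sum.inl 0 => FI (gS (√(r : ℝ))) 0 0
  | Sum.inl (j + 1) => rk (gS (√(r : ℝ))) j
  | Sum.inr j => rk (gC (√(r : ℝ))) j

/-- **Algebraic independence** of `e`, `f_0` and the cumulants, finite form -/
theorem cum_alg_fin {ι : Type} [Fintype ι] [DecidableEq ι] (r : ι → ℚ) (hinj : Function.Injective r)
    (hpos : ∀ i, 0 < r i) (L : ℕ) :
    AlgebraicIndependent ℚ (fun o : Sg' ι L => o.elim (Real.exp 1) (fun p => num (r p.1) (Sum.map Fin.val Fin.val p.2))) := by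
  set f : Sg' ι L → ℝ := fun o => o.elim (Real.exp 1) (fun p => num (r p.1) (Sum.map Fin.val Fin.val p.2)) with hf
  have hm : ∀ o, f o ∈ clF (Set.range f) := fun o => subset_clF _ ⟨o, rfl⟩
  have key : ∀ i, ∀ j ≤ L, Bv j (-(r i : ℝ)) ∈ clF (Set.range f) ∧ Pv j (-(r i : ℝ)) ∈ clF (Set.range f) := by
    intro i j hj
    refine BP_mem (hpos i) L (hm (some (i, Sum.inl 0))) (fun n hn => ?_) (fun n hn => ?_) j hj
    · exact hm (some (i, Sum.inl ⟨n + 1, by omega⟩))
    · exact hm (some (i, Sum.inr ⟨n, hn⟩))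
  refine indep_of_span (BP_alg_Q L r hinj hpos) (fun o => ?_) le_rfl
  rcases o with _ | ⟨i, j | j⟩
  · exact hm none
  · exact (key i j (by have := j.2; omega)).1
  · exact (key i (j + 1) (by have := j.2; omega)).2

end Pool.Agent.W5h65.GS
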