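import Pool.Agent.W5h65.GS.Mom2

/-!
# Derivatives in the exponent; cumulants
-/

set_option autoImplicit false

open Filter Topology Set MeasureTheory

namespace Pool.Agent.W5h65.GS

open Pool.Agent.R352.E (fr fl mo mellin_fl mellin_fl_zero fr_integrable)

/-- continuous functions on the half line with exponential decay -/
structure Nice (g : ℝ → ℝ) : Prop where
  cont : ContinuousOn g (Ioi 0)
  bound : ∃ C : ℝ, ∀ s, 0 < s → |g s| ≤ C * Real.exp (-s)

/-- `∫ s^ε (log s)^l g(s) ds` -/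
noncomputable def FI (g : ℝ → ℝ) (l : ℕ) (ε : ℝ) : ℝ := ∫ s in Ioi (0 : ℝ), s ^ ε * (Real.log s ^ l * g s)

lemma pow_int (a : ℝ) (ha : -1 < a) (l : ℕ) :
    IntegrableOn (fun s : ℝ => s ^ a * (|Real.log s| ^ l * Real.exp (-s))) (Ioi 0) := by
  have hre : 0 < ((a : ℂ) + 1).re := by
    rw [Complex.add_re, Complex.ofReal_re, Complex.one_re]; linarith
  have h : MellinConvergent (fl l) ((a : ℂ) + 1) := by
    cases l with
    | zero =>
      have := Complex.GammaIntegral_convergent hre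
      unfold MellinConvergent
      refine this.congr_fun (fun t ht => ?_) measurableSet_Ioi
      simp only [fl, fr, pow_zero, one_mul, smul_eq_mul]
      rw [mul_comm]
    | succ l => exact (mellin_fl l hre).1
  unfold MellinConvergent at h
  have h' : IntegrableOn (fun t : ℝ => ‖(t : ℂ) ^ ((a : ℂ) + 1 - 1) • fl l t‖) (Ioi 0) := h.norm
  refine h'.congr_fun (fun t ht => ?_) measurableSet_Ioi
  have ht' : (0 : ℝ) < t := ht
  simp only
  rw [norm_smul, Complex.norm_cpow_eq_rpow_re_of_pos ht', fl, Complex.norm_real, fr, norm_mul, norm_pow,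
    Real.norm_eq_abs, Real.norm_eq_abs, abs_of_pos (Real.exp_pos _)]
  simp

lemma rpow_le_add {s x : ℝ} (hs : 0 < s) (hx : x ∈ Ioo (-(1 / 2) : ℝ) (1 / 2)) :
    s ^ x ≤ s ^ (-(1 / 2) : ℝ) + s ^ (1 / 2 : ℝ) := by
  have h1 : 0 < s ^ (-(1 / 2) : ℝ) := Real.rpow_pos_of_pos hs _
  have h2 : 0 < s ^ (1 / 2 : ℝ) := Real.rpow_pos_of_pos hs _
  rcases le_total s 1 with h | h
  · have := Real.rpow_le_rpow_of_exponent_ge hs h hx.1.le
    linarith
  · have := Real.rpow_le_rpow_of_exponent_le h hx.2.le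
    linarith

lemma Nice.meas {g : ℝ → ℝ} (hg : Nice g) (l : ℕ) (x : ℝ) :
    AEStronglyMeasurable (fun s : ℝ => s ^ x * (Real.log s ^ l * g s)) (volume.restrict (Ioi (0 : ℝ))) := by
  refine ContinuousOn.aestronglyMeasurable ?_ measurableSet_Ioi
  refine ContinuousOn.mul ?_ (ContinuousOn.mul (ContinuousOn.pow ?_ _) hg.cont)
  · exact ContinuousOn.rpow_const continuousOn_id fun s hs => Or.inl (ne_of_gt hs)
  · exact Real.continuousOn_log.mono fun x hx => (ne_of_gt hx : x ≠ 0)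

lemma Nice.integrable {g : ℝ → ℝ} (hg : Nice g) (l : ℕ) {x : ℝ} (hx : -1 < x) :
    IntegrableOn (fun s : ℝ => s ^ x * (Real.log s ^ l * g s)) (Ioi 0) := by
  obtain ⟨C, hC⟩ := hg.bound
  refine Integrable.mono' ((pow_int x hx l).const_mul C) (hg.meas l x) ?_
  filter_upwards [ae_restrict_mem measurableSet_Ioi] with s hs
  have hs' : (0 : ℝ) < s := hs
  rw [norm_mul, norm_mul, norm_pow, Real.norm_eq_abs, Real.norm_eq_abs, Real.norm_eq_abs,
    abs_of_pos (Real.rpow_pos_of_pos hs' _)]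
  have h1 := hC s hs'
  have h2 : 0 < s ^ x := Real.rpow_pos_of_pos hs' _
  calc s ^ x * (|Real.log s| ^ l * |g s|) ≤ s ^ x * (|Real.log s| ^ l * (C * Real.exp (-s))) :=
        mul_le_mul_of_nonneg_left (mul_le_mul_of_nonneg_left h1 (by positivity)) h2.le
    _ = _ := by ring

lemma FI_deriv {g : ℝ → ℝ} (hg : Nice g) (l : ℕ) {x₀ : ℝ} (hx₀ : x₀ ∈ Ioo (-(1 / 2) : ℝ) (1 / 2)) :
    HasDerivAt (FI g l) (FI g (l + 1) x₀) x₀ := by
  obtain ⟨C, hC⟩ := hg.bound
  have hI : Ioo (-(1 / 2) : ℝ) (1 / 2) ∈ 𝓝 x₀ := isOpen_Ioo.mem_nhds hx₀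
  have h := hasDerivAt_integral_of_dominated_loc_of_deriv_le (μ := volume.restrict (Ioi (0 : ℝ))) hI
    (F := fun x s => s ^ x * (Real.log s ^ l * g s)) (F' := fun x s => s ^ x * (Real.log s ^ (l + 1) * g s))
    (bound := fun s => C * (s ^ (-(1 / 2) : ℝ) * (|Real.log s| ^ (l + 1) * Real.exp (-s)) +
      s ^ (1 / 2 : ℝ) * (|Real.log s| ^ (l + 1) * Real.exp (-s))))
    (Eventually.of_forall fun x => hg.meas l x) (hg.integrable l (by have := hx₀.1; linarith)) (hg.meas (l + 1) x₀) ?_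
    (((pow_int _ (by norm_num) _).add (pow_int _ (by norm_num) _)).const_mul C) ?_
  · exact h.2
  · filter_upwards [ae_restrict_mem measurableSet_Ioi] with s hs x hx
    have hs' : (0 : ℝ) < s := hs
    rw [norm_mul, norm_mul, norm_pow, Real.norm_eq_abs, Real.norm_eq_abs, Real.norm_eq_abs,
      abs_of_pos (Real.rpow_pos_of_pos hs' _)]
    have h1 := hC s hs'
    have h2 : 0 < s ^ x := Real.rpow_pos_of_pos hs' _
    have h3 := rpow_le_add hs' hx
    have hC0 : 0 ≤ C * Real.exp (-s) := (abs_nonneg _).trans h1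
    calc s ^ x * (|Real.log s| ^ (l + 1) * |g s|) ≤ (s ^ (-(1 / 2) : ℝ) + s ^ (1 / 2 : ℝ)) *
          (|Real.log s| ^ (l + 1) * (C * Real.exp (-s))) :=
          mul_le_mul h3 (mul_le_mul_of_nonneg_left h1 (by positivity)) (by positivity) (by positivity)
      _ = _ := by ring
  · filter_upwards [ae_restrict_mem measurableSet_Ioi] with s hs x hx
    have hs' : (0 : ℝ) < s := hs
    have h1 := (Real.hasStrictDerivAt_const_rpow hs' x).hasDerivAt.mul_const (Real.log s ^ l * g s)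
    refine h1.congr_deriv ?_
    rw [pow_succ]; ring

lemma FI_contDiffOn {g : ℝ → ℝ} (hg : Nice g) (k : ℕ) : ∀ l : ℕ, ContDiffOn ℝ k (FI g l) (Ioo (-(1 / 2) : ℝ) (1 / 2)) := by
  induction k with
  | zero =>
    intro l
    rw [Nat.cast_zero, contDiffOn_zero]
    exact fun x hx => (FI_deriv hg l hx).continuousAt.continuousWithinAt
  | succ k ih =>
    intro l
    have h := (contDiffOn_succ_iff_deriv_of_isOpen (𝕜 := ℝ) (f := FI g l) (n := (k : WithTop ℕ∞))
      (s := Ioo (-(1 / 2) : ℝ) (1 / 2)) isOpen_Ioo).2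
      ⟨fun x hx => (FI_deriv hg l hx).differentiableAt.differentiableWithinAt, by simp, ?_⟩
    · exact_mod_cast h
    · refine (ih (l + 1)).congr fun x hx => ?_
      exact (FI_deriv hg l hx).deriv

lemma zero_mem : (0 : ℝ) ∈ Ioo (-(1 / 2) : ℝ) (1 / 2) := by constructor <;> norm_num

lemma FI_contDiffAt {g : ℝ → ℝ} (hg : Nice g) (k l : ℕ) : ContDiffAt ℝ k (FI g l) 0 :=
  (FI_contDiffOn hg k l).contDiffAt (isOpen_Ioo.mem_nhds zero_mem)

lemma FI_iterated {g : ℝ → ℝ} (hg : Nice g) (i : ℕ) : ∀ l : ℕ, ∀ x ∈ Ioo (-(1 / 2) : ℝ) (1 / 2),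
    iteratedDeriv i (FI g l) x = FI g (l + i) x := by
  induction i with
  | zero => intro l x _; simp
  | succ i ih =>
    intro l x hx
    rw [iteratedDeriv_succ]
    have h : iteratedDeriv i (FI g l) =ᶠ[𝓝 x] FI g (l + i) := by
      filter_upwards [isOpen_Ioo.mem_nhds hx] with z hz
      exact ih l z hz
    rw [h.deriv_eq, (FI_deriv hg (l + i) hx).deriv]
    rfl

/-- the cumulants -/
noncomputable def cum (g : ℝ → ℝ) (n : ℕ) : ℝ := iteratedDeriv n (fun ε => Real.log (FI g 0 ε)) 0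

/-- the recursion of the cumulants -/
theorem cum_rec {g : ℝ → ℝ} (hg : Nice g) (h0 : FI g 0 0 ≠ 0) (n : ℕ) :
    FI g (n + 1) 0 = ∑ i ∈ Finset.range (n + 1), (n.choose i : ℝ) * (FI g (n - i) 0 * cum g (i + 1)) := by
  set L : ℝ → ℝ := fun ε => Real.log (FI g 0 ε) with hL
  have hcont : ContinuousAt (FI g 0) 0 := (FI_deriv hg 0 zero_mem).continuousAt
  have hne : ∀ᶠ ε in 𝓝 (0 : ℝ), FI g 0 ε ≠ 0 := hcont.eventually_ne h0
  have hI : Ioo (-(1 / 2) : ℝ) (1 / 2) ∈ 𝓝 (0 : ℝ) := isOpen_Ioo.mem_nhds zero_mem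
  have h1 : FI g 1 =ᶠ[𝓝 0] (FI g 0 * deriv L) := by
    filter_upwards [hne, hI] with ε hε hεI
    have h2 : HasDerivAt L (FI g 1 ε / FI g 0 ε) ε := (FI_deriv hg 0 hεI).log hε
    rw [Pi.mul_apply, h2.deriv]
    field_simp
  have hLd : ∀ k : ℕ, ContDiffAt ℝ k L 0 := fun k => (FI_contDiffAt hg k 0).log h0
  have hdL : ContDiffAt ℝ n (deriv L) 0 := by
    have h2 : (fun ε => FI g 1 ε / FI g 0 ε) =ᶠ[𝓝 0] deriv L := by
      filter_upwards [hne, hI] with ε hε hεI
      have h2 : HasDerivAt L (FI g 1 ε / FI g 0 ε) ε := (FI_deriv hg 0 hεI).log hε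
      rw [h2.deriv]
    exact ((FI_contDiffAt hg n 1).div (FI_contDiffAt hg n 0) h0).congr_of_eventuallyEq h2.symm
  have h3 : iteratedDeriv n (FI g 1) 0 = iteratedDeriv n (FI g 0 * deriv L) 0 := h1.iteratedDeriv_eq n
  rw [FI_iterated hg n 1 0 zero_mem, iteratedDeriv_mul (FI_contDiffAt hg n 0) hdL, ← Finset.sum_range_reflect,
    add_comm 1 n] at h3
  rw [h3]
  refine Finset.sum_congr rfl fun i hi => ?_
  have hi' : i ≤ n := by have := Finset.mem_range.1 hi; omega
  have e1 : n + 1 - 1 - i = n - i := by omega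
  have e2 : n - (n - i) = i := by omega
  rw [e1, e2, Nat.choose_symm hi', FI_iterated hg (n - i) 0 0 zero_mem, cum, iteratedDeriv_succ', zero_add, mul_assoc]

/-- the sine weight -/
noncomputable def gS (x s : ℝ) : ℝ := Real.sin (x * s) * Real.exp (-s ^ 2)

/-- the cosine weight -/
noncomputable def gC (x s : ℝ) : ℝ := s * Real.cos (x * s) * Real.exp (-s ^ 2)

lemma gS_nice (x : ℝ) : Nice (gS x) where
  cont := by unfold gS; fun_prop
  bound := by
    refine ⟨Real.exp ((0 + 1) ^ 2 / 4), fun s hs => ?_⟩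
    have h := exp_bound 0 s
    rw [zero_mul, Real.exp_zero, one_mul] at h
    refine le_trans ?_ h
    rw [gS, abs_mul, abs_of_pos (Real.exp_pos (-s ^ 2))]
    exact mul_le_of_le_one_left (Real.exp_pos _).le (Real.abs_sin_le_one _)

lemma gC_nice (x : ℝ) : Nice (gC x) where
  cont := by unfold gC; fun_prop
  bound := by
    refine ⟨Real.exp ((1 + 1) ^ 2 / 4), fun s hs => ?_⟩
    have h := exp_bound 1 s
    refine le_trans ?_ h
    rw [gC, abs_mul, abs_mul, abs_of_pos (Real.exp_pos (-s ^ 2)), abs_of_pos hs, one_mul]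
    refine mul_le_mul_of_nonneg_right ?_ (Real.exp_pos _).le
    have h4 : s ≤ Real.exp s := by linarith [Real.add_one_le_exp s]
    exact (mul_le_of_le_one_right hs.le (Real.abs_cos_le_one _)).trans h4

lemma FI_gS (l : ℕ) (x : ℝ) : FI (gS x) l 0 = fS l x := by
  rw [FI, fS]
  refine setIntegral_congr_fun measurableSet_Ioi fun s _ => ?_
  simp only [gS]
  rw [Real.rpow_zero, one_mul]

lemma FI_gC (l : ℕ) (x : ℝ) : FI (gC x) l 0 = fC l x := by
  rw [FI, fC]
  refine setIntegral_congr_fun measurableSet_Ioi fun s _ => ?_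
  simp only [gC]
  rw [Real.rpow_zero, one_mul]

end Pool.Agent.W5h65.GS
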