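import Mathlib

/-!
# Differential ideals of polynomial rings with letters lowering the weight by one
-/

set_option autoImplicit false

open MvPolynomial

namespace Pool.Agent.W5h65.GS

/-- monomial data for a family of derivations which lower the weight by exactly one -/
structure Letters (V Λ : Type) where
  ω : V → ℕ
  c : Λ → V → ℚ
  t : Λ → V → (V →₀ ℕ)
  hω : ∀ v, ω v ≠ 0
  h : ∀ l v, c l v ≠ 0 → Finsupp.weight ω (t l v) + 1 = ω v

namespace Letters

variable {V Λ : Type} (S : Letters V Λ)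

/-- the weight -/
noncomputable abbrev wt (s : V →₀ ℕ) : ℕ := Finsupp.weight S.ω s

section

variable (A : Type) [CommRing A] [Algebra ℚ A]

/-- the derivation of the letter `l` -/
noncomputable def dl (l : Λ) : Derivation A (MvPolynomial V A) (MvPolynomial V A) :=
  mkDerivation A fun v => monomial (S.t l v) (algebraMap ℚ A (S.c l v))

variable {A}

lemma dl_X (l : Λ) (v : V) : S.dl A l (X v) = monomial (S.t l v) (algebraMap ℚ A (S.c l v)) := mkDerivation_X _ _ _

lemma dl_monomial_coeff (l : Λ) (t s : V →₀ ℕ) (a : A) (h : coeff s (S.dl A l (monomial t a)) ≠ 0) :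
    S.wt t = S.wt s + 1 := by
  classical
  rw [dl, mkDerivation_monomial, coeff_smul, Finsupp.sum, coeff_sum] at h
  have h1 : ∑ i ∈ t.support, coeff s (monomial (t - Finsupp.single i 1) ((t i : ℕ) : A) •
      monomial (S.t l i) (algebraMap ℚ A (S.c l i))) ≠ 0 := by
    intro h0
    rw [h0, smul_zero] at h
    exact h rfl
  obtain ⟨i, hi, hne⟩ := Finset.exists_ne_zero_of_sum_ne_zero h1
  rw [smul_eq_mul, monomial_mul, coeff_monomial] at hne
  have hs : t - Finsupp.single i 1 + S.t l i = s := by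
    by_contra hcon
    rw [if_neg hcon] at hne
    exact hne rfl
  have hc : S.c l i ≠ 0 := by
    intro h0
    rw [h0, map_zero, mul_zero] at hne
    simp at hne
  have h2 := S.h l i hc
  have h3 := Finsupp.weight_sub_single_add (w := S.ω) (Finsupp.mem_support_iff.1 hi)
  have h4 : S.wt s = S.wt (t - Finsupp.single i 1) + S.wt (S.t l i) := by rw [← hs]; exact map_add _ _ _
  unfold wt at h4 ⊢
  omega

lemma dl_coeff (l : Λ) (P : MvPolynomial V A) (s : V →₀ ℕ) (h : coeff s (S.dl A l P) ≠ 0) :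
    ∃ t, coeff t P ≠ 0 ∧ S.wt t = S.wt s + 1 := by
  classical
  rw [P.as_sum, map_sum, coeff_sum] at h
  obtain ⟨t, ht, hne⟩ := Finset.exists_ne_zero_of_sum_ne_zero h
  exact ⟨t, mem_support_iff.1 ht, S.dl_monomial_coeff l t s _ hne⟩

lemma dl_map (l : Λ) (P : MvPolynomial V ℚ) :
    S.dl A l (map (algebraMap ℚ A) P) = map (algebraMap ℚ A) (S.dl ℚ l P) := by
  induction P using MvPolynomial.induction_on with
  | C a => rw [map_C, derivation_C, derivation_C, map_zero]
  | add P Q hP hQ => simp only [map_add, hP, hQ]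
  | mul_X P i hP =>
    rw [map_mul, map_X, Derivation.leibniz, Derivation.leibniz, hP, dl_X, dl_X]
    simp only [smul_eq_mul, map_add, map_mul, map_X, map_monomial]
    simp

end

section

variable [Fintype Λ] {A : Type} [CommRing A] [Algebra ℚ A] (D : Derivation ℚ A A) (u : Λ → A)

/-- the coefficientwise derivation -/
noncomputable def Dc (P : MvPolynomial V A) : MvPolynomial V A := ∑ s ∈ P.support, monomial s (D (coeff s P))

lemma coeff_Dc (P : MvPolynomial V A) (s : V →₀ ℕ) : coeff s (Dc D P) = D (coeff s P) := by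
  classical
  rw [Dc, coeff_sum]
  simp only [coeff_monomial]
  rw [Finset.sum_ite_eq']
  split_ifs with h
  · rfl
  · rw [notMem_support_iff.1 h, map_zero]

/-- the total derivation -/
noncomputable def δ (P : MvPolynomial V A) : MvPolynomial V A := Dc D P + ∑ l, C (u l) * S.dl A l P

lemma coeff_δ (P : MvPolynomial V A) (s : V →₀ ℕ) :
    coeff s (S.δ D u P) = D (coeff s P) + ∑ l, u l * coeff s (S.dl A l P) := by
  rw [δ, coeff_add, coeff_Dc, coeff_sum]
  simp only [coeff_C_mul]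

variable [Countable V]

/-- differential ideals are trivial -/
theorem triv [Nontrivial A]
    (H1 : ∀ I : Ideal A, I ≠ ⊥ → (∀ a ∈ I, D a ∈ I) → I = ⊤)
    (H2 : ∀ a, D a = 0 → ∃ r : ℚ, a = algebraMap ℚ A r)
    (H3 : ∀ (c : Λ → ℚ) (h : A), ∑ l, algebraMap ℚ A (c l) * u l = D h → c = 0)
    (K2 : ∀ P : MvPolynomial V ℚ, (∀ l, S.dl ℚ l P = 0) → ∃ r, P = C r)
    (J : Ideal (MvPolynomial V A)) (hJ : ∀ P ∈ J, S.δ D u P ∈ J) (h1 : (1 : MvPolynomial V A) ∉ J) : J = ⊥ := by
  classical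
  by_contra hne
  obtain ⟨P, hP, hP0⟩ := Submodule.exists_mem_ne_zero_of_ne_bot hne
  let _ : Encodable (V →₀ ℕ) := Encodable.ofCountable _
  set key : (V →₀ ℕ) → ℕ ×ₗ ℕ := fun s => toLex (S.wt s, Encodable.encode s) with hkey
  have key_inj : Function.Injective key := by
    intro s t h
    exact Encodable.encode_injective (congrArg Prod.snd (toLex.injective h))
  have key_lt : ∀ s t, S.wt s < S.wt t → key s < key t := by
    intro s t h
    rw [Prod.Lex.lt_iff]
    exact Or.inl h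
  have key_le : ∀ s t, key s ≤ key t → S.wt s ≤ S.wt t := by
    intro s t h
    by_contra hcon
    push Not at hcon
    exact absurd h (not_le.2 (key_lt t s hcon))
  -- minimal leading monomial
  set K : Set (ℕ ×ₗ ℕ) := {k | ∃ s P, P ∈ J ∧ coeff s P ≠ 0 ∧ (∀ t, coeff t P ≠ 0 → key t ≤ key s) ∧ key s = k} with hK
  have hmax : ∀ P : MvPolynomial V A, P ≠ 0 → ∃ s, coeff s P ≠ 0 ∧ ∀ t, coeff t P ≠ 0 → key t ≤ key s := by
    intro P hP0
    obtain ⟨s, hs, hs'⟩ := Finset.exists_max_image P.support key (support_nonempty.2 hP0)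
    exact ⟨s, mem_support_iff.1 hs, fun t ht => hs' t (mem_support_iff.2 ht)⟩
  have hKne : K.Nonempty := by
    obtain ⟨s, hs, hs'⟩ := hmax P hP0
    exact ⟨key s, s, P, hP, hs, hs', rfl⟩
  have hwf : WellFounded (fun a b : ℕ ×ₗ ℕ => a < b) := IsWellFounded.wf
  obtain ⟨k₀, ⟨s₀, P₀, hP₀, hP₀c, hP₀m, rfl⟩, hmin⟩ := hwf.has_min K hKne
  have claimA : ∀ Q ∈ J, (∀ t, coeff t Q ≠ 0 → key t < key s₀) → Q = 0 := by
    intro Q hQ hlt
    by_contra hQ0
    obtain ⟨s, hs, hs'⟩ := hmax Q hQ0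
    exact hmin (key s) ⟨s, Q, hQ, hs, hs', rfl⟩ (hlt s hs)
  have hlow : ∀ Q : MvPolynomial V A, (∀ t, coeff t Q ≠ 0 → key t ≤ key s₀) → ∀ s, ∀ l,
      coeff s (S.dl A l Q) ≠ 0 → S.wt s < S.wt s₀ := by
    intro Q hQ s l h
    obtain ⟨t, ht, hts⟩ := S.dl_coeff l Q s h
    have := key_le _ _ (hQ t ht)
    omega
  have hδ0 : ∀ Q : MvPolynomial V A, (∀ t, coeff t Q ≠ 0 → key t ≤ key s₀) → ∀ s, S.wt s = S.wt s₀ →
      coeff s (S.δ D u Q) = D (coeff s Q) := by
    intro Q hQ s hs
    rw [coeff_δ, Finset.sum_eq_zero, add_zero]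
    intro l _
    by_contra hcon
    have h2 : coeff s (S.dl A l Q) ≠ 0 := fun h0 => hcon (by rw [h0, mul_zero])
    have := hlow Q hQ s l h2
    omega
  have hδ1 : ∀ Q : MvPolynomial V A, (∀ t, coeff t Q ≠ 0 → key t ≤ key s₀) →
      ∀ t, coeff t (S.δ D u Q) ≠ 0 → key t ≤ key s₀ := by
    intro Q hQ t ht
    rw [coeff_δ] at ht
    by_cases h2 : coeff t Q = 0
    · rw [h2, map_zero, zero_add] at ht
      obtain ⟨l, _, hl⟩ := Finset.exists_ne_zero_of_sum_ne_zero ht
      have h3 : coeff t (S.dl A l Q) ≠ 0 := fun h0 => hl (by rw [h0, mul_zero])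
      exact (key_lt _ _ (hlow Q hQ t l h3)).le
    · exact hQ t h2
  -- the ideal of leading coefficients
  let I : Ideal A :=
    { carrier := {a | ∃ Q ∈ J, (∀ t, coeff t Q ≠ 0 → key t ≤ key s₀) ∧ coeff s₀ Q = a}
      zero_mem' := ⟨0, J.zero_mem, fun t ht => absurd (coeff_zero t) ht, coeff_zero _⟩
      add_mem' := by
        rintro a b ⟨Q, hQ, hQm, rfl⟩ ⟨Q', hQ', hQm', rfl⟩
        refine ⟨Q + Q', J.add_mem hQ hQ', fun t ht => ?_, coeff_add _ _ _⟩
        rw [coeff_add] at ht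
        by_cases h2 : coeff t Q = 0
        · rw [h2, zero_add] at ht
          exact hQm' t ht
        · exact hQm t h2
      smul_mem' := by
        rintro c a ⟨Q, hQ, hQm, rfl⟩
        refine ⟨C c * Q, J.mul_mem_left _ hQ, fun t ht => ?_, coeff_C_mul _ _ _⟩
        rw [coeff_C_mul] at ht
        exact hQm t fun h0 => ht (by rw [h0, mul_zero]) }
  have hI0 : I ≠ ⊥ := by
    intro h0
    have h2 : coeff s₀ P₀ ∈ I := ⟨P₀, hP₀, hP₀m, rfl⟩
    rw [h0, Submodule.mem_bot] at h2
    exact hP₀c h2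
  have hID : ∀ a ∈ I, D a ∈ I := by
    rintro a ⟨Q, hQ, hQm, rfl⟩
    exact ⟨S.δ D u Q, hJ Q hQ, hδ1 Q hQm, hδ0 Q hQm s₀ rfl⟩
  have hI1 : (1 : A) ∈ I := by rw [H1 I hI0 hID]; trivial
  obtain ⟨Q, hQ, hQm, hQ1⟩ := hI1
  have hδQ : S.δ D u Q = 0 := by
    refine claimA _ (hJ Q hQ) fun t ht => lt_of_le_of_ne (hδ1 Q hQm t ht) fun heq => ?_
    have h2 := key_inj heq
    rw [h2, hδ0 Q hQm s₀ rfl, hQ1] at ht
    exact ht (Derivation.map_one_eq_zero D)
  -- the top part has rational coefficients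
  have htop : ∀ t, ∃ r : ℚ, S.wt t = S.wt s₀ → coeff t Q = algebraMap ℚ A r := by
    intro t
    by_cases ht : S.wt t = S.wt s₀
    · have h2 := hδ0 Q hQm t ht
      rw [hδQ, coeff_zero] at h2
      obtain ⟨r, hr⟩ := H2 _ h2.symm
      exact ⟨r, fun _ => hr⟩
    · exact ⟨0, fun h => absurd h ht⟩
  choose r hr using htop
  set q : MvPolynomial V ℚ := ∑ t ∈ Q.support.filter (fun t => S.wt t = S.wt s₀), monomial t (r t) with hq
  have hqc : ∀ t, algebraMap ℚ A (coeff t q) = if S.wt t = S.wt s₀ then coeff t Q else 0 := by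
    intro t
    rw [hq, coeff_sum]
    simp only [coeff_monomial]
    rw [Finset.sum_ite_eq']
    by_cases h2 : t ∈ Q.support.filter (fun t => S.wt t = S.wt s₀)
    · rw [if_pos h2, if_pos (Finset.mem_filter.1 h2).2, hr t (Finset.mem_filter.1 h2).2]
    · rw [if_neg h2, map_zero]
      split_ifs with h3
      · have h4 : t ∉ Q.support := fun h5 => h2 (Finset.mem_filter.2 ⟨h5, h3⟩)
        exact (notMem_support_iff.1 h4).symm
      · rfl
  have hq0 : ∀ l, S.dl ℚ l q = 0 := by
    have hall : ∀ s, ∀ l, coeff s (S.dl ℚ l q) = 0 := by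
      intro s
      by_cases hs : S.wt s + 1 = S.wt s₀
      · have h2 : ∑ l, algebraMap ℚ A (coeff s (S.dl ℚ l q)) * u l = D (-coeff s Q) := by
          have h3 := congrArg (coeff s) hδQ
          rw [coeff_zero, coeff_δ] at h3
          rw [map_neg, eq_neg_iff_add_eq_zero, add_comm, ← h3]
          congr 1
          refine Finset.sum_congr rfl fun l _ => ?_
          have h4 : coeff s (S.dl A l (Q - map (algebraMap ℚ A) q)) = 0 := by
            by_contra hcon
            obtain ⟨t, ht, hts⟩ := S.dl_coeff l _ s hcon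
            rw [coeff_sub, coeff_map, hqc, if_pos (by omega), sub_self] at ht
            exact ht rfl
          rw [map_sub, coeff_sub, dl_map, coeff_map, sub_eq_zero] at h4
          rw [h4, mul_comm]
        have h5 := H3 _ _ h2
        exact fun l => congrFun h5 l
      · intro l
        by_contra hcon
        obtain ⟨t, ht, hts⟩ := S.dl_coeff l _ s hcon
        have h6 := hqc t
        rw [if_neg (by omega)] at h6
        exact ht ((algebraMap ℚ A).injective (by rw [h6, map_zero]))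
    intro l
    ext s
    rw [hall, coeff_zero]
  obtain ⟨r₀, hr₀⟩ := K2 q hq0
  have hs₀ : s₀ = 0 := by
    by_contra hs
    have h2 := hqc s₀
    rw [if_pos rfl, hQ1, hr₀, coeff_C, if_neg (Ne.symm hs), map_zero] at h2
    exact zero_ne_one h2
  have hwt0 : ∀ t, S.wt t = 0 → t = 0 := by
    intro t ht
    ext v
    have := Finsupp.le_weight S.ω (S.hω v) t
    unfold wt at ht
    rw [Finsupp.coe_zero, Pi.zero_apply]
    omega
  have hQC : Q = 1 := by
    ext t
    rw [coeff_one]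
    split_ifs with h2
    · rw [← h2, ← hs₀, hQ1]
    · by_contra hcon
      have h3 := key_le _ _ (hQm t hcon)
      rw [hs₀] at h3
      have h4 : S.wt (0 : V →₀ ℕ) = 0 := map_zero _
      rw [h4] at h3
      exact h2 (hwt0 t (by omega)).symm
  rw [hQC] at hQ
  exact h1 hQ

end

section

variable [Fintype Λ] {A : Type} [CommRing A] [Algebra ℚ A] (D : Derivation ℚ A A) (u : Λ → A)

lemma Dc_add (P Q : MvPolynomial V A) : Dc D (P + Q) = Dc D P + Dc D Q := by
  ext s
  rw [coeff_Dc, coeff_add, map_add, coeff_add, coeff_Dc, coeff_Dc]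

lemma Dc_mul_X (P : MvPolynomial V A) (i : V) : Dc D (P * X i) = Dc D P * X i := by
  classical
  ext s
  rw [coeff_Dc, coeff_mul_X', coeff_mul_X', coeff_Dc]
  split_ifs
  · rfl
  · rw [map_zero]

lemma Dc_C (a : A) : Dc (V := V) D (C a) = C (D a) := by
  classical
  ext s
  rw [coeff_Dc, coeff_C, coeff_C]
  split_ifs
  · rfl
  · rw [map_zero]

lemma δ_C (a : A) : S.δ D u (C a) = C (D a) := by
  rw [δ, Dc_C]
  simp [derivation_C]

lemma δ_add (P Q : MvPolynomial V A) : S.δ D u (P + Q) = S.δ D u P + S.δ D u Q := by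
  rw [δ, δ, δ, Dc_add]
  simp only [map_add, mul_add, Finset.sum_add_distrib]
  ring

lemma δ_mul_X (P : MvPolynomial V A) (i : V) :
    S.δ D u (P * X i) = S.δ D u P * X i + P * ∑ l, C (u l) * monomial (S.t l i) (algebraMap ℚ A (S.c l i)) := by
  rw [δ, δ, Dc_mul_X]
  simp only [Derivation.leibniz, smul_eq_mul, mul_add, Finset.sum_add_distrib, dl_X, add_mul, Finset.mul_sum,
    Finset.sum_mul]
  rw [add_assoc]
  congr 1
  rw [add_comm]
  congr 1
  · exact Finset.sum_congr rfl fun l _ => by ring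
  · exact Finset.sum_congr rfl fun l _ => by ring

variable [Countable V] {B : Type} [CommRing B] [Nontrivial B]

/-- injectivity of a differential homomorphism -/
theorem inj [Nontrivial A]
    (H1 : ∀ I : Ideal A, I ≠ ⊥ → (∀ a ∈ I, D a ∈ I) → I = ⊤)
    (H2 : ∀ a, D a = 0 → ∃ r : ℚ, a = algebraMap ℚ A r)
    (H3 : ∀ (c : Λ → ℚ) (h : A), ∑ l, algebraMap ℚ A (c l) * u l = D h → c = 0)
    (K2 : ∀ P : MvPolynomial V ℚ, (∀ l, S.dl ℚ l P = 0) → ∃ r, P = C r)
    (θ : B →+ B) (hθ : ∀ a b, θ (a * b) = θ a * b + a * θ b) (φ : A →+* B) (x : V → B)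
    (hφ : ∀ a, θ (φ a) = φ (D a))
    (hx : ∀ i, θ (x i) = ∑ l, φ (u l) * eval₂ φ x (monomial (S.t l i) (algebraMap ℚ A (S.c l i)))) :
    Function.Injective (eval₂Hom φ x) := by
  have hcomp : ∀ P : MvPolynomial V A, eval₂Hom φ x (S.δ D u P) = θ (eval₂Hom φ x P) := by
    intro P
    induction P using MvPolynomial.induction_on with
    | C a => rw [δ_C, coe_eval₂Hom, eval₂_C, eval₂_C, hφ]
    | add P Q hP hQ => rw [δ_add, map_add, map_add, map_add, hP, hQ]
    | mul_X P i hP =>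
      rw [δ_mul_X, map_add, map_mul, hP, map_mul, map_mul, map_sum, hθ, eval₂Hom_X', hx]
      congr 2
      refine Finset.sum_congr rfl fun l _ => ?_
      rw [map_mul, eval₂Hom_C]
      rfl
  rw [RingHom.injective_iff_ker_eq_bot]
  refine S.triv D u H1 H2 H3 K2 _ (fun P hP => ?_) ?_
  · rw [RingHom.mem_ker] at hP ⊢
    rw [hcomp, hP, map_zero]
  · rw [RingHom.mem_ker, map_one]
    exact one_ne_zero

end

end Letters

end Pool.Agent.W5h65.GS
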