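import Mathlib

/-!
# The ring `ℚ[ξ][w, w⁻¹]`, `w = exp (-κ ξ²)`, as a differential ring
-/

set_option autoImplicit false

open Polynomial

namespace Pool.Agent.W5h65.GS

/-- the ring `ℚ[ξ][w, w⁻¹]` -/
abbrev LA : Type := AddMonoidAlgebra (Polynomial ℚ) ℤ

lemma LA_ext {f g : LA} (h : ∀ n, f.coeff n = g.coeff n) : f = g :=
  AddMonoidAlgebra.coeff_injective (Finsupp.ext h)

/-- the derivative of `p w^n`, divided by `w^n` -/
noncomputable def Dn (κ : ℚ) (n : ℤ) (p : ℚ[X]) : ℚ[X] := derivative p - C (2 * (n : ℚ) * κ) * X * p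

lemma Dn_add (κ : ℚ) (n : ℤ) (p q : ℚ[X]) : Dn κ n (p + q) = Dn κ n p + Dn κ n q := by
  simp only [Dn, map_add]; ring

lemma Dn_zero (κ : ℚ) (n : ℤ) : Dn κ n 0 = 0 := by simp [Dn]

lemma Dn_mul (κ : ℚ) (n m : ℤ) (p q : ℚ[X]) : Dn κ (n + m) (p * q) = p * Dn κ m q + q * Dn κ n p := by
  simp only [Dn, derivative_mul]
  push_cast
  simp only [mul_add, add_mul, map_add]
  ring

lemma poly_key (a c : ℚ) (ha : a ≠ 0) (p : ℚ[X]) (h : derivative p - C a * X * p = C c) : p = 0 := by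
  by_contra hp
  have h1 := congrArg (fun r => coeff r (p.natDegree + 1)) h
  simp only [coeff_sub, coeff_derivative] at h1
  rw [mul_assoc, coeff_C_mul, coeff_X_mul, coeff_C_succ, coeff_eq_zero_of_natDegree_lt (by omega), zero_mul, zero_sub,
    neg_eq_zero] at h1
  rcases mul_eq_zero.1 h1 with h2 | h2
  · exact ha h2
  · exact hp (leadingCoeff_eq_zero.1 h2)

lemma Dn_key (κ : ℚ) (hκ : κ ≠ 0) (n : ℤ) (hn : n ≠ 0) (c : ℚ) (p : ℚ[X]) (h : Dn κ n p = C c) : p = 0 ∧ c = 0 := by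
  have h1 : p = 0 := by
    refine poly_key (2 * (n : ℚ) * κ) c ?_ p h
    have : (n : ℚ) ≠ 0 := by exact_mod_cast hn
    positivity
  refine ⟨h1, ?_⟩
  rw [h1, Dn_zero] at h
  exact (C_eq_zero.1 h.symm)

/-- the derivation of `ℚ[ξ][w, w⁻¹]` as a linear map -/
noncomputable def DL (κ : ℚ) : LA →ₗ[ℚ] LA where
  toFun f := AddMonoidAlgebra.ofCoeff (Finsupp.onFinset f.coeff.support (fun n => Dn κ n (f.coeff n)) (by
    intro n hn
    rw [Finsupp.mem_support_iff]
    intro h0
    apply hn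
    rw [h0, Dn_zero]))
  map_add' f g := by
    refine LA_ext fun n => ?_
    simp [Dn_add]
  map_smul' r f := by
    refine LA_ext fun n => ?_
    simp only [Finsupp.onFinset_apply, AddMonoidAlgebra.coeff_smul, Finsupp.smul_apply, RingHom.id_apply, Dn,
      derivative_smul, mul_smul_comm, smul_sub]

lemma DL_coeff (κ : ℚ) (f : LA) (n : ℤ) : (DL κ f).coeff n = Dn κ n (f.coeff n) := rfl

lemma DL_single (κ : ℚ) (n : ℤ) (p : ℚ[X]) : DL κ (AddMonoidAlgebra.single n p) = AddMonoidAlgebra.single n (Dn κ n p) := by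
  refine LA_ext fun m => ?_
  rw [DL_coeff, AddMonoidAlgebra.coeff_single, AddMonoidAlgebra.coeff_single, Finsupp.single_apply, Finsupp.single_apply]
  split_ifs with h
  · rw [h]
  · rw [Dn_zero]

/-- the derivation of `ℚ[ξ][w, w⁻¹]` -/
noncomputable def DD (κ : ℚ) : Derivation ℚ LA LA :=
  Derivation.mk' (DL κ) (by
    intro f g
    induction f using AddMonoidAlgebra.induction_linear with
    | zero => simp
    | add f f' hf hf' => rw [add_mul, map_add, hf, hf', map_add]; simp only [smul_eq_mul]; ring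
    | single n p =>
      induction g using AddMonoidAlgebra.induction_linear with
      | zero => simp
      | add g g' hg hg' => rw [mul_add, map_add, hg, hg', map_add]; simp only [smul_eq_mul]; ring
      | single m q =>
        rw [AddMonoidAlgebra.single_mul_single, DL_single, DL_single, DL_single, smul_eq_mul, smul_eq_mul,
          AddMonoidAlgebra.single_mul_single, AddMonoidAlgebra.single_mul_single, Dn_mul, AddMonoidAlgebra.single_add,
          add_comm m n])

lemma DD_coeff (κ : ℚ) (f : LA) (n : ℤ) : (DD κ f).coeff n = Dn κ n (f.coeff n) := rfl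

lemma DD_single (κ : ℚ) (n : ℤ) (p : ℚ[X]) : DD κ (AddMonoidAlgebra.single n p) = AddMonoidAlgebra.single n (Dn κ n p) :=
  DL_single κ n p

lemma LA_alg (r : ℚ) : algebraMap ℚ LA r = AddMonoidAlgebra.single 0 (C r) := by
  rw [AddMonoidAlgebra.coe_algebraMap]; rfl

/-- constants -/
theorem LA_H2 (κ : ℚ) (hκ : κ ≠ 0) (a : LA) (h : DD κ a = 0) : ∃ r : ℚ, a = algebraMap ℚ LA r := by
  have h0 : ∀ n, Dn κ n (a.coeff n) = 0 := by
    intro n
    rw [← DD_coeff, h]; rfl
  have h1 : derivative (a.coeff 0) = 0 := by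
    have := h0 0
    simpa [Dn] using this
  obtain ⟨r, hr⟩ := natDegree_eq_zero.1 (derivative_eq_zero.1 h1)
  refine ⟨r, ?_⟩
  rw [LA_alg]
  refine LA_ext fun n => ?_
  rw [AddMonoidAlgebra.coeff_single, Finsupp.single_apply]
  split_ifs with hn
  · rw [← hn, hr]
  · exact (Dn_key κ hκ n (Ne.symm hn) 0 _ (by rw [h0, C_0])).1

/-- `ℚ[ξ][w, w⁻¹]` is differentially simple -/
theorem LA_H1 (κ : ℚ) (hκ : κ ≠ 0) (I : Ideal LA) (hI : I ≠ ⊥) (hD : ∀ a ∈ I, DD κ a ∈ I) : I = ⊤ := by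
  classical
  obtain ⟨a, ha, ha0⟩ := Submodule.exists_mem_ne_zero_of_ne_bot hI
  set K : Set (ℕ ×ₗ ℕ) := {k | ∃ (f : LA) (n : ℤ), f ∈ I ∧ f.coeff n ≠ 0 ∧
    toLex (f.coeff.support.card, (f.coeff n).natDegree) = k} with hK
  have hne : ∀ f : LA, f ≠ 0 → ∃ n, f.coeff n ≠ 0 := by
    intro f hf
    by_contra hcon
    push Not at hcon
    apply hf
    refine LA_ext fun n => ?_
    rw [hcon n]; rfl
  have hKne : K.Nonempty := by
    obtain ⟨n, hn⟩ := hne a ha0
    exact ⟨_, a, n, ha, hn, rfl⟩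
  have hwf : WellFounded (fun a b : ℕ ×ₗ ℕ => a < b) := IsWellFounded.wf
  obtain ⟨k₀, ⟨f, n, hf, hfn, rfl⟩, hmin⟩ := hwf.has_min K hKne
  set g : LA := DD κ f + AddMonoidAlgebra.single 0 (C (2 * (n : ℚ) * κ) * X) * f with hg
  have hgI : g ∈ I := I.add_mem (hD f hf) (I.mul_mem_left _ hf)
  have hgc : ∀ m, g.coeff m = Dn κ (m - n) (f.coeff m) := by
    intro m
    rw [hg, AddMonoidAlgebra.coeff_add, Finsupp.add_apply, DD_coeff, AddMonoidAlgebra.coeff_single_mul_apply]
    simp only [Dn, neg_zero, zero_add]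
    push_cast
    simp only [mul_sub, sub_mul, map_sub]
    ring
  have hgs : ∀ m, g.coeff m ≠ 0 → f.coeff m ≠ 0 := by
    intro m hm h0
    apply hm
    rw [hgc, h0, Dn_zero]
  have hle : g.coeff.support ⊆ f.coeff.support := by
    intro m hm
    rw [Finsupp.mem_support_iff] at hm ⊢
    exact hgs m hm
  have hgn : g.coeff n = derivative (f.coeff n) := by
    rw [hgc]; simp [Dn]
  have h1 : derivative (f.coeff n) = 0 := by
    by_contra hcon
    refine hmin _ ⟨g, n, hgI, by rw [hgn]; exact hcon, rfl⟩ ?_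
    rw [Prod.Lex.lt_iff]
    rcases lt_or_eq_of_le (Finset.card_le_card hle) with h2 | h2
    · exact Or.inl h2
    · refine Or.inr ⟨h2, ?_⟩
      show (g.coeff n).natDegree < (f.coeff n).natDegree
      rw [hgn]
      refine natDegree_derivative_lt ?_
      intro h3
      exact hcon (derivative_of_natDegree_zero h3)
  obtain ⟨c, hc⟩ := natDegree_eq_zero.1 (derivative_eq_zero.1 h1)
  have hg0 : g = 0 := by
    by_contra hcon
    obtain ⟨m, hm⟩ := hne g hcon
    refine hmin _ ⟨g, m, hgI, hm, rfl⟩ ?_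
    rw [Prod.Lex.lt_iff]
    left
    show g.coeff.support.card < f.coeff.support.card
    refine Finset.card_lt_card ⟨hle, fun h2 => ?_⟩
    have h3 := h2 (Finsupp.mem_support_iff.2 hfn)
    rw [Finsupp.mem_support_iff, hgn] at h3
    exact h3 h1
  have hf' : f = AddMonoidAlgebra.single n (C c) := by
    refine LA_ext fun m => ?_
    rw [AddMonoidAlgebra.coeff_single, Finsupp.single_apply]
    split_ifs with hm
    · rw [← hm, hc]
    · have h2 := hgc m
      rw [hg0, AddMonoidAlgebra.coeff_zero, Finsupp.zero_apply] at h2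
      exact (Dn_key κ hκ (m - n) (fun h => hm (by omega)) 0 _ (by rw [← h2, C_0])).1
  have hc0 : c ≠ 0 := by
    rintro rfl
    apply hfn
    rw [← hc, C_0]
  rw [Ideal.eq_top_iff_one]
  have h4 : (1 : LA) = AddMonoidAlgebra.single (-n) (C c⁻¹) * f := by
    rw [hf', AddMonoidAlgebra.single_mul_single, ← C_mul, inv_mul_cancel₀ hc0, neg_add_cancel]
    rfl
  rw [h4]
  exact I.mul_mem_left _ hf

/-- linear combinations of distinct powers of `w` are no derivatives -/
theorem LA_H3 (κ : ℚ) (hκ : κ ≠ 0) {Λ : Type} [Fintype Λ] (e : Λ → ℤ) (γ : Λ → ℚ) (he : Function.Injective e)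
    (he0 : ∀ l, e l ≠ 0) (hγ : ∀ l, γ l ≠ 0) (c : Λ → ℚ) (h : LA)
    (hc : ∑ l, algebraMap ℚ LA (c l) * AddMonoidAlgebra.single (e l) (C (γ l)) = DD κ h) : c = 0 := by
  classical
  funext l₀
  have h1 := congrArg (fun f : LA => f.coeff (e l₀)) hc
  simp only [DD_coeff] at h1
  rw [AddMonoidAlgebra.coeff_sum, Finsupp.finsetSum_apply, Finset.sum_eq_single l₀] at h1
  · rw [LA_alg, AddMonoidAlgebra.single_mul_single, zero_add, ← C_mul, AddMonoidAlgebra.coeff_single,
      Finsupp.single_eq_same] at h1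
    have h2 := (Dn_key κ hκ (e l₀) (he0 l₀) _ _ h1.symm).2
    exact (mul_eq_zero.1 h2).resolve_right (hγ l₀)
  · intro l _ hl
    rw [LA_alg, AddMonoidAlgebra.single_mul_single, zero_add, AddMonoidAlgebra.coeff_single, Finsupp.single_apply, if_neg]
    intro h2
    exact hl (he h2)
  · intro h2; exact absurd (Finset.mem_univ _) h2

end Pool.Agent.W5h65.GS
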