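import Pool.Agent.R352.E.Val

/-!
# The power series `B_j` and `p_j` (coefficients in the parameter of a confluent hypergeometric function)
-/

set_option autoImplicit false

open PowerSeries

namespace Pool.Agent.W5h65.GS

open Pool.Agent.Y113 Pool.Agent.R352.E

/-- elementary symmetric polynomials of `1, 1/2, …, 1/k` -/
def es : ℕ → ℕ → ℚ
  | 0, _ => 1
  | (_ + 1), 0 => 0
  | (j + 1), (k + 1) => es (j + 1) k + es j k / ((k : ℚ) + 1)

/-- the coefficients -/
def bb (j k : ℕ) : ℚ := k.factorial / (2 * k + 1).factorial / 2 ^ j * es j k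

lemma es_zero (k : ℕ) : es 0 k = 1 := by cases k <;> rfl

lemma es_zero_right (j : ℕ) : es j 0 = if j = 0 then 1 else 0 := by cases j <;> rfl

lemma es_bound (j k : ℕ) : 0 ≤ es j k ∧ es j k ≤ k + 1 := by
  induction k generalizing j with
  | zero => rw [es_zero_right]; split_ifs <;> norm_num
  | succ k ih =>
    cases j with
    | zero => rw [es_zero]; push_cast; constructor <;> [norm_num; linarith [show (0 : ℚ) ≤ k by positivity]]
    | succ j =>
      rw [es]
      have h1 := ih (j + 1)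
      have h2 := ih j
      have hk : (0 : ℚ) < (k : ℚ) + 1 := by positivity
      have h3 : es j k / ((k : ℚ) + 1) ≤ 1 := by rw [div_le_one hk]; exact h2.2
      have h4 : 0 ≤ es j k / ((k : ℚ) + 1) := div_nonneg h2.1 hk.le
      push_cast
      constructor <;> linarith [h1.1, h1.2]

lemma bb_zero (j : ℕ) : bb j 0 = if j = 0 then 1 else 0 := by
  rw [bb, es_zero_right]
  split_ifs with h
  · rw [h]; simp
  · simp

lemma fact_rec (k : ℕ) : ((k + 1).factorial : ℚ) / (2 * (k + 1) + 1).factorial * ((2 * k + 2) * (2 * k + 3)) =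
    (k + 1) * (k.factorial / (2 * k + 1).factorial) := by
  have e : 2 * (k + 1) + 1 = 2 * k + 1 + 1 + 1 := by ring
  rw [e, Nat.factorial_succ (2 * k + 1 + 1), Nat.factorial_succ (2 * k + 1), Nat.factorial_succ k]
  have h1 : ((2 * k + 1).factorial : ℚ) ≠ 0 := by exact_mod_cast Nat.factorial_ne_zero _
  have h2 : ((2 : ℚ) * k + 2) ≠ 0 := by positivity
  have h3 : ((2 : ℚ) * k + 3) ≠ 0 := by positivity
  push_cast
  have h4 : ((2 : ℚ) * k + 1 + 1) ≠ 0 := by positivity
  have h5 : ((2 : ℚ) * k + 1 + 1 + 1) ≠ 0 := by positivity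
  field_simp
  ring

lemma bb_rec_zero (k : ℕ) : bb 0 (k + 1) * ((2 * k + 2) * (2 * k + 3)) = (k + 1) * bb 0 k := by
  have h := fact_rec k
  rw [bb, bb, es_zero, es_zero]
  simp only [pow_zero, div_one, mul_one]
  exact h

lemma bb_rec (j k : ℕ) : bb (j + 1) (k + 1) * ((2 * k + 2) * (2 * k + 3)) = (k + 1) * bb (j + 1) k + 1 / 2 * bb j k := by
  have h := fact_rec k
  have hk : ((k : ℚ) + 1) ≠ 0 := by positivity
  have h1 : bb (j + 1) (k + 1) * ((2 * k + 2) * (2 * k + 3)) =
      (((k + 1).factorial : ℚ) / (2 * (k + 1) + 1).factorial * ((2 * k + 2) * (2 * k + 3))) / 2 ^ (j + 1) * es (j + 1) (k + 1) := by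
    rw [bb]; ring
  rw [h1, h, es, bb, bb, pow_succ]
  field_simp

/-- the series `B_j (c X)` -/
noncomputable def BS (c : ℚ) (j : ℕ) : ℚ⟦X⟧ := PowerSeries.mk fun k => bb j k * c ^ k

/-- the series `p_j (c X)` -/
noncomputable def PS (c : ℚ) : ℕ → ℚ⟦X⟧
  | 0 => 1
  | (j + 1) => PowerSeries.mk fun k => match k with
    | 0 => 0
    | (k + 1) => bb j k / (4 * ((k : ℚ) + 1)) * c ^ (k + 1)

lemma coeff_BS (c : ℚ) (j k : ℕ) : coeff k (BS c j) = bb j k * c ^ k := by rw [BS, coeff_mk]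

lemma coeff_PS_zero (c : ℚ) (j : ℕ) : coeff 0 (PS c (j + 1)) = 0 := by rw [PS, coeff_mk]

lemma coeff_PS_succ (c : ℚ) (j k : ℕ) : coeff (k + 1) (PS c (j + 1)) = bb j k / (4 * ((k : ℚ) + 1)) * c ^ (k + 1) := by
  rw [PS, coeff_mk]

lemma deriv_PS (c : ℚ) (j : ℕ) : d⁄dX ℚ (PS c (j + 1)) = C (c / 4) * BS c j := by
  ext k
  rw [coeff_derivative, coeff_PS_succ, coeff_C_mul, coeff_BS]
  have hk : ((k : ℚ) + 1) ≠ 0 := by positivity
  rw [pow_succ]
  field_simp

lemma deriv_BS (c : ℚ) (j : ℕ) : X * d⁄dX ℚ (BS c j) = C (c / 4) * (X * BS c j) - C (1 / 2) * BS c j + C (1 / 2) * PS c j := by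
  ext k
  rcases k with _ | k
  · rw [coeff_zero_X_mul, map_add, map_sub, coeff_C_mul, coeff_C_mul, coeff_C_mul, coeff_zero_X_mul, coeff_BS, bb_zero]
    cases j with
    | zero => simp [PS]
    | succ j => rw [coeff_PS_zero]; simp
  · rw [coeff_succ_X_mul, coeff_derivative, map_add, map_sub, coeff_C_mul, coeff_C_mul, coeff_C_mul, coeff_succ_X_mul,
      coeff_BS, coeff_BS]
    have hk : ((k : ℚ) + 1) ≠ 0 := by positivity
    cases j with
    | zero =>
      have h := bb_rec_zero k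
      have h2 : coeff (k + 1) (PS c 0) = 0 := by rw [PS, coeff_one, if_neg (Nat.succ_ne_zero k)]
      rw [h2]
      have h3 : bb 0 (k + 1) * (2 * k + 3) = 1 / 2 * bb 0 k := by
        have : (k + 1 : ℚ) * (bb 0 (k + 1) * (2 * k + 3)) = (k + 1) * (1 / 2 * bb 0 k) := by linarith
        exact mul_left_cancel₀ hk this
      rw [pow_succ]
      push_cast
      linear_combination (1 / 2 * (c ^ k * c)) * h3
    | succ j =>
      have h := bb_rec j k
      rw [coeff_PS_succ]
      have h3 : bb (j + 1) (k + 1) * (2 * k + 3) = 1 / 2 * bb (j + 1) k + bb j k / (4 * (k + 1)) := by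
        have : (k + 1 : ℚ) * (bb (j + 1) (k + 1) * (2 * k + 3)) = (k + 1) * (1 / 2 * bb (j + 1) k + bb j k / (4 * (k + 1))) := by
          field_simp
          linarith
        exact mul_left_cancel₀ hk this
      rw [pow_succ]
      push_cast
      linear_combination (1 / 2 * (c ^ k * c)) * h3

/-! ## the arithmetic conditions -/

/-- `a! b! / (a + b + 1)!` has denominator dividing `lcm (1, …, n)` -/
lemma beta_int (n : ℕ) : ∀ b a : ℕ, a + b + 1 ≤ n →
    ∃ z : ℤ, (Nat.lcmUpto n : ℚ) * (a.factorial * b.factorial / (a + b + 1).factorial) = z := by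
  intro b
  induction b with
  | zero =>
    intro a ha
    have hd : a + 1 ∣ Nat.lcmUpto n := Finset.dvd_lcm (f := id) (Finset.mem_Icc.2 ⟨by omega, by omega⟩)
    obtain ⟨c, hc⟩ := hd
    refine ⟨c, ?_⟩
    rw [hc, add_zero, Nat.factorial_succ]
    have h1 : (a.factorial : ℚ) ≠ 0 := by exact_mod_cast Nat.factorial_ne_zero _
    have h2 : (a : ℚ) + 1 ≠ 0 := by positivity
    push_cast
    simp only [Nat.factorial_zero, Nat.cast_one, mul_one]
    field_simp
  | succ b ih =>
    intro a ha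
    obtain ⟨z1, h1⟩ := ih a (by omega)
    obtain ⟨z2, h2⟩ := ih (a + 1) (by omega)
    refine ⟨z1 - z2, ?_⟩
    push_cast
    rw [← h1, ← h2, ← mul_sub]
    congr 1
    have e1 : a + (b + 1) + 1 = a + b + 1 + 1 := by ring
    have e2 : a + 1 + b + 1 = a + b + 1 + 1 := by ring
    rw [e1, e2, Nat.factorial_succ (a + b + 1), Nat.factorial_succ a, Nat.factorial_succ b]
    have h3 : ((a + b + 1).factorial : ℚ) ≠ 0 := by exact_mod_cast Nat.factorial_ne_zero _
    have h4 : (a : ℚ) + b + 1 + 1 ≠ 0 := by positivity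
    push_cast
    field_simp
    ring

lemma es_int (n : ℕ) : ∀ j k : ℕ, k ≤ n → ∃ z : ℤ, (Nat.lcmUpto n : ℚ) ^ j * es j k = z := by
  intro j k
  induction k generalizing j with
  | zero =>
    intro _
    rw [es_zero_right]
    split_ifs with h
    · exact ⟨1, by rw [h]; simp⟩
    · exact ⟨0, by simp⟩
  | succ k ih =>
    intro hk
    cases j with
    | zero => exact ⟨1, by rw [es_zero]; simp⟩
    | succ j =>
      obtain ⟨z1, h1⟩ := ih (j + 1) (by omega)
      obtain ⟨z2, h2⟩ := ih j (by omega)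
      have hd : k + 1 ∣ Nat.lcmUpto n := Finset.dvd_lcm (f := id) (Finset.mem_Icc.2 ⟨by omega, by omega⟩)
      obtain ⟨c, hc⟩ := hd
      refine ⟨z1 + z2 * c, ?_⟩
      rw [es, mul_add, h1]
      push_cast
      congr 1
      rw [← h2, pow_succ]
      have h5 : (Nat.lcmUpto n : ℚ) = (k + 1) * c := by rw [hc]; push_cast; ring
      have h6 : (k : ℚ) + 1 ≠ 0 := by positivity
      have h7 : (Nat.lcmUpto n : ℚ) ^ j * (Nat.lcmUpto n : ℚ) * (es j k / (k + 1)) =
          (Nat.lcmUpto n : ℚ) ^ j * es j k * ((Nat.lcmUpto n : ℚ) / (k + 1)) := by ring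
      rw [h7]
      congr 1
      rw [h5]
      field_simp

lemma cf_BS (c : ℚ) (j k : ℕ) : cf k (BS c j) =
    (k.factorial * k.factorial / (k + k + 1).factorial) * es j k * c ^ k / 2 ^ j := by
  rw [cf, coeff_BS, bb]
  have e : 2 * k + 1 = k + k + 1 := by ring
  rw [e]
  ring

lemma fact_le_one (k : ℕ) : ((k.factorial : ℚ) * k.factorial / (k + k + 1).factorial) ≤ 1 := by
  rw [div_le_one (by exact_mod_cast Nat.factorial_pos _)]
  have h1 : k.factorial * k.factorial ≤ (k + k + 1).factorial := by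
    calc k.factorial * k.factorial ≤ (k + k).factorial :=
          Nat.le_of_dvd (Nat.factorial_pos _) (Nat.factorial_mul_factorial_dvd_factorial_add k k)
      _ ≤ _ := Nat.factorial_le (by omega)
  exact_mod_cast h1

/-- the constant for `B_j` and `p_j` -/
noncomputable def CB (m q j : ℕ) : ℝ := (8 * (m + 1) * q * 2 ^ 17) * (2 ^ 8) ^ j * 2 ^ j

lemma CB_one_le {m q j : ℕ} (hq : 1 ≤ q) : 1 ≤ CB m q j := by
  have hq1 : (1 : ℝ) ≤ q := by exact_mod_cast hq
  have hm : (0 : ℝ) ≤ m := by positivity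
  unfold CB
  have h1 : (1 : ℝ) ≤ 8 * (m + 1) := by linarith
  have h2 : (1 : ℝ) ≤ 8 * (m + 1) * q := one_le_mul_of_one_le_of_one_le h1 hq1
  have h3 : (1 : ℝ) ≤ 8 * (m + 1) * q * 2 ^ 17 := one_le_mul_of_one_le_of_one_le h2 (by norm_num)
  have h4 : (1 : ℝ) ≤ 8 * (m + 1) * q * 2 ^ 17 * (2 ^ 8) ^ j :=
    one_le_mul_of_one_le_of_one_le h3 (one_le_pow₀ (by norm_num))
  exact one_le_mul_of_one_le_of_one_le h4 (one_le_pow₀ (by norm_num))

/-- size of the coefficients of `B_j` -/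
lemma size_BS (m q j k : ℕ) (hq : 1 ≤ q) : |((cf k (BS (-(4 * m / q)) j) : ℚ) : ℝ)| ≤ (2 * (4 * m + 1)) ^ k := by
  have hq1 : (1 : ℚ) ≤ q := by exact_mod_cast hq
  have h1 : |cf k (BS (-(4 * m / q)) j)| ≤ (2 * (4 * m + 1) : ℚ) ^ k := by
    rw [cf_BS, abs_div, abs_mul, abs_mul, abs_of_nonneg (by positivity : (0 : ℚ) ≤ 2 ^ j)]
    have e0 := es_bound j k
    have e1 : |(k.factorial : ℚ) * k.factorial / (k + k + 1).factorial| ≤ 1 := by
      rw [abs_of_nonneg (by positivity)]; exact fact_le_one k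
    have e2 : |es j k| ≤ 2 ^ k := by
      rw [abs_of_nonneg e0.1]
      refine e0.2.trans ?_
      have : k + 1 ≤ 2 ^ k := Nat.lt_two_pow_self
      exact_mod_cast this
    have e3 : |(-(4 * m / q : ℚ)) ^ k| ≤ (4 * m + 1) ^ k := by
      rw [abs_pow, abs_neg, abs_of_nonneg (by positivity)]
      refine pow_le_pow_left₀ (by positivity) ?_ k
      calc (4 * m / q : ℚ) ≤ 4 * m := div_le_self (by positivity) hq1
        _ ≤ 4 * m + 1 := by linarith
    refine (div_le_self (by positivity) (one_le_pow₀ (by norm_num))).trans ?_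
    calc |(k.factorial : ℚ) * k.factorial / (k + k + 1).factorial| * |es j k| * |(-(4 * m / q : ℚ)) ^ k|
        ≤ 1 * 2 ^ k * (4 * m + 1) ^ k :=
          mul_le_mul (mul_le_mul e1 e2 (abs_nonneg _) (by norm_num)) e3 (abs_nonneg _) (by positivity)
      _ = _ := by rw [one_mul, mul_pow]
  have h2 : ((|cf k (BS (-(4 * m / q)) j)| : ℚ) : ℝ) ≤ (((2 * (4 * m + 1) : ℚ) ^ k : ℚ) : ℝ) := by exact_mod_cast h1
  push_cast at h2 ⊢
  exact h2

/-- integrality of the coefficients of `B_j` -/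
lemma den_BS (m q j n k : ℕ) (hq : 1 ≤ q) (hk : k ≤ n) : ∃ z : ℤ,
    ((q ^ n * 2 ^ j * Nat.lcmUpto (2 * n + 1) * Nat.lcmUpto n ^ j : ℕ) : ℚ) * cf k (BS (-(4 * m / q)) j) = z := by
  have hq0 : (q : ℚ) ≠ 0 := by exact_mod_cast (by omega : q ≠ 0)
  obtain ⟨z1, h1⟩ := beta_int (2 * n + 1) k k (by omega)
  obtain ⟨z2, h2⟩ := es_int n j k hk
  refine ⟨z1 * z2 * ((-1) ^ k * (4 * m) ^ k * q ^ (n - k)), ?_⟩
  rw [cf_BS]
  have h3 : (q : ℚ) ^ n = q ^ (n - k) * q ^ k := by rw [← pow_add]; congr 1; omega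
  push_cast
  rw [← h1, ← h2, h3, neg_pow, div_pow]
  field_simp

lemma EF_BS (m q j : ℕ) (hq : 1 ≤ q) : EF (BS (-(4 * m / q)) j) := by
  have hq1 : (1 : ℝ) ≤ q := by exact_mod_cast hq
  have hm : (0 : ℝ) ≤ m := by positivity
  have hC1 := CB_one_le (m := m) (j := j) hq
  refine ⟨CB m q j, hC1, fun k => ?_, fun n => ⟨q ^ n * 2 ^ j * Nat.lcmUpto (2 * n + 1) * Nat.lcmUpto n ^ j, ?_, ?_, fun k hk => ?_⟩⟩
  · refine (size_BS m q j k hq).trans ?_
    have h2 : (2 * (4 * m + 1) : ℝ) ≤ CB m q j := by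
      unfold CB
      have h1 : (2 * (4 * m + 1) : ℝ) ≤ 8 * (m + 1) := by linarith
      have h3 : (8 * (m + 1) : ℝ) ≤ 8 * (m + 1) * q := le_mul_of_one_le_right (by positivity) hq1
      have h4 : (8 * (m + 1) * q : ℝ) ≤ 8 * (m + 1) * q * 2 ^ 17 := le_mul_of_one_le_right (by positivity) (by norm_num)
      have h5 : (8 * (m + 1) * q * 2 ^ 17 : ℝ) ≤ 8 * (m + 1) * q * 2 ^ 17 * (2 ^ 8) ^ j :=
        le_mul_of_one_le_right (by positivity) (one_le_pow₀ (by norm_num))
      have h6 : (8 * (m + 1) * q * 2 ^ 17 * (2 ^ 8) ^ j : ℝ) ≤ 8 * (m + 1) * q * 2 ^ 17 * (2 ^ 8) ^ j * 2 ^ j :=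
        le_mul_of_one_le_right (by positivity) (one_le_pow₀ (by norm_num))
      linarith
    calc (2 * (4 * m + 1) : ℝ) ^ k ≤ CB m q j ^ k := pow_le_pow_left₀ (by positivity) h2 k
      _ ≤ CB m q j ^ (k + 1) := pow_le_pow_right₀ hC1 (by omega)
  · have := Nat.lcmUpto_pos (2 * n + 1)
    have := Nat.lcmUpto_pos n
    positivity
  · push_cast
    have h1 := lcm_bound (2 * n + 1)
    have h2 : (Nat.lcmUpto n : ℝ) ^ j ≤ ((2 ^ 8 : ℝ) ^ n) ^ j := pow_le_pow_left₀ (by positivity) (lcm_bound n) j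
    have h3 : (q : ℝ) ^ n ≤ (8 * (m + 1) * q) ^ n := by
      refine pow_le_pow_left₀ (by positivity) ?_ n
      have : (1 : ℝ) ≤ 8 * (m + 1) := by linarith
      exact le_mul_of_one_le_left (by positivity) this
    calc (q : ℝ) ^ n * 2 ^ j * (Nat.lcmUpto (2 * n + 1) : ℝ) * (Nat.lcmUpto n : ℝ) ^ j
        ≤ (8 * (m + 1) * q) ^ n * 2 ^ j * (2 ^ 8) ^ (2 * n + 1) * ((2 ^ 8 : ℝ) ^ n) ^ j := by
          refine mul_le_mul (mul_le_mul (mul_le_mul_of_nonneg_right h3 (by positivity)) h1 (by positivity) (by positivity))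
            h2 (by positivity) (by positivity)
      _ ≤ (8 * (m + 1) * q) ^ (n + 1) * (2 ^ j) ^ (n + 1) * (2 ^ 17) ^ (n + 1) * ((2 ^ 8 : ℝ) ^ j) ^ (n + 1) := by
          have g1 : (8 * (m + 1) * q : ℝ) ^ n ≤ (8 * (m + 1) * q) ^ (n + 1) := by
            refine pow_le_pow_right₀ ?_ (by omega)
            have : (1 : ℝ) ≤ 8 * (m + 1) := by linarith
            exact one_le_mul_of_one_le_of_one_le this hq1
          have g2 : (2 : ℝ) ^ j ≤ (2 ^ j) ^ (n + 1) := by
            rw [← pow_mul]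
            refine pow_le_pow_right₀ (by norm_num) ?_
            exact Nat.le_mul_of_pos_right _ (by omega)
          have g3 : (2 ^ 8 : ℝ) ^ (2 * n + 1) ≤ (2 ^ 17) ^ (n + 1) := by
            rw [← pow_mul, ← pow_mul]
            refine pow_le_pow_right₀ (by norm_num) (by omega)
          have g4 : ((2 ^ 8 : ℝ) ^ n) ^ j ≤ ((2 ^ 8 : ℝ) ^ j) ^ (n + 1) := by
            rw [← pow_mul (2 ^ 8 : ℝ) n j, ← pow_mul (2 ^ 8 : ℝ) j (n + 1)]
            refine pow_le_pow_right₀ (by norm_num) ?_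
            rw [mul_comm]
            exact Nat.mul_le_mul_left _ (by omega)
          exact mul_le_mul (mul_le_mul (mul_le_mul g1 g2 (by positivity) (by positivity)) g3 (by positivity) (by positivity))
            g4 (by positivity) (by positivity)
      _ = CB m q j ^ (n + 1) := by
          unfold CB
          rw [← mul_pow, ← mul_pow, ← mul_pow]
          congr 1
          ring
  · exact den_BS m q j n k hq hk

/-- integration of E-functions, up to a rational factor -/
lemma EF_int {f g : ℚ⟦X⟧} {m q : ℕ} (hq : 1 ≤ q) (hf : EF f) (h0 : coeff 0 g = 0) (h : d⁄dX ℚ g = C (-(m / q : ℚ)) * f) :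
    EF g := by
  obtain ⟨K, hK, h1, h2⟩ := hf
  have hq1 : (1 : ℝ) ≤ q := by exact_mod_cast hq
  have hq0 : (q : ℚ) ≠ 0 := by exact_mod_cast (by omega : q ≠ 0)
  have hm : (0 : ℝ) ≤ m := by positivity
  have hcf0 : cf 0 g = 0 := by rw [cf, h0, mul_zero]
  have hcf : ∀ k, cf (k + 1) g = -(m / q : ℚ) * cf k f := by
    intro k
    have h3 := congrArg (coeff k) h
    rw [coeff_derivative, coeff_C_mul] at h3
    rw [cf, cf, Nat.factorial_succ]
    push_cast
    linear_combination (k.factorial : ℚ) * h3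
  have hle : K ≤ K * (m + 1) * q := by
    have : (1 : ℝ) ≤ (m + 1) * q := one_le_mul_of_one_le_of_one_le (by linarith) hq1
    rw [mul_assoc]
    exact le_mul_of_one_le_right (by linarith) this
  have hC1 : 1 ≤ K * (m + 1) * q := hK.trans hle
  refine ⟨K * (m + 1) * q, hC1, fun k => ?_, fun n => ?_⟩
  · cases k with
    | zero => rw [hcf0]; simp only [Rat.cast_zero, abs_zero]; positivity
    | succ k =>
      rw [hcf]
      push_cast
      rw [abs_mul, abs_neg, abs_of_nonneg (by positivity)]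
      calc (m / q : ℝ) * |((cf k f : ℚ) : ℝ)| ≤ (K * (m + 1) * q) * (K * (m + 1) * q) ^ (k + 1) := by
            refine mul_le_mul ?_ ?_ (abs_nonneg _) (by positivity)
            · calc (m / q : ℝ) ≤ m := div_le_self hm hq1
                _ ≤ 1 * (m + 1) * 1 := by linarith
                _ ≤ K * (m + 1) * q := by
                  refine mul_le_mul (mul_le_mul_of_nonneg_right hK (by positivity)) hq1 (by norm_num) (by positivity)
            · exact (h1 k).trans (pow_le_pow_left₀ (by linarith) hle _)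
        _ = _ := by ring
  · obtain ⟨d, hd0, hd1, hd2⟩ := h2 n
    refine ⟨q * d, by positivity, ?_, fun k hk => ?_⟩
    · push_cast
      calc (q : ℝ) * d ≤ (((m : ℝ) + 1) * q) ^ (n + 1) * K ^ (n + 1) := by
            refine mul_le_mul ?_ hd1 (by positivity) (by positivity)
            calc (q : ℝ) ≤ (m + 1) * q := le_mul_of_one_le_left (by positivity) (by linarith)
              _ ≤ ((m + 1) * q) ^ (n + 1) := le_self_pow₀ (one_le_mul_of_one_le_of_one_le (by linarith) hq1) (by omega)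
        _ = _ := by rw [← mul_pow]; congr 1; ring
    · cases k with
      | zero => exact ⟨0, by rw [hcf0]; simp⟩
      | succ k =>
        obtain ⟨a, ha⟩ := hd2 k (by omega)
        refine ⟨-(m * a), ?_⟩
        rw [hcf]
        push_cast
        rw [← ha]
        field_simp

lemma EF_PS (m q j : ℕ) (hq : 1 ≤ q) : EF (PS (-(4 * m / q)) (j + 1)) := by
  refine EF_int (m := m) (q := q) hq (EF_BS m q j hq) (coeff_PS_zero _ _) ?_
  rw [deriv_PS]
  congr 2
  ring

end Pool.Agent.W5h65.GS
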