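import Pool.Agent.W5h65.GS.K2
import Pool.Agent.W5h65.GS.Laurent
import Pool.Agent.W5h65.GS.Ser

/-!
# Algebraic independence of the functions over `ℚ(X)`
-/

set_option autoImplicit false
set_option linter.unusedSectionVars false

open PowerSeries

namespace Pool.Agent.W5h65.GS

open Pool.Agent.R352.E

/-- the substitution `X ↦ X²` -/
noncomputable def sq : ℚ⟦X⟧ →ₐ[ℚ] ℚ⟦X⟧ := expand 2 two_ne_zero

lemma sq_X : sq X = X ^ 2 := expand_X 2 two_ne_zero

lemma sq_C (a : ℚ) : sq (C a) = C a := expand_C 2 two_ne_zero a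

lemma sq_inj : Function.Injective sq := by
  intro f g h
  ext n
  have h1 := congrArg (coeff (2 * n)) h
  rw [sq, coeff_expand_mul, coeff_expand_mul] at h1
  exact h1

lemma deriv_sq (f : ℚ⟦X⟧) : d⁄dX ℚ (sq f) = C 2 * X * sq (d⁄dX ℚ f) := by
  rw [sq, expand_apply, expand_apply, derivative_subst (HasSubst.X_pow two_ne_zero), Derivation.leibniz_pow,
    derivative_X]
  have h2 : (C 2 : ℚ⟦X⟧) = 2 := map_ofNat C 2
  rw [h2]
  simp
  ring

/-- the unit `exp (-X² / q)` -/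
noncomputable def wU (q : ℕ) : (ℚ⟦X⟧)ˣ where
  val := sq (rescale (-1 / (q : ℚ)) (exp ℚ))
  inv := sq (rescale (1 / (q : ℚ)) (exp ℚ))
  val_inv := by
    rw [← map_mul, exp_mul_exp_eq_exp_add]
    have : (-1 / (q : ℚ) + 1 / q) = 0 := by ring
    rw [this]; simp
  inv_val := by
    rw [← map_mul, exp_mul_exp_eq_exp_add]
    have : (1 / (q : ℚ) + -1 / q) = 0 := by ring
    rw [this]; simp

lemma wU_val (q : ℕ) : (wU q : ℚ⟦X⟧) = sq (wS q) := by
  rw [wS_eq]; rfl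

lemma deriv_rescale_exp (a : ℚ) : d⁄dX ℚ (rescale a (exp ℚ)) = C a * rescale a (exp ℚ) := by
  ext n
  rw [coeff_derivative, coeff_rescale, coeff_C_mul, coeff_rescale, coeff_exp, coeff_exp, Nat.factorial_succ]
  have : (n.factorial : ℚ) ≠ 0 := by exact_mod_cast n.factorial_ne_zero
  have h3 : (n : ℚ) + 1 ≠ 0 := by positivity
  simp only [Algebra.algebraMap_self, RingHom.id_apply]
  push_cast
  rw [pow_succ]
  field_simp

lemma deriv_unit_zpow (u : (ℚ⟦X⟧)ˣ) (g : ℚ⟦X⟧) (h : d⁄dX ℚ (u : ℚ⟦X⟧) = g * u) (n : ℤ) :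
    d⁄dX ℚ ((u ^ n : (ℚ⟦X⟧)ˣ) : ℚ⟦X⟧) = (n : ℚ⟦X⟧) * g * ((u ^ n : (ℚ⟦X⟧)ˣ) : ℚ⟦X⟧) := by
  have hinv : d⁄dX ℚ ((u⁻¹ : (ℚ⟦X⟧)ˣ) : ℚ⟦X⟧) = -g * ((u⁻¹ : (ℚ⟦X⟧)ˣ) : ℚ⟦X⟧) := by
    have h1 : (u : ℚ⟦X⟧) * ((u⁻¹ : (ℚ⟦X⟧)ˣ) : ℚ⟦X⟧) = 1 := u.mul_inv
    have h2 := congrArg (d⁄dX ℚ) h1
    rw [Derivation.leibniz, Derivation.map_one_eq_zero, h, smul_eq_mul, smul_eq_mul] at h2
    have h3 : (u : ℚ⟦X⟧) * (d⁄dX ℚ ((u⁻¹ : (ℚ⟦X⟧)ˣ) : ℚ⟦X⟧)) = (u : ℚ⟦X⟧) * (-g * ((u⁻¹ : (ℚ⟦X⟧)ˣ) : ℚ⟦X⟧)) := by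
      linear_combination h2
    exact u.isUnit.mul_left_cancel h3
  have hnat : ∀ (v : (ℚ⟦X⟧)ˣ) (g : ℚ⟦X⟧), d⁄dX ℚ (v : ℚ⟦X⟧) = g * v → ∀ n : ℕ,
      d⁄dX ℚ ((v : ℚ⟦X⟧) ^ n) = (n : ℚ⟦X⟧) * g * (v : ℚ⟦X⟧) ^ n := by
    intro v g hv n
    induction n with
    | zero => simp
    | succ n ih =>
      rw [pow_succ, Derivation.leibniz, ih, hv, smul_eq_mul, smul_eq_mul]
      push_cast
      ring
  rcases n with n | n
  · have := hnat u g h n
    simpa using this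
  · have := hnat u⁻¹ (-g) hinv (n + 1)
    rw [zpow_negSucc, ← inv_pow, Units.val_pow_eq_pow_val, this]
    push_cast
    ring

lemma deriv_wU (q : ℕ) (n : ℤ) : d⁄dX ℚ ((wU q ^ n : (ℚ⟦X⟧)ˣ) : ℚ⟦X⟧) =
    -(C (2 * (n : ℚ) * (1 / q)) * X) * ((wU q ^ n : (ℚ⟦X⟧)ˣ) : ℚ⟦X⟧) := by
  rw [deriv_unit_zpow (wU q) (-(C (2 * (1 / (q : ℚ))) * X)) ?_ n]
  · have : (n : ℚ⟦X⟧) = C (n : ℚ) := by simp
    rw [this]
    have h2 : C (2 * (n : ℚ) * (1 / q)) = C (n : ℚ) * C (2 * (1 / (q : ℚ))) := by rw [← map_mul]; congr 1; ring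
    rw [h2]
    ring
  · show d⁄dX ℚ (sq (rescale (-1 / (q : ℚ)) (exp ℚ))) = _ * sq (rescale (-1 / (q : ℚ)) (exp ℚ))
    rw [deriv_sq, deriv_rescale_exp, map_mul, sq_C]
    have h2 : C (-1 / (q : ℚ)) = -C (1 / (q : ℚ)) := by rw [← map_neg]; congr 1; ring
    have h3 : C (2 * (1 / (q : ℚ))) = C 2 * C (1 / (q : ℚ)) := by rw [← map_mul]
    rw [h2, h3]
    ring

/-- the homomorphism to power series -/
noncomputable def ph (q : ℕ) : LA →+* ℚ⟦X⟧ :=
  AddMonoidAlgebra.liftNCRingHom (Polynomial.coeToPowerSeries.ringHom)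
    ((Units.coeHom ℚ⟦X⟧).comp (zpowersHom (ℚ⟦X⟧)ˣ (wU q))) (fun _ _ => Commute.all _ _)

lemma ph_single (q : ℕ) (n : ℤ) (p : Polynomial ℚ) :
    ph q (AddMonoidAlgebra.single n p) = (p : ℚ⟦X⟧) * ((wU q ^ n : (ℚ⟦X⟧)ˣ) : ℚ⟦X⟧) := by
  rw [ph, AddMonoidAlgebra.liftNCRingHom_single]
  rfl

lemma ph_DD (q : ℕ) (a : LA) : d⁄dX ℚ (ph q a) = ph q (DD (1 / (q : ℚ)) a) := by
  induction a using AddMonoidAlgebra.induction_linear with
  | zero => simp
  | add f g hf hg => simp only [map_add, hf, hg]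
  | single n p =>
    rw [DD_single, ph_single, ph_single, Derivation.leibniz, deriv_wU, smul_eq_mul, smul_eq_mul, derivative_coe, Dn]
    push_cast
    ring

section

variable {ι : Type} [Fintype ι] [DecidableEq ι] (q : ℕ) (m : ι → ℕ)

/-- the functions -/
noncomputable def xx : Va ι → ℚ⟦X⟧
  | (i, Sum.inl n) => X * ((wU q ^ (-(m i : ℤ)) : (ℚ⟦X⟧)ˣ) : ℚ⟦X⟧) * sq (BS (-(4 * m i / q)) n)
  | (i, Sum.inr n) => sq (PS (-(4 * m i / q)) (n + 1))

/-- exponents of the letters -/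
def ex (l : ι × Bool) : ℤ := if l.2 then -(m l.1 : ℤ) else (m l.1 : ℤ)

/-- scalars of the letters -/
def ga (l : ι × Bool) : ℚ := if l.2 then 1 else -(2 * m l.1 / q)

/-- coefficients of the letters -/
noncomputable def uc (l : ι × Bool) : LA := AddMonoidAlgebra.single (ex m l) (Polynomial.C (ga q m l))

lemma pE_prod (i : ι) (n : ℕ) :
    ((pE i n).prod fun v k => xx q m v ^ k) = sq (PS (-(4 * m i / q)) n) := by
  cases n with
  | zero => simp [pE, PS]
  | succ n => simp [pE, xx]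

theorem ev_inj (hq : 1 ≤ q) (hinj : Function.Injective m) (hpos : ∀ i, 1 ≤ m i) :
    Function.Injective (MvPolynomial.eval₂Hom (ph q) (xx q m)) := by
  classical
  have hq0 : (q : ℚ) ≠ 0 := by exact_mod_cast (by omega : q ≠ 0)
  have hκ : (1 / (q : ℚ)) ≠ 0 := one_div_ne_zero hq0
  have he : Function.Injective (ex m) := by
    rintro ⟨i, b⟩ ⟨j, b'⟩ h
    have h1 := hpos i
    have h2 := hpos j
    cases b <;> cases b' <;> simp [ex] at h <;> first | omega | (simp only [Prod.mk.injEq, and_true]; exact hinj h)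
  have he0 : ∀ l, ex m l ≠ 0 := by
    rintro ⟨i, b⟩ h
    have h1 := hpos i
    cases b <;> simp [ex] at h <;> omega
  have hγ : ∀ l, ga q m l ≠ 0 := by
    rintro ⟨i, b⟩ h
    have h1 : (m i : ℚ) ≠ 0 := by exact_mod_cast (by have := hpos i; omega : m i ≠ 0)
    cases b <;> simp [ga] at h
    rcases h with h | h
    · exact (by have := hpos i; omega : m i ≠ 0) h
    · omega
  refine Letters.inj (LT (ι := ι)) (DD (1 / (q : ℚ))) (uc q m) (LA_H1 _ hκ) (LA_H2 _ hκ)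
    (fun c h hc => LA_H3 _ hκ (ex m) (ga q m) he he0 hγ c h hc) K2 ((d⁄dX ℚ).toLinearMap.toAddMonoidHom) ?_
    (ph q) (xx q m) (fun a => ph_DD q a) ?_
  · intro a b
    show d⁄dX ℚ (a * b) = d⁄dX ℚ a * b + a * d⁄dX ℚ b
    rw [Derivation.leibniz, smul_eq_mul, smul_eq_mul]
    ring
  · rintro ⟨i, n | n⟩
    · show d⁄dX ℚ (xx q m (i, Sum.inl n)) = _
      rw [Finset.sum_eq_single (i, true)]
      · rw [MvPolynomial.eval₂_monomial]
        have e1 : (LT (ι := ι)).c (i, true) (i, Sum.inl n) = 1 := by simp [LT]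
        have e2 : (LT (ι := ι)).t (i, true) (i, Sum.inl n) = pE i n := by simp [LT]
        rw [e1, e2, map_one, map_one, one_mul, pE_prod, uc, ph_single]
        have e3 : ex m (i, true) = -(m i : ℤ) := by simp [ex]
        have e4 : ga q m (i, true) = 1 := by simp [ga]
        rw [e3, e4]
        have h1 := congrArg sq (deriv_BS (-(4 * m i / q)) n)
        rw [map_mul, map_add, map_sub, map_mul, map_mul, map_mul, map_mul, sq_X, sq_C, sq_C] at h1
        rw [xx, Derivation.leibniz, Derivation.leibniz, deriv_wU, deriv_sq, derivative_X]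
        simp only [smul_eq_mul]
        have e6 : C (2 * ((-(m i : ℤ) : ℤ) : ℚ) * (1 / (q : ℚ))) = C 2 * C (-(4 * m i / q) / 4 : ℚ) := by
          rw [← map_mul]; congr 1; push_cast; ring
        have e7 : (C 2 : ℚ⟦X⟧) * C (1 / 2) = 1 := by rw [← map_mul]; norm_num
        rw [e6]
        simp only [Polynomial.C_1, Polynomial.coe_one, one_mul, mul_one]
        linear_combination (C 2 * ((wU q ^ (-(m i : ℤ)) : (ℚ⟦X⟧)ˣ) : ℚ⟦X⟧)) * h1 +
          (((wU q ^ (-(m i : ℤ)) : (ℚ⟦X⟧)ˣ) : ℚ⟦X⟧) * (sq (PS (-(4 * m i / q)) n) - sq (BS (-(4 * m i / q)) n))) * e7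
      · rintro ⟨j, b⟩ _ hb
        have e1 : (LT (ι := ι)).c (j, b) (i, Sum.inl n) = 0 := by
          cases b
          · simp [LT]
          · have : j ≠ i := fun h => hb (by rw [h])
            simp [LT, this]
        rw [e1]; simp
      · intro h; exact absurd (Finset.mem_univ _) h
    · show d⁄dX ℚ (xx q m (i, Sum.inr n)) = _
      rw [Finset.sum_eq_single (i, false)]
      · rw [MvPolynomial.eval₂_monomial]
        have e1 : (LT (ι := ι)).c (i, false) (i, Sum.inr n) = 1 := by simp [LT]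
        have e2 : (LT (ι := ι)).t (i, false) (i, Sum.inr n) = Finsupp.single (i, Sum.inl n) 1 := by simp [LT]
        have e8 : (Finsupp.single ((i, Sum.inl n) : Va ι) 1).prod (fun v k => xx q m v ^ k) = xx q m (i, Sum.inl n) := by
          simp
        rw [e1, e2, map_one, map_one, one_mul, e8, uc, ph_single]
        have e3 : ex m (i, false) = (m i : ℤ) := by simp [ex]
        have e4 : ga q m (i, false) = -(2 * m i / q) := by simp [ga]
        rw [e3, e4, xx, xx, deriv_sq, deriv_PS, map_mul, sq_C, zpow_neg]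
        have e5 : ((wU q ^ (m i : ℤ) : (ℚ⟦X⟧)ˣ) : ℚ⟦X⟧) * (((wU q ^ (m i : ℤ))⁻¹ : (ℚ⟦X⟧)ˣ) : ℚ⟦X⟧) = 1 := Units.mul_inv _
        have e6 : (C (-(2 * m i / q) : ℚ) : ℚ⟦X⟧) = C 2 * C (-(4 * m i / q) / 4 : ℚ) := by
          rw [← map_mul]; congr 1; ring
        rw [Polynomial.coe_C, e6]
        linear_combination (-(C 2 * C (-(4 * m i / q) / 4 : ℚ) * X * sq (BS (-(4 * m i / q)) n))) * e5
      · rintro ⟨j, b⟩ _ hb
        have e1 : (LT (ι := ι)).c (j, b) (i, Sum.inr n) = 0 := by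
          cases b
          · have : j ≠ i := fun h => hb (by rw [h])
            simp [LT, this]
          · simp [LT]
        rw [e1]; simp
      · intro h; exact absurd (Finset.mem_univ _) h

/-- the family of E-functions -/
noncomputable def ff : Option (Va ι) → ℚ⟦X⟧
  | none => wS q
  | some (i, Sum.inl n) => BS (-(4 * m i / q)) n
  | some (i, Sum.inr n) => PS (-(4 * m i / q)) (n + 1)

/-- degree in the `B` -/
def gv : Va ι → ℕ
  | (_, Sum.inl _) => 1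
  | (_, Sum.inr _) => 0

/-- exponential weight -/
def mv : Va ι → ℕ
  | (i, Sum.inl _) => m i
  | (_, Sum.inr _) => 0

lemma ff_xx (v : Va ι) : X ^ gv v * sq (ff q m (some v)) = (wU q : ℚ⟦X⟧) ^ mv m v * xx q m v := by
  rcases v with ⟨i, n | n⟩
  · have e5 : ((wU q ^ (m i : ℤ) : (ℚ⟦X⟧)ˣ) : ℚ⟦X⟧) * (((wU q ^ (m i : ℤ))⁻¹ : (ℚ⟦X⟧)ˣ) : ℚ⟦X⟧) = 1 := Units.mul_inv _
    have e6 : (wU q : ℚ⟦X⟧) ^ m i = ((wU q ^ (m i : ℤ) : (ℚ⟦X⟧)ˣ) : ℚ⟦X⟧) := by simp
    simp only [gv, ff, mv, xx, pow_one, zpow_neg]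
    rw [e6]
    linear_combination (-(X * sq (BS (-(4 * m i / q)) n))) * e5
  · simp [gv, ff, mv, xx]

lemma prod_ff_xx (s : Va ι →₀ ℕ) : X ^ (s.sum fun v n => gv v * n) * sq (s.prod fun v n => ff q m (some v) ^ n) =
    (wU q : ℚ⟦X⟧) ^ (s.sum fun v n => mv m v * n) * s.prod fun v n => xx q m v ^ n := by
  rw [Finsupp.sum, Finsupp.sum, Finsupp.prod, Finsupp.prod, ← Finset.prod_pow_eq_pow_sum, ← Finset.prod_pow_eq_pow_sum,
    map_prod, ← Finset.prod_mul_distrib, ← Finset.prod_mul_distrib]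
  refine Finset.prod_congr rfl fun v _ => ?_
  rw [map_pow, pow_mul, pow_mul, ← mul_pow, ← mul_pow, ff_xx]

lemma sq_coe (p : Polynomial ℚ) : sq (p : ℚ⟦X⟧) = ((Polynomial.expand ℚ 2 p : Polynomial ℚ) : ℚ⟦X⟧) := by
  induction p using Polynomial.induction_on' with
  | add p q hp hq => rw [Polynomial.coe_add, map_add, hp, hq, map_add, Polynomial.coe_add]
  | monomial n a =>
    rw [Polynomial.coe_monomial, Polynomial.expand_monomial, Polynomial.coe_monomial, sq, expand_monomial, mul_comm]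

lemma mon_option (s : Option (Va ι) →₀ ℕ) :
    mon (ff q m) s = wS q ^ s none * s.some.prod fun v n => ff q m (some v) ^ n := by
  rw [mon, MvPolynomial.aeval_monomial, map_one, one_mul, Finsupp.prod_option_index]
  · rfl
  · intro o; rw [pow_zero]
  · intro o a b; rw [pow_add]

/-- linear independence of the monomials over `ℚ[X]` -/
theorem mon_indep (hq : 1 ≤ q) (hinj : Function.Injective m) (hpos : ∀ i, 1 ≤ m i) :
    LinearIndependent (Polynomial ℚ) (fun s : Option (Va ι) →₀ ℕ => mon (ff q m) s) := by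
  classical
  rw [linearIndependent_iff']
  intro T g hg s₀ hs₀
  set gd : (Option (Va ι) →₀ ℕ) → ℕ := fun s => s.some.sum fun v n => gv v * n with hgd
  set md : (Option (Va ι) →₀ ℕ) → ℕ := fun s => s.some.sum fun v n => mv m v * n with hmd
  set d : ℕ := T.sup gd with hd
  have hle : ∀ s ∈ T, gd s ≤ d := fun s hs => Finset.le_sup hs
  set Q : MvPolynomial (Va ι) LA := ∑ s ∈ T, MvPolynomial.monomial s.some
    (AddMonoidAlgebra.single ((s none + md s : ℕ) : ℤ) (Polynomial.expand ℚ 2 (g s) * Polynomial.X ^ (d - gd s))) with hQ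
  have hQ0 : MvPolynomial.eval₂Hom (ph q) (xx q m) Q = 0 := by
    have h1 : X ^ d * sq (∑ s ∈ T, g s • mon (ff q m) s) = 0 := by rw [hg, map_zero, mul_zero]
    rw [hQ, map_sum, ← h1, map_sum, Finset.mul_sum]
    refine Finset.sum_congr rfl fun s hs => ?_
    rw [MvPolynomial.coe_eval₂Hom, MvPolynomial.eval₂_monomial, ph_single, Algebra.smul_def]
    have e1 : algebraMap (Polynomial ℚ) ℚ⟦X⟧ (g s) = (g s : ℚ⟦X⟧) := rfl
    rw [e1, map_mul, sq_coe, mon_option, map_mul, map_pow, ← wU_val]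
    have h2 := prod_ff_xx q m s.some
    have e2 : (X : ℚ⟦X⟧) ^ d = X ^ (d - gd s) * X ^ gd s := by rw [← pow_add]; congr 1; have := hle s hs; omega
    rw [e2, zpow_natCast, Units.val_pow_eq_pow_val, pow_add, Polynomial.coe_mul, Polynomial.coe_pow, Polynomial.coe_X]
    linear_combination (-(X ^ (d - gd s) * ((Polynomial.expand ℚ 2 (g s) : Polynomial ℚ) : ℚ⟦X⟧) * (wU q : ℚ⟦X⟧) ^ s none)) * h2
  have hQ1 : Q = 0 := ev_inj q m hq hinj hpos (hQ0.trans (map_zero _).symm)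
  have h3 := congrArg (fun P : MvPolynomial (Va ι) LA => (MvPolynomial.coeff s₀.some P).coeff ((s₀ none + md s₀ : ℕ) : ℤ)) hQ1
  simp only [MvPolynomial.coeff_zero, AddMonoidAlgebra.coeff_zero, Finsupp.coe_zero, Pi.zero_apply] at h3
  rw [hQ, MvPolynomial.coeff_sum, AddMonoidAlgebra.coeff_sum, Finsupp.finsetSum_apply, Finset.sum_eq_single_of_mem s₀ hs₀] at h3
  · rw [MvPolynomial.coeff_monomial, if_pos rfl, AddMonoidAlgebra.coeff_single, Finsupp.single_eq_same] at h3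
    have h4 := (mul_eq_zero.1 h3).resolve_right (pow_ne_zero _ Polynomial.X_ne_zero)
    exact (Polynomial.expand_eq_zero (by norm_num)).1 h4
  · intro s _ hss
    rw [MvPolynomial.coeff_monomial]
    split_ifs with h4
    · rw [AddMonoidAlgebra.coeff_single, Finsupp.single_apply, if_neg]
      intro h5
      apply hss
      have h6 : md s = md s₀ := by simp only [hmd, h4]
      have h7 : s none = s₀ none := by
        have : (s none + md s) = (s₀ none + md s₀) := by exact_mod_cast h5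
        omega
      ext o
      rcases o with _ | v
      · exact h7
      · have := DFunLike.congr_fun h4 v
        simpa using this
    · rfl

end

end Pool.Agent.W5h65.GS
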