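import Pool.Agent.W5h65.GS.Ideal

/-!
# The letters of the Gaussian system, and their common constants
-/

set_option autoImplicit false
set_option linter.unusedSectionVars false

open MvPolynomial

namespace Pool.Agent.W5h65.GS

section

variable (ι : Type)

/-- the variables: `(i, inl n)` is `G_{i,n}` and `(i, inr n)` is `p_{i,n+1}` -/
abbrev Va : Type := ι × (ℕ ⊕ ℕ)

variable {ι}

/-- the exponent of `p_{i,n}` -/
noncomputable def pE (i : ι) : ℕ → (Va ι →₀ ℕ)
  | 0 => 0
  | (n + 1) => Finsupp.single (i, Sum.inr n) 1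

/-- the weights -/
def om : Va ι → ℕ
  | (_, Sum.inl n) => 2 * n + 1
  | (_, Sum.inr n) => 2 * n + 2

variable [DecidableEq ι]

/-- the letters: `(i, true)` sends `G_{i,n}` to `p_{i,n}` and `(i, false)` sends `p_{i,n+1}` to `G_{i,n}` -/
noncomputable def LT : Letters (Va ι) (ι × Bool) where
  ω := om
  c l v := match l, v with
    | (i, true), (j, Sum.inl _) => if i = j then 1 else 0
    | (i, false), (j, Sum.inr _) => if i = j then 1 else 0
    | (_, true), (_, Sum.inr _) => 0
    | (_, false), (_, Sum.inl _) => 0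
  t l v := match l, v with
    | (_, true), (j, Sum.inl n) => pE j n
    | (_, false), (j, Sum.inr n) => Finsupp.single (j, Sum.inl n) 1
    | (_, true), (_, Sum.inr _) => 0
    | (_, false), (_, Sum.inl _) => 0
  hω := by
    rintro ⟨i, n | n⟩ <;> simp [om]
  h := by
    rintro ⟨i, b⟩ ⟨j, n | n⟩ hc <;> cases b <;> simp at hc ⊢
    · cases n with
      | zero => simp [pE, om]
      | succ n =>
        rw [pE, Finsupp.weight_single]
        simp [om]
        ring
    · rw [Finsupp.weight_single]
      simp [om]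

/-- `p_n` -/
noncomputable def pp (i : ι) : ℕ → MvPolynomial (Va ι) ℚ
  | 0 => 1
  | (n + 1) => X (i, Sum.inr n)

/-- `G_n` -/
noncomputable def gg (i : ι) (n : ℕ) : MvPolynomial (Va ι) ℚ := X (i, Sum.inl n)

/-- shifts -/
noncomputable def sh (g : ℕ → MvPolynomial (Va ι) ℚ) (k n : ℕ) : MvPolynomial (Va ι) ℚ := if k ≤ n then g (n - k) else 0

/-- the operators `E_k = ∑ p_j ∂_{G_{j+k}}` -/
noncomputable def Ek (i : ι) (k : ℕ) : Derivation ℚ (MvPolynomial (Va ι) ℚ) (MvPolynomial (Va ι) ℚ) :=
  mkDerivation ℚ fun v => match v with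
    | (j, Sum.inl n) => if i = j then sh (pp i) k n else 0
    | (_, Sum.inr _) => 0

/-- the operators `H_k = ∑ (p_j ∂_{p_{j+k}} - G_j ∂_{G_{j+k}})`, `k ≥ 1` -/
noncomputable def Hk (i : ι) (k : ℕ) : Derivation ℚ (MvPolynomial (Va ι) ℚ) (MvPolynomial (Va ι) ℚ) :=
  mkDerivation ℚ fun v => match v with
    | (j, Sum.inl n) => if i = j then -sh (gg i) k n else 0
    | (j, Sum.inr n) => if i = j then sh (pp i) k (n + 1) else 0

/-- the operator `F_1 = ∑ G_j ∂_{p_{j+1}}` -/
noncomputable def Fk (i : ι) : Derivation ℚ (MvPolynomial (Va ι) ℚ) (MvPolynomial (Va ι) ℚ) :=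
  mkDerivation ℚ fun v => match v with
    | (_, Sum.inl _) => 0
    | (j, Sum.inr n) => if i = j then gg i n else 0

lemma dl_true (i : ι) : (LT (ι := ι)).dl ℚ (i, true) = Ek i 0 := by
  apply derivation_ext
  rintro ⟨j, n | n⟩
  · rw [Letters.dl_X, Ek, mkDerivation_X]
    by_cases h : i = j
    · subst h
      simp only [LT, if_true, sh, Nat.zero_le, Nat.sub_zero]
      cases n with
      | zero => simp [pE, pp]
      | succ n => simp [pE, pp, X]
    · simp [LT, h]
  · rw [Letters.dl_X, Ek, mkDerivation_X]
    simp [LT]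

lemma dl_false (i : ι) : (LT (ι := ι)).dl ℚ (i, false) = Fk i := by
  apply derivation_ext
  rintro ⟨j, n | n⟩
  · rw [Letters.dl_X, Fk, mkDerivation_X]
    simp [LT]
  · rw [Letters.dl_X, Fk, mkDerivation_X]
    by_cases h : i = j
    · subst h
      simp [LT, gg, X]
    · simp [LT, h]

lemma Fk_pp (i : ι) (n : ℕ) : Fk i (pp i n) = sh (gg i) 1 n := by
  cases n with
  | zero => simp [pp, sh]
  | succ n => rw [pp, Fk, mkDerivation_X]; simp [sh]

lemma Fk_gg (i : ι) (n : ℕ) : Fk i (gg i n) = 0 := by rw [gg, Fk, mkDerivation_X]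

lemma Ek_pp (i : ι) (k n : ℕ) : Ek i k (pp i n) = 0 := by
  cases n with
  | zero => simp [pp]
  | succ n => rw [pp, Ek, mkDerivation_X]

lemma Ek_gg (i : ι) (k n : ℕ) : Ek i k (gg i n) = sh (pp i) k n := by rw [gg, Ek, mkDerivation_X]; simp

lemma Hk_pp (i : ι) (k n : ℕ) (hk : 1 ≤ k) : Hk i k (pp i n) = sh (pp i) k n := by
  cases n with
  | zero => rw [pp, Derivation.map_one_eq_zero, sh, if_neg (by omega)]
  | succ n => rw [pp, Hk, mkDerivation_X]; simp

lemma Hk_gg (i : ι) (k n : ℕ) : Hk i k (gg i n) = -sh (gg i) k n := by rw [gg, Hk, mkDerivation_X]; simp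

lemma sh_sh (g : ℕ → MvPolynomial (Va ι) ℚ) (k m n : ℕ) (hk : m ≤ n) : sh g k (n - m) = sh g (k + m) n := by
  unfold sh
  by_cases h : k + m ≤ n
  · rw [if_pos h, if_pos (by omega)]
    congr 1; omega
  · rw [if_neg h, if_neg (by omega)]

lemma br1 (i : ι) (k : ℕ) : ⁅Ek i k, Fk i⁆ = Hk i (k + 1) := by
  apply derivation_ext
  rintro ⟨j, n | n⟩
  · rw [Derivation.commutator_apply]
    by_cases h : i = j
    · subst h
      have e1 : Fk i (X (i, Sum.inl n)) = 0 := Fk_gg i n
      have e2 : Ek i k (X (i, Sum.inl n)) = sh (pp i) k n := Ek_gg i k n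
      have e3 : Hk i (k + 1) (X (i, Sum.inl n)) = -sh (gg i) (k + 1) n := Hk_gg i (k + 1) n
      rw [e1, e2, e3, map_zero, zero_sub, neg_inj]
      by_cases hk : k ≤ n
      · rw [sh, if_pos hk, Fk_pp, sh_sh _ _ _ _ hk, add_comm]
      · rw [sh, if_neg hk, map_zero, sh, if_neg (by omega)]
    · simp [Ek, Fk, Hk, h]
  · rw [Derivation.commutator_apply]
    by_cases h : i = j
    · subst h
      have e1 : Fk i (X (i, Sum.inr n)) = gg i n := by rw [Fk, mkDerivation_X]; simp
      have e2 : Ek i k (X (i, Sum.inr n)) = 0 := Ek_pp i k (n + 1)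
      have e3 : Hk i (k + 1) (X (i, Sum.inr n)) = sh (pp i) (k + 1) (n + 1) := Hk_pp i (k + 1) (n + 1) (by omega)
      rw [e1, e2, e3, map_zero, sub_zero, Ek_gg]
      have := sh_sh (pp i) k 1 (n + 1) (by omega)
      rw [Nat.add_sub_cancel] at this
      exact this
    · simp [Ek, Fk, Hk, h]

lemma br2 (i : ι) (k : ℕ) : ⁅Hk i 1, Ek i k⁆ = (2 : ℚ) • Ek i (k + 1) := by
  apply derivation_ext
  rintro ⟨j, n | n⟩
  · rw [Derivation.commutator_apply, Derivation.smul_apply]
    by_cases h : i = j
    · subst h
      have e2 : ∀ k, Ek i k (X (i, Sum.inl n)) = sh (pp i) k n := fun k => Ek_gg i k n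
      have e3 : Hk i 1 (X (i, Sum.inl n)) = -sh (gg i) 1 n := Hk_gg i 1 n
      rw [e2, e2, e3, map_neg, sub_neg_eq_add, two_smul]
      congr 1
      · by_cases hk : k ≤ n
        · rw [sh, if_pos hk, Hk_pp _ _ _ le_rfl, sh_sh _ _ _ _ hk, add_comm]
        · rw [sh, if_neg hk, map_zero, sh, if_neg (by omega)]
      · by_cases hk : 1 ≤ n
        · rw [sh, if_pos hk, Ek_gg, sh_sh _ _ _ _ hk]
        · rw [sh, if_neg hk, map_zero, sh, if_neg (by omega)]
    · simp [Ek, Hk, h]
  · rw [Derivation.commutator_apply, Derivation.smul_apply]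
    by_cases h : i = j
    · subst h
      have e2 : ∀ k, Ek i k (X (i, Sum.inr n)) = 0 := fun k => Ek_pp i k (n + 1)
      have e3 : Hk i 1 (X (i, Sum.inr n)) = sh (pp i) 1 (n + 1) := Hk_pp i 1 (n + 1) le_rfl
      rw [e2, e2, e3, map_zero, smul_zero, sh, if_pos (by omega), Ek_pp, sub_zero]
    · simp [Ek, Hk, h]

lemma sum_apply' {V : Type} (s : Finset V) (D : V → Derivation ℚ (MvPolynomial V ℚ) (MvPolynomial V ℚ))
    (P : MvPolynomial V ℚ) : (∑ v ∈ s, D v) P = ∑ v ∈ s, D v P := by
  classical
  induction s using Finset.induction_on with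
  | empty => simp
  | insert a s ha ih => rw [Finset.sum_insert ha, Finset.sum_insert ha, Derivation.add_apply, ih]

/-- a derivation applied to a polynomial -/
lemma deriv_sum {V : Type} (d : Derivation ℚ (MvPolynomial V ℚ) (MvPolynomial V ℚ)) (P : MvPolynomial V ℚ) :
    d P = ∑ v ∈ P.vars, d (X v) * pderiv v P := by
  classical
  have h1 : d P = (∑ v ∈ P.vars, d (X v) • pderiv (R := ℚ) v) P := by
    apply derivation_eq_of_forall_mem_vars
    intro w hw
    rw [sum_apply', Finset.sum_eq_single w]
    · rw [Derivation.smul_apply, pderiv_X_self]; simp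
    · intro v _ hv
      rw [Derivation.smul_apply, pderiv_X_of_ne hv.symm]; simp
    · intro h; exact absurd hw h
  rw [h1, sum_apply']
  rfl

lemma deriv_single {V : Type} (d : Derivation ℚ (MvPolynomial V ℚ) (MvPolynomial V ℚ)) (P : MvPolynomial V ℚ) (w : V)
    (hw : d (X w) = 1) (h : ∀ v, v ≠ w → d (X v) = 0 ∨ pderiv v P = 0) (hd : d P = 0) : pderiv w P = 0 := by
  classical
  by_cases hwv : w ∈ P.vars
  · rw [deriv_sum, Finset.sum_eq_single_of_mem w hwv, hw, one_mul] at hd
    · exact hd
    · intro v _ hv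
      rcases h v hv with h1 | h1
      · rw [h1, zero_mul]
      · rw [h1, mul_zero]
  · exact pderiv_eq_zero_of_notMem_vars hwv

lemma const_of_pderiv {V : Type} (P : MvPolynomial V ℚ) (h : ∀ v, pderiv v P = 0) : ∃ r, P = C r := by
  classical
  refine ⟨coeff 0 P, ?_⟩
  ext s
  rw [coeff_C]
  split_ifs with hs
  · rw [hs]
  · obtain ⟨v, hv⟩ : ∃ v, s v ≠ 0 := by
      by_contra hcon
      push Not at hcon
      exact hs (Finsupp.ext fun v => (hcon v).symm)
    have h1 := congrArg (coeff (s - Finsupp.single v 1)) (h v)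
    rw [coeff_pderiv, Finsupp.sub_add_single_one_cancel hv, coeff_zero] at h1
    have h2 : (((s - Finsupp.single v 1 : V →₀ ℕ) v : ℚ) + 1) ≠ 0 := by positivity
    exact (mul_eq_zero.1 h1).resolve_right h2

/-- the common constants of the letters are the constants -/
theorem K2 (P : MvPolynomial (Va ι) ℚ) (hP : ∀ l, (LT (ι := ι)).dl ℚ l P = 0) : ∃ r, P = C r := by
  apply const_of_pderiv
  have key : ∀ i : ι, ∀ n, pderiv (i, Sum.inl n) P = 0 ∧ pderiv (i, Sum.inr n) P = 0 := by
    intro i
    have hE0 : Ek i 0 P = 0 := by rw [← dl_true]; exact hP _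
    have hF : Fk i P = 0 := by rw [← dl_false]; exact hP _
    have hH1 : Hk i 1 P = 0 := by
      rw [← br1 i 0, Derivation.commutator_apply, hE0, hF, map_zero, map_zero, sub_zero]
    have hE : ∀ k, Ek i k P = 0 := by
      intro k
      induction k with
      | zero => exact hE0
      | succ k ih =>
        have h1 : (2 : ℚ) • Ek i (k + 1) P = 0 := by
          rw [← Derivation.smul_apply, ← br2, Derivation.commutator_apply, ih, hH1, map_zero, map_zero, sub_zero]
        exact (smul_eq_zero.1 h1).resolve_left (by norm_num)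
    have hH : ∀ k, Hk i (k + 1) P = 0 := by
      intro k
      rw [← br1 i k, Derivation.commutator_apply, hE, hF, map_zero, map_zero, sub_zero]
    obtain ⟨M, hM⟩ : ∃ M, ∀ n ≥ M, pderiv (i, Sum.inl n) P = 0 ∧ pderiv (i, Sum.inr n) P = 0 := by
      classical
      refine ⟨P.vars.sup (fun v => Sum.elim id id v.2) + 1, fun n hn => ⟨?_, ?_⟩⟩
      · apply pderiv_eq_zero_of_notMem_vars
        intro h
        have := Finset.le_sup (f := fun v : Va ι => Sum.elim id id v.2) h
        simp only [Sum.elim_inl, id] at this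
        omega
      · apply pderiv_eq_zero_of_notMem_vars
        intro h
        have := Finset.le_sup (f := fun v : Va ι => Sum.elim id id v.2) h
        simp only [Sum.elim_inr, id] at this
        omega
    have step : ∀ k, (∀ n ≥ k + 1, pderiv (i, Sum.inl n) P = 0 ∧ pderiv (i, Sum.inr n) P = 0) →
        ∀ n ≥ k, pderiv (i, Sum.inl n) P = 0 ∧ pderiv (i, Sum.inr n) P = 0 := by
      intro k hk
      have h1 : pderiv (i, Sum.inl k) P = 0 := by
        refine deriv_single (Ek i k) P _ ?_ ?_ (hE k)
        · rw [Ek, mkDerivation_X]; simp [sh, pp]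
        · rintro ⟨j, n | n⟩ hv
          · by_cases h : i = j
            · subst h
              rcases lt_trichotomy n k with hn | hn | hn
              · left
                rw [Ek, mkDerivation_X]
                simp only [if_true, sh]
                rw [if_neg (by omega)]
              · exact absurd (by rw [hn]) hv
              · right; exact (hk n hn).1
            · left; rw [Ek, mkDerivation_X]; simp [h]
          · left; rw [Ek, mkDerivation_X]
      have h2 : ∀ n ≥ k, pderiv (i, Sum.inl n) P = 0 := by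
        intro n hn
        rcases eq_or_lt_of_le hn with h | h
        · rw [← h]; exact h1
        · exact (hk n h).1
      have h3 : pderiv (i, Sum.inr k) P = 0 := by
        refine deriv_single (Hk i (k + 1)) P _ ?_ ?_ (hH k)
        · rw [Hk, mkDerivation_X]; simp [sh, pp]
        · rintro ⟨j, n | n⟩ hv
          · by_cases h : i = j
            · subst h
              by_cases hn : k ≤ n
              · right; exact h2 n hn
              · left
                rw [Hk, mkDerivation_X]
                simp only [if_true, sh]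
                rw [if_neg (by omega), neg_zero]
            · left; rw [Hk, mkDerivation_X]; simp [h]
          · by_cases h : i = j
            · subst h
              rcases lt_trichotomy n k with hn | hn | hn
              · left
                rw [Hk, mkDerivation_X]
                simp only [if_true, sh]
                rw [if_neg (by omega)]
              · exact absurd (by rw [hn]) hv
              · right; exact (hk n hn).2
            · left; rw [Hk, mkDerivation_X]; simp [h]
      intro n hn
      rcases eq_or_lt_of_le hn with h | h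
      · rw [← h]; exact ⟨h1, h3⟩
      · exact hk n h
    have hall : ∀ m, m ≤ M → ∀ n ≥ M - m, pderiv (i, Sum.inl n) P = 0 ∧ pderiv (i, Sum.inr n) P = 0 := by
      intro m
      induction m with
      | zero => intro _; exact hM
      | succ m ih =>
        intro hm
        have := ih (by omega)
        refine step _ ?_
        intro n hn
        exact this n (by omega)
    intro n
    exact hall M le_rfl n (by omega)
  rintro ⟨i, n | n⟩
  · exact (key i n).1
  · exact (key i n).2

end

end Pool.Agent.W5h65.GS
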