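import Pool.Agent.R352.E.Gen
import Pool.Agent.W5h65.GS.Alg

/-!
# The moments `∫ (log s)^l s^(2k+1) exp (-s²) ds` and termwise integration
-/

set_option autoImplicit false

open Filter Topology Set MeasureTheory

namespace Pool.Agent.W5h65.GS

open Pool.Agent.R352.E (fr fl mo mellin_fl mellin_fl_zero fr_integrable isOpen_half fr_cont)

lemma hasSum_cg {f g : ℕ → ℝ} {a : ℝ} (h : ∀ k, f k = g k) (hf : HasSum f a) : HasSum g a := by
  rw [show g = f from (funext h).symm]; exact hf

/-- `∫ (log u)^l u^k exp (-u) du` -/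
noncomputable def Mm (l k : ℕ) : ℝ := ∫ u in Ioi (0 : ℝ), u ^ k * fr l u

lemma Mm_zero (l : ℕ) : Mm l 0 = mo l := by
  rw [Mm, mo]; simp

lemma mellin_shift (l : ℕ) : ∀ s : ℂ, 0 < s.re →
    mellin (fl l) (s + 1) = s * mellin (fl l) s + l * mellin (fl (l - 1)) s := by
  induction l with
  | zero =>
    intro s hs
    have hs0 : s ≠ 0 := by rintro rfl; simp at hs
    have hs1 : 0 < (s + 1).re := by rw [Complex.add_re, Complex.one_re]; linarith
    rw [mellin_fl_zero hs1, mellin_fl_zero hs, Complex.Gamma_add_one s hs0]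
    simp
  | succ l ih =>
    intro s hs
    have hs1 : 0 < (s + 1).re := by rw [Complex.add_re, Complex.one_re]; linarith
    have h1 : HasDerivAt (fun z : ℂ => mellin (fl l) (z + 1)) (mellin (fl (l + 1)) (s + 1)) s :=
      (mellin_fl l hs1).2.comp_add_const s 1
    have h3 : HasDerivAt (fun z : ℂ => z * mellin (fl l) z) (1 * mellin (fl l) s + s * mellin (fl (l + 1)) s) s :=
      (hasDerivAt_id s).mul (mellin_fl l hs).2
    have h4 : HasDerivAt (fun z : ℂ => (l : ℂ) * mellin (fl (l - 1)) z) ((l : ℂ) * mellin (fl l) s) s := by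
      cases l with
      | zero =>
        simp only [Nat.cast_zero, zero_mul]
        exact hasDerivAt_const s 0
      | succ l => exact (mellin_fl l hs).2.const_mul _
    have h2 : HasDerivAt (fun z : ℂ => mellin (fl l) (z + 1))
        (1 * mellin (fl l) s + s * mellin (fl (l + 1)) s + (l : ℂ) * mellin (fl l) s) s := by
      refine (h3.add h4).congr_of_eventuallyEq ?_
      filter_upwards [isOpen_half.mem_nhds hs] with z hz
      exact ih z hz
    rw [h1.unique h2, Nat.add_sub_cancel]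
    push_cast
    ring

lemma mellin_nat (l k : ℕ) : mellin (fl l) ((k : ℂ) + 1) = ((Mm l k : ℝ) : ℂ) := by
  rw [mellin, Mm, ← integral_complex_ofReal]
  refine setIntegral_congr_fun measurableSet_Ioi fun t ht => ?_
  simp [fl]

lemma Mm_rec (l k : ℕ) : Mm l (k + 1) = (k + 1) * Mm l k + l * Mm (l - 1) k := by
  have h := mellin_shift l ((k : ℂ) + 1) (by
    rw [Complex.add_re, Complex.natCast_re, Complex.one_re]; positivity)
  have e : (k : ℂ) + 1 = ((k + 1 : ℕ) : ℂ) := by push_cast; rfl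
  rw [mellin_nat, mellin_nat, e, mellin_nat] at h
  have h2 : ((Mm l (k + 1) : ℝ) : ℂ) = (((k + 1) * Mm l k + l * Mm (l - 1) k : ℝ) : ℂ) := by
    rw [h]; push_cast; rfl
  exact_mod_cast h2

/-- the Gaussian moments -/
lemma gauss_moment (l k : ℕ) :
    ∫ s in Ioi (0 : ℝ), Real.log s ^ l * (s ^ (2 * k + 1) * Real.exp (-s ^ 2)) = Mm l k / 2 ^ (l + 1) := by
  have h := integral_comp_rpow_Ioi_of_pos (g := fun u : ℝ => u ^ k * fr l u) (p := 2) (by norm_num)
  rw [Mm, ← h, eq_div_iff (by positivity), ← integral_mul_const]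
  refine setIntegral_congr_fun measurableSet_Ioi fun s hs => ?_
  have hs' : (0 : ℝ) < s := hs
  simp only [smul_eq_mul, fr]
  have e1 : s ^ (2 : ℝ) = s ^ 2 := Real.rpow_two s
  have e2 : s ^ ((2 : ℝ) - 1) = s := by norm_num
  rw [e1, e2, Real.log_pow]
  push_cast
  rw [mul_pow, pow_succ (2 : ℝ) l, ← pow_mul, pow_succ s (2 * k)]
  ring

lemma exp_bound (A s : ℝ) : Real.exp (A * s) * Real.exp (-s ^ 2) ≤ Real.exp ((A + 1) ^ 2 / 4) * Real.exp (-s) := by
  rw [← Real.exp_add, ← Real.exp_add]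
  apply Real.exp_le_exp.2
  nlinarith [sq_nonneg (s - (A + 1) / 2)]

lemma log_exp_integrable (l : ℕ) (A : ℝ) :
    IntegrableOn (fun s : ℝ => |Real.log s| ^ l * (Real.exp (A * s) * Real.exp (-s ^ 2))) (Ioi 0) := by
  refine Integrable.mono' ((fr_integrable l).abs.const_mul (Real.exp ((A + 1) ^ 2 / 4))) ?_ ?_
  · refine ContinuousOn.aestronglyMeasurable ?_ measurableSet_Ioi
    refine ContinuousOn.mul (ContinuousOn.pow (ContinuousOn.abs ?_) _) (by fun_prop)
    exact Real.continuousOn_log.mono fun x hx => (ne_of_gt hx : x ≠ 0)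
  · filter_upwards with s
    rw [Real.norm_eq_abs, abs_of_nonneg (by positivity), fr, abs_mul, abs_pow, abs_of_pos (Real.exp_pos (-s))]
    calc |Real.log s| ^ l * (Real.exp (A * s) * Real.exp (-s ^ 2))
        ≤ |Real.log s| ^ l * (Real.exp ((A + 1) ^ 2 / 4) * Real.exp (-s)) :=
          mul_le_mul_of_nonneg_left (exp_bound A s) (by positivity)
      _ = _ := by ring

/-- termwise integration -/
lemma termwise (l : ℕ) (c : ℕ → ℝ) (φ ψ : ℝ → ℝ) (A : ℝ)
    (hφ : ∀ s, 0 < s → HasSum (fun k => c k * s ^ (2 * k + 1)) (φ s))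
    (hψ : ∀ s, 0 < s → HasSum (fun k => |c k| * s ^ (2 * k + 1)) (ψ s))
    (hψA : ∀ s, 0 < s → ψ s ≤ Real.exp (A * s)) (hψc : ContinuousOn ψ (Ioi 0)) :
    HasSum (fun k => c k * (Mm l k / 2 ^ (l + 1))) (∫ s in Ioi (0 : ℝ), Real.log s ^ l * (φ s * Real.exp (-s ^ 2))) := by
  have hlog : ContinuousOn (fun s : ℝ => Real.log s) (Ioi 0) :=
    Real.continuousOn_log.mono fun x hx => (ne_of_gt hx : x ≠ 0)
  have h := hasSum_integral_of_dominated_convergence (μ := volume.restrict (Ioi (0 : ℝ)))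
    (F := fun k s => Real.log s ^ l * (c k * s ^ (2 * k + 1) * Real.exp (-s ^ 2)))
    (f := fun s => Real.log s ^ l * (φ s * Real.exp (-s ^ 2)))
    (fun k s => |Real.log s| ^ l * (|c k| * s ^ (2 * k + 1) * Real.exp (-s ^ 2))) ?_ ?_ ?_ ?_ ?_
  · refine hasSum_cg (fun k => ?_) h
    rw [← gauss_moment, ← integral_const_mul]
    refine setIntegral_congr_fun measurableSet_Ioi fun s _ => ?_
    ring
  · intro k
    refine ContinuousOn.aestronglyMeasurable ?_ measurableSet_Ioi
    exact (hlog.pow _).mul (by fun_prop)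
  · intro k
    filter_upwards [ae_restrict_mem measurableSet_Ioi] with s hs
    have hs' : (0 : ℝ) < s := hs
    rw [norm_mul, norm_pow, norm_mul, norm_mul, norm_pow, Real.norm_eq_abs, Real.norm_eq_abs, Real.norm_eq_abs,
      Real.norm_eq_abs, abs_of_pos hs', abs_of_pos (Real.exp_pos _)]
  · filter_upwards [ae_restrict_mem measurableSet_Ioi] with s hs
    exact (((hψ s hs).summable).mul_right _).mul_left _
  · have h1 : IntegrableOn (fun s : ℝ => |Real.log s| ^ l * (ψ s * Real.exp (-s ^ 2))) (Ioi 0) := by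
      refine Integrable.mono' (log_exp_integrable l A) ?_ ?_
      · refine ContinuousOn.aestronglyMeasurable ?_ measurableSet_Ioi
        exact (hlog.abs.pow _).mul (hψc.mul (by fun_prop))
      · filter_upwards [ae_restrict_mem measurableSet_Ioi] with s hs
        have hs' : (0 : ℝ) < s := hs
        have h0 : 0 ≤ ψ s := (hψ s hs).nonneg fun k => by positivity
        rw [Real.norm_eq_abs, abs_of_nonneg (by positivity)]
        exact mul_le_mul_of_nonneg_left (mul_le_mul_of_nonneg_right (hψA s hs) (Real.exp_pos _).le) (by positivity)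
    refine h1.congr_fun (fun s hs => ?_) measurableSet_Ioi
    simp only
    rw [tsum_mul_left, tsum_mul_right, (hψ s hs).tsum_eq]
  · filter_upwards [ae_restrict_mem measurableSet_Ioi] with s hs
    exact ((hφ s hs).mul_right _).mul_left _

/-- the sine moments -/
noncomputable def fS (l : ℕ) (x : ℝ) : ℝ := ∫ s in Ioi (0 : ℝ), Real.log s ^ l * (Real.sin (x * s) * Real.exp (-s ^ 2))

/-- the cosine moments -/
noncomputable def fC (l : ℕ) (x : ℝ) : ℝ := ∫ s in Ioi (0 : ℝ), Real.log s ^ l * (s * Real.cos (x * s) * Real.exp (-s ^ 2))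

lemma fS_hasSum (l : ℕ) {x : ℝ} (hx : 0 ≤ x) :
    HasSum (fun k => (-1) ^ k * x ^ (2 * k + 1) / (2 * k + 1).factorial * (Mm l k / 2 ^ (l + 1))) (fS l x) := by
  refine termwise l (fun k => (-1) ^ k * x ^ (2 * k + 1) / (2 * k + 1).factorial) (fun s => Real.sin (x * s))
    (fun s => Real.sinh (x * s)) x ?_ ?_ ?_ (by fun_prop)
  · intro s _
    have h := Real.hasSum_sin (x * s)
    refine hasSum_cg (fun k => ?_) h
    rw [mul_pow]
    ring
  · intro s _
    have h := Real.hasSum_sinh (x * s)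
    refine hasSum_cg (fun k => ?_) h
    rw [mul_pow, abs_div, abs_mul, abs_pow, abs_neg, abs_one, one_pow, one_mul, abs_of_nonneg (pow_nonneg hx _),
      Nat.abs_cast]
    ring
  · intro s _
    have := Real.sinh_lt_cosh (x * s)
    have h2 := Real.cosh_add_sinh (x * s)
    have h3 := Real.cosh_pos (x * s)
    linarith

lemma fC_hasSum (l : ℕ) {x : ℝ} (hx : 0 ≤ x) :
    HasSum (fun k => (-1) ^ k * x ^ (2 * k) / (2 * k).factorial * (Mm l k / 2 ^ (l + 1))) (fC l x) := by
  refine termwise l (fun k => (-1) ^ k * x ^ (2 * k) / (2 * k).factorial) (fun s => s * Real.cos (x * s))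
    (fun s => s * Real.cosh (x * s)) (x + 1) ?_ ?_ ?_ (by fun_prop)
  · intro s _
    have h := (Real.hasSum_cos (x * s)).mul_left s
    refine hasSum_cg (fun k => ?_) h
    rw [mul_pow]
    ring
  · intro s _
    have h := (Real.hasSum_cosh (x * s)).mul_left s
    refine hasSum_cg (fun k => ?_) h
    rw [mul_pow, abs_div, abs_mul, abs_pow, abs_neg, abs_one, one_pow, one_mul, abs_of_nonneg (pow_nonneg hx _),
      Nat.abs_cast]
    ring
  · intro s hs
    have h2 := Real.cosh_add_sinh (x * s)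
    have h3 : 0 ≤ Real.sinh (x * s) := Real.sinh_nonneg_iff.2 (by positivity)
    have h4 : s ≤ Real.exp s := by linarith [Real.add_one_le_exp s]
    have h5 : Real.exp ((x + 1) * s) = Real.exp s * Real.exp (x * s) := by rw [← Real.exp_add]; congr 1; ring
    rw [h5]
    exact mul_le_mul h4 (by linarith) (Real.cosh_pos _).le (Real.exp_pos _).le

end Pool.Agent.W5h65.GS
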