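import Pool.Agent.W5h65.GS.Mom

/-!
# The sine and cosine moments in terms of the functions `B_j` and `p_j`
-/

set_option autoImplicit false

open PowerSeries Finset.HasAntidiagonal

namespace Pool.Agent.W5h65.GS

open Pool.Agent.R352.E (mo mo0)

/-- `Γ^(i)(1) / (2^i i!)` -/
noncomputable def dd (i : ℕ) : ℝ := mo i / (2 ^ i * i.factorial)

/-- generating series -/
noncomputable def PGm : ℝ⟦X⟧ := PowerSeries.mk dd
noncomputable def Pbk (k : ℕ) : ℝ⟦X⟧ := PowerSeries.mk fun j => ((bb j k : ℚ) : ℝ)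
noncomputable def PDk (k : ℕ) : ℝ⟦X⟧ := PowerSeries.mk fun l => Mm l k / (2 ^ l * l.factorial * (2 * k + 1).factorial)

lemma PDk_rec (k : ℕ) : C ((2 * k + 2) * (2 * k + 3) : ℝ) * PDk (k + 1) = (C ((k : ℝ) + 1) + C (1 / 2) * X) * PDk k := by
  ext l
  rw [coeff_C_mul, add_mul (C ((k : ℝ) + 1)), mul_assoc (C (1 / 2)), map_add, coeff_C_mul, coeff_C_mul]
  have hf : ((2 * (k + 1) + 1).factorial : ℝ) = (2 * k + 3) * ((2 * k + 2) * (2 * k + 1).factorial) := by
    have e : 2 * (k + 1) + 1 = 2 * k + 1 + 1 + 1 := by ring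
    rw [e, Nat.factorial_succ (2 * k + 1 + 1), Nat.factorial_succ (2 * k + 1)]
    push_cast
    ring
  have h1 : ((2 * k + 1).factorial : ℝ) ≠ 0 := by exact_mod_cast Nat.factorial_ne_zero _
  have h2 : (2 * (k : ℝ) + 2) ≠ 0 := by positivity
  have h3 : (2 * (k : ℝ) + 3) ≠ 0 := by positivity
  have h4 : (l.factorial : ℝ) ≠ 0 := by exact_mod_cast Nat.factorial_ne_zero _
  cases l with
  | zero =>
    rw [coeff_zero_X_mul, PDk, PDk, coeff_mk, coeff_mk, Mm_rec, hf]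
    simp only [Nat.cast_zero, zero_mul, add_zero, mul_zero]
    field_simp
  | succ l =>
    rw [coeff_succ_X_mul, PDk, PDk, coeff_mk, coeff_mk, coeff_mk, Mm_rec, hf, Nat.add_sub_cancel, Nat.factorial_succ,
      pow_succ]
    have h5 : (l.factorial : ℝ) ≠ 0 := by exact_mod_cast Nat.factorial_ne_zero _
    have h6 : (l : ℝ) + 1 ≠ 0 := by positivity
    push_cast
    field_simp

lemma Pbk_rec (k : ℕ) : C ((2 * k + 2) * (2 * k + 3) : ℝ) * Pbk (k + 1) = (C ((k : ℝ) + 1) + C (1 / 2) * X) * Pbk k := by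
  ext j
  rw [coeff_C_mul, add_mul (C ((k : ℝ) + 1)), mul_assoc (C (1 / 2)), map_add, coeff_C_mul, coeff_C_mul]
  cases j with
  | zero =>
    rw [coeff_zero_X_mul, Pbk, Pbk, coeff_mk, coeff_mk, mul_zero, add_zero]
    have h := bb_rec_zero k
    have h' : ((bb 0 (k + 1) * ((2 * k + 2) * (2 * k + 3)) : ℚ) : ℝ) = (((k + 1) * bb 0 k : ℚ) : ℝ) := by rw [h]
    push_cast at h'
    linarith
  | succ j =>
    rw [coeff_succ_X_mul, Pbk, Pbk, coeff_mk, coeff_mk, coeff_mk]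
    have h := bb_rec j k
    have h' : ((bb (j + 1) (k + 1) * ((2 * k + 2) * (2 * k + 3)) : ℚ) : ℝ) =
        (((k + 1) * bb (j + 1) k + 1 / 2 * bb j k : ℚ) : ℝ) := by rw [h]
    push_cast at h'
    linarith

lemma PDk_eq (k : ℕ) : PDk k = PGm * Pbk k := by
  induction k with
  | zero =>
    have h1 : Pbk 0 = 1 := by
      ext j
      rw [Pbk, coeff_mk, bb_zero, coeff_one]
      split_ifs <;> simp
    rw [h1, mul_one]
    ext l
    rw [PDk, PGm, coeff_mk, coeff_mk, Mm_zero, dd]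
    simp
  | succ k ih =>
    have h1 : (C ((2 * k + 2) * (2 * k + 3) : ℝ) : ℝ⟦X⟧) ≠ 0 := by
      intro h
      have := congrArg (coeff 0) h
      rw [coeff_zero_C, map_zero] at this
      have h2 : (2 * (k : ℝ) + 2) * (2 * k + 3) ≠ 0 := by positivity
      exact h2 this
    apply mul_left_cancel₀ h1
    rw [PDk_rec, ih]
    linear_combination (-PGm) * Pbk_rec k

lemma Mm_eq (l k : ℕ) : Mm l k = 2 ^ l * l.factorial * (2 * k + 1).factorial *
    ∑ p ∈ antidiagonal l, dd p.1 * ((bb p.2 k : ℚ) : ℝ) := by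
  have h := congrArg (coeff l) (PDk_eq k)
  rw [PDk, coeff_mk, coeff_mul] at h
  simp only [PGm, Pbk, coeff_mk] at h
  rw [← h]
  have h1 : ((2 * k + 1).factorial : ℝ) ≠ 0 := by exact_mod_cast Nat.factorial_ne_zero _
  have h4 : (l.factorial : ℝ) ≠ 0 := by exact_mod_cast Nat.factorial_ne_zero _
  field_simp

lemma bb_bound (j k : ℕ) : |((bb j k : ℚ) : ℝ)| ≤ 2 ^ k / k.factorial := by
  have h1 : |bb j k| ≤ 2 ^ k / k.factorial := by
    have h0 := es_bound j k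
    have e1 : (0 : ℚ) ≤ k.factorial / (2 * k + 1).factorial / 2 ^ j := by positivity
    rw [bb, abs_mul, abs_of_nonneg e1, abs_of_nonneg h0.1]
    have e2 : es j k ≤ 2 ^ k := by
      refine h0.2.trans ?_
      have : k + 1 ≤ 2 ^ k := Nat.lt_two_pow_self
      exact_mod_cast this
    have e3 : (k.factorial : ℚ) / (2 * k + 1).factorial / 2 ^ j ≤ 1 / k.factorial := by
      refine (div_le_self (by positivity) (one_le_pow₀ (by norm_num))).trans ?_
      have h3 := fact_le_one k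
      rw [show k + k + 1 = 2 * k + 1 by ring] at h3
      have h4 : (0 : ℚ) < k.factorial := by exact_mod_cast Nat.factorial_pos _
      rw [le_div_iff₀ h4, div_mul_eq_mul_div]
      exact h3
    calc (k.factorial : ℚ) / (2 * k + 1).factorial / 2 ^ j * es j k ≤ 1 / k.factorial * 2 ^ k :=
          mul_le_mul e3 e2 h0.1 (by positivity)
      _ = _ := by ring
  have h2 : ((|bb j k| : ℚ) : ℝ) ≤ ((2 ^ k / k.factorial : ℚ) : ℝ) := by exact_mod_cast h1
  push_cast at h2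
  exact h2

lemma bb_summable (j : ℕ) (y : ℝ) : Summable fun k : ℕ => ((bb j k : ℚ) : ℝ) * y ^ k := by
  refine Summable.of_norm_bounded (Real.summable_pow_div_factorial (2 * |y|)) fun k => ?_
  rw [norm_mul, Real.norm_eq_abs, norm_pow, Real.norm_eq_abs, mul_pow]
  calc |((bb j k : ℚ) : ℝ)| * |y| ^ k ≤ 2 ^ k / k.factorial * |y| ^ k :=
        mul_le_mul_of_nonneg_right (bb_bound j k) (by positivity)
    _ = _ := by ring

lemma bb_hasSum (j : ℕ) (y : ℝ) : HasSum (fun k : ℕ => ((bb j k : ℚ) : ℝ) * y ^ k) (Bv j y) := (bb_summable j y).hasSum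

lemma odd_summable (j : ℕ) (y : ℝ) : Summable fun k : ℕ => (2 * (k : ℝ) + 1) * (((bb j k : ℚ) : ℝ) * y ^ k) := by
  refine Summable.of_norm_bounded (Real.summable_pow_div_factorial (6 * |y|)) fun k => ?_
  rw [norm_mul, norm_mul, Real.norm_eq_abs, Real.norm_eq_abs, norm_pow, Real.norm_eq_abs, mul_pow,
    abs_of_nonneg (by positivity : (0 : ℝ) ≤ 2 * k + 1)]
  have h1 : (2 * (k : ℝ) + 1) ≤ 3 ^ k := by
    have := one_add_mul_le_pow (a := (2 : ℝ)) (by norm_num) k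
    norm_num at this
    linarith
  calc (2 * (k : ℝ) + 1) * (|((bb j k : ℚ) : ℝ)| * |y| ^ k) ≤ 3 ^ k * (2 ^ k / k.factorial * |y| ^ k) :=
        mul_le_mul h1 (mul_le_mul_of_nonneg_right (bb_bound j k) (by positivity)) (by positivity) (by positivity)
    _ = 6 ^ k * |y| ^ k / k.factorial := by
        have : (6 : ℝ) ^ k = 3 ^ k * 2 ^ k := by rw [← mul_pow]; norm_num
        rw [this]; ring

/-- the shifted coefficients -/
def bs (j : ℕ) : ℕ → ℚ
  | 0 => 0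
  | (k + 1) => bb j k

lemma pc_rel (j k : ℕ) : (2 * (k : ℚ) + 1) * bb j k = pc j k + 1 / 2 * bs j k := by
  cases k with
  | zero =>
    rw [bb_zero]
    cases j with
    | zero => simp [pc, bs]
    | succ j => simp [pc, bs]
  | succ k =>
    have hk : ((k : ℚ) + 1) ≠ 0 := by positivity
    cases j with
    | zero =>
      have h := bb_rec_zero k
      have h3 : bb 0 (k + 1) * (2 * k + 3) = 1 / 2 * bb 0 k := by
        have : (k + 1 : ℚ) * (bb 0 (k + 1) * (2 * k + 3)) = (k + 1) * (1 / 2 * bb 0 k) := by linarith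
        exact mul_left_cancel₀ hk this
      rw [pc, bs]
      push_cast
      linarith
    | succ j =>
      have h := bb_rec j k
      have h3 : bb (j + 1) (k + 1) * (2 * k + 3) = 1 / 2 * bb (j + 1) k + bb j k / (4 * (k + 1)) := by
        have : (k + 1 : ℚ) * (bb (j + 1) (k + 1) * (2 * k + 3)) = (k + 1) * (1 / 2 * bb (j + 1) k + bb j k / (4 * (k + 1))) := by
          field_simp
          linarith
        exact mul_left_cancel₀ hk this
      rw [pc, bs]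
      push_cast
      linarith

lemma bs_hasSum (j : ℕ) (y : ℝ) : HasSum (fun k : ℕ => ((bs j k : ℚ) : ℝ) * y ^ k) (y * Bv j y) := by
  have h1 : HasSum (fun k : ℕ => ((bs j (k + 1) : ℚ) : ℝ) * y ^ (k + 1)) (y * Bv j y) := by
    refine hasSum_cg (fun k => ?_) ((bb_hasSum j y).mul_left y)
    rw [bs, pow_succ]; ring
  have h2 := (hasSum_nat_add_iff (f := fun k : ℕ => ((bs j k : ℚ) : ℝ) * y ^ k) 1).1 h1
  simpa [bs] using h2

lemma pc_hasSum (j : ℕ) (y : ℝ) : HasSum (fun k : ℕ => ((pc j k : ℚ) : ℝ) * y ^ k) (Pv j y) := by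
  have h1 := (odd_summable j y).sub ((bs_hasSum j y).summable.mul_left (1 / 2))
  have h2 : Summable (fun k : ℕ => ((pc j k : ℚ) : ℝ) * y ^ k) := by
    refine h1.congr fun k => ?_
    have h3 := pc_rel j k
    have h3' : (((2 * (k : ℚ) + 1) * bb j k : ℚ) : ℝ) = ((pc j k + 1 / 2 * bs j k : ℚ) : ℝ) := by rw [h3]
    push_cast at h3'
    linear_combination (y ^ k) * h3'
  exact h2.hasSum

lemma odd_hasSum (j : ℕ) (y : ℝ) : HasSum (fun k : ℕ => (2 * (k : ℝ) + 1) * (((bb j k : ℚ) : ℝ) * y ^ k))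
    (Pv j y + y / 2 * Bv j y) := by
  have h := (pc_hasSum j y).add ((bs_hasSum j y).mul_left (1 / 2))
  have e : Pv j y + y / 2 * Bv j y = Pv j y + 1 / 2 * (y * Bv j y) := by ring
  rw [e]
  refine hasSum_cg (fun k => ?_) h
  have h3 := pc_rel j k
  have h3' : (((2 * (k : ℚ) + 1) * bb j k : ℚ) : ℝ) = ((pc j k + 1 / 2 * bs j k : ℚ) : ℝ) := by rw [h3]
  push_cast at h3'
  linear_combination (-(y ^ k)) * h3'

/-- the sine moments -/
theorem fS_eq (l : ℕ) {x : ℝ} (hx : 0 ≤ x) :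
    fS l x = l.factorial * (x / 2) * ∑ p ∈ antidiagonal l, dd p.1 * Bv p.2 (-x ^ 2) := by
  have h1 := fS_hasSum l hx
  have h2 : HasSum (fun k : ℕ => l.factorial * (x / 2) * ∑ p ∈ antidiagonal l, dd p.1 * (((bb p.2 k : ℚ) : ℝ) * (-x ^ 2) ^ k))
      (l.factorial * (x / 2) * ∑ p ∈ antidiagonal l, dd p.1 * Bv p.2 (-x ^ 2)) :=
    (hasSum_sum fun p _ => (bb_hasSum p.2 (-x ^ 2)).mul_left (dd p.1)).mul_left _
  refine h1.unique (hasSum_cg (fun k => ?_) h2)
  have e : ∑ p ∈ antidiagonal l, dd p.1 * (((bb p.2 k : ℚ) : ℝ) * (-x ^ 2) ^ k) =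
      (-x ^ 2) ^ k * ∑ p ∈ antidiagonal l, dd p.1 * ((bb p.2 k : ℚ) : ℝ) := by
    rw [Finset.mul_sum]
    exact Finset.sum_congr rfl fun p _ => by ring
  rw [e, Mm_eq]
  have h3 : ((2 * k + 1).factorial : ℝ) ≠ 0 := by exact_mod_cast Nat.factorial_ne_zero _
  have e2 : (-x ^ 2) ^ k = (-1) ^ k * x ^ (2 * k) := by rw [neg_pow, ← pow_mul]
  rw [e2, pow_succ x, pow_succ (2 : ℝ) l]
  field_simp

/-- the cosine moments -/
theorem fC_eq (l : ℕ) {x : ℝ} (hx : 0 ≤ x) :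
    fC l x = l.factorial / 2 * ∑ p ∈ antidiagonal l, dd p.1 * (Pv p.2 (-x ^ 2) - x ^ 2 / 2 * Bv p.2 (-x ^ 2)) := by
  have h1 := fC_hasSum l hx
  have h2 : HasSum (fun k : ℕ => (l.factorial : ℝ) / 2 * ∑ p ∈ antidiagonal l,
      dd p.1 * ((2 * (k : ℝ) + 1) * (((bb p.2 k : ℚ) : ℝ) * (-x ^ 2) ^ k)))
      (l.factorial / 2 * ∑ p ∈ antidiagonal l, dd p.1 * (Pv p.2 (-x ^ 2) - x ^ 2 / 2 * Bv p.2 (-x ^ 2))) := by
    refine (hasSum_sum fun p _ => ?_).mul_left _
    have h3 := (odd_hasSum p.2 (-x ^ 2)).mul_left (dd p.1)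
    have e : Pv p.2 (-x ^ 2) - x ^ 2 / 2 * Bv p.2 (-x ^ 2) = Pv p.2 (-x ^ 2) + (-x ^ 2) / 2 * Bv p.2 (-x ^ 2) := by ring
    rw [e]
    exact h3
  refine h1.unique (hasSum_cg (fun k => ?_) h2)
  have e : ∑ p ∈ antidiagonal l, dd p.1 * ((2 * (k : ℝ) + 1) * (((bb p.2 k : ℚ) : ℝ) * (-x ^ 2) ^ k)) =
      (2 * (k : ℝ) + 1) * (-x ^ 2) ^ k * ∑ p ∈ antidiagonal l, dd p.1 * ((bb p.2 k : ℚ) : ℝ) := by
    rw [Finset.mul_sum]
    exact Finset.sum_congr rfl fun p _ => by ring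
  rw [e, Mm_eq, Nat.factorial_succ]
  have h3 : ((2 * k).factorial : ℝ) ≠ 0 := by exact_mod_cast Nat.factorial_ne_zero _
  have e2 : (-x ^ 2) ^ k = (-1) ^ k * x ^ (2 * k) := by rw [neg_pow, ← pow_mul]
  rw [e2, pow_succ (2 : ℝ) l]
  push_cast
  field_simp

end Pool.Agent.W5h65.GS
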